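import Mathlib
import Pool.Agent.Lib.Pf72953.Reduction

/-!
The Kodaira dimension of a point.
-/

set_option autoImplicit false
set_option linter.style.haveILetI false

open scoped WithZero
open Pf72953

namespace Pf72953.PF

variable (k : Type*) [Field k] [CharZero k]

omit [CharZero k] in
theorem dim_self : dimension k k = 0 := by
  rw [dimension, trdeg_eq_zero]
  simp

theorem kodairaGE_self : KodairaGE k k 0 := by
  obtain ⟨z, hz⟩ := exists_tb k k
  refine ⟨1, le_rfl, pureForm k (fun _ => z), ?_, ?_, Fin.elim0, ?_, fun i => i.elim0⟩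
  · intro w hw
    obtain ⟨a, ha0, ha⟩ := hw.nontrivial
    exact absurd (hw.const a ha0) ha
  · intro h0
    have := congrArg (coef hz 1) h0
    rw [coef_self, map_zero] at this
    exact one_ne_zero this
  · rw [algebraicIndependent_empty_type_iff]
    exact (algebraMap k k).injective

theorem kodairaDim_self : kodairaDim k k = 0 := by
  rcases kodairaDim_eq (k := k) (K := k) with h | ⟨c, hc, h⟩
  · exfalso
    have h1 : (((0 : ℕ) : ℕ∞) : WithBot ℕ∞) ≤ kodairaDim k k :=
      le_iSup₂_of_le 0 (kodairaGE_self k) le_rfl
    rw [h] at h1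
    exact absurd h1 (by simp)
  · have h1 := hc.le_dimension
    rw [dim_self] at h1
    have h2 : c = 0 := by omega
    rw [h, h2]
    rfl

end Pf72953.PF
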