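import Mathlib
import Pool.Agent.Lib.Pf72953.Core
import Pool.Agent.Lib.Pf72953f.Rel
import Pool.Agent.Lib.Pf72953f.RelW
import Pool.Agent.Lib.Pf72953f.Res
import Pool.Agent.Lib.Pf72953u.Pull
import Pool.Agent.Lib.Pf72953t.Defs

/-!
Easy addition for two fibrations: `κ(E/k) ≤ κ(E/B) + κ(E/Y)` if `B` and `Y` are subfields of `E`, free from each
other over `k` (submodularity of the transcendence degree).
-/

set_option autoImplicit false
set_option linter.style.haveILetI false

open scoped WithZero
open Pf72953

namespace Pf72953.Bi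

section

variable {k K L : Type*} [Field k] [Field K] [Field L] [Algebra k K] [Algebra k L] [Algebra K L]
  [IsScalarTower k K L]

/-- the rank of a family over `K`: a subfamily, algebraically independent over `K`, of maximal size -/
theorem exists_finset_over {N : ℕ} (f : Fin N → L) {ι : Type*} [Fintype ι] {x : ι → K}
    (hx : IsTranscendenceBasis k x) :
    ∃ T : Finset (Fin N), (AlgebraicIndependent.matroid k L).eRk
        (Set.range (fun i => algebraMap K L (x i)) ∪ Set.range f) ≤ Fintype.card ι + T.card ∧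
      AlgebraicIndependent K (fun i : T => f i) := by
  classical
  have hx'i : AlgebraicIndependent k (fun i => algebraMap K L (x i)) :=
    hx.1.map' (f := IsScalarTower.toAlgHom k K L) (algebraMap K L).injective
  have h1 : (AlgebraicIndependent.matroid k L).Indep
      (Set.range (fun i => algebraMap K L (x i))) := by
    rw [AlgebraicIndependent.matroid_indep_iff]
    exact hx'i.to_subtype_range
  obtain ⟨J, hJ, hXJ⟩ := h1.subset_isBasis_of_subset
    (Set.subset_union_left : _ ⊆ Set.range (fun i => algebraMap K L (x i)) ∪ Set.range f)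
  have h4 : (Set.range (fun i => algebraMap K L (x i))).encard = Fintype.card ι := by
    rw [← Set.image_univ, hx'i.injective.encard_image, Set.encard_univ, ENat.card_eq_coe_natCard]
    simp
  have hsub : J \ Set.range (fun i => algebraMap K L (x i)) ⊆ Set.range f := by
    intro y hy
    rcases hJ.subset hy.1 with h | h
    · exact absurd h hy.2
    · exact h
  -- a section of `f` over `J \ X`
  choose g hg using fun y : (J \ Set.range (fun i => algebraMap K L (x i)) : Set L) => hsub y.2
  have hginj : Function.Injective g := by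
    intro y y' h
    have h' := congrArg f h
    rw [hg, hg] at h'
    exact Subtype.ext h'
  haveI : Finite (J \ Set.range (fun i => algebraMap K L (x i)) : Set L) :=
    Finite.of_injective g hginj
  haveI : Fintype (J \ Set.range (fun i => algebraMap K L (x i)) : Set L) := Fintype.ofFinite _
  set T : Finset (Fin N) := Finset.univ.image g with hT
  have hTcard : (J \ Set.range (fun i => algebraMap K L (x i))).encard = (T.card : ℕ∞) := by
    rw [hT, Finset.card_image_of_injective _ hginj, Finset.card_univ, Set.encard,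
      ENat.card_eq_coe_fintype_card]
  refine ⟨T, ?_, ?_⟩
  · rw [← hJ.encard_eq_eRk, ← Set.encard_sdiff_add_encard_of_subset hXJ, h4, hTcard, add_comm]
  · have hmem : ∀ i : T, f i ∈ J \ Set.range (fun i => algebraMap K L (x i)) := by
      rintro ⟨i, hi⟩
      rw [hT, Finset.mem_image] at hi
      obtain ⟨y, -, rfl⟩ := hi
      rw [hg]
      exact y.2
    have hfinj : ∀ i j : T, f i = f j → i = j := by
      rintro ⟨i, hi⟩ ⟨j, hj⟩ h
      rw [hT, Finset.mem_image] at hi hj
      obtain ⟨y, -, rfl⟩ := hi
      obtain ⟨y', -, rfl⟩ := hj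
      simp only at h
      rw [hg, hg] at h
      have := Subtype.ext h
      subst this
      rfl
    refine Pf72953.Fib.ResAux.indep_over (k := k) hx ?_
    have h8 : AlgebraicIndependent k (fun a : J => (a : L)) := by
      have := hJ.indep
      rwa [AlgebraicIndependent.matroid_indep_iff] at this
    have h9 := h8.comp (Sum.elim (fun i => (⟨algebraMap K L (x i), hXJ ⟨i, rfl⟩⟩ : J))
      (fun i : T => (⟨f i, (hmem i).1⟩ : J))) (by
        rintro (i | i) (j | j) hij
        · have h10 := congrArg (fun a : J => (a : L)) hij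
          exact congrArg _ (hx'i.injective h10)
        · have h10 := congrArg (fun a : J => (a : L)) hij
          exact absurd ⟨i, h10⟩ (hmem j).2
        · have h10 := congrArg (fun a : J => (a : L)) hij
          exact absurd ⟨j, h10.symm⟩ (hmem i).2
        · have h10 := congrArg (fun a : J => (a : L)) hij
          exact congrArg _ (hfinj _ _ h10))
    convert h9 using 1
    funext i
    rcases i with i | i <;> rfl

end

section

variable {k B Y Z E : Type*} [Field k] [Field B] [Field Y] [Field Z] [Field E]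
  [Algebra k B] [Algebra k Y] [Algebra k Z] [Algebra k E] [Algebra B Z] [Algebra Y Z]
  [Algebra B E] [Algebra Y E] [Algebra Z E]
  [IsScalarTower k B E] [IsScalarTower k Y E] [IsScalarTower k Z E] [IsScalarTower B Z E]
  [IsScalarTower Y Z E]

/-- Submodularity: `x`, `y` transcendence bases of `B/k`, `Y/k`, together algebraically independent in `Z`; `f` a family of
elements of `E ⊇ Z` of which `c` are algebraically independent over `k` and `d` are algebraically independent over `Z`. -/
theorem exists_finsets {ι ι' : Type*} [Fintype ι] [Fintype ι'] {x : ι → B} {y : ι' → Y}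
    (hx : IsTranscendenceBasis k x) (hy : IsTranscendenceBasis k y)
    (hxy : AlgebraicIndependent k (Sum.elim (fun i => algebraMap B Z (x i))
      (fun i => algebraMap Y Z (y i)))) {N c d : ℕ} (f : Fin N → E) (e : Fin c → Fin N)
    (he : AlgebraicIndependent k (fun i => f (e i))) (e' : Fin d → Fin N)
    (he' : AlgebraicIndependent Z (fun i => f (e' i))) :
    ∃ T T' : Finset (Fin N), c + d ≤ T.card + T'.card ∧
      AlgebraicIndependent B (fun i : T => f i) ∧ AlgebraicIndependent Y (fun i : T' => f i) := by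
  classical
  obtain ⟨T, hT, hTi⟩ := exists_finset_over (L := E) f hx
  obtain ⟨T', hT', hTi'⟩ := exists_finset_over (L := E) f hy
  refine ⟨T, T', ?_, hTi, hTi'⟩
  set M := AlgebraicIndependent.matroid k E with hM
  set X := Set.range (fun i => algebraMap B E (x i)) with hX
  set W := Set.range (fun i => algebraMap Y E (y i)) with hW
  set R := Set.range f with hR
  have h1 := M.eRk_inter_add_eRk_union_le (X ∪ R) (W ∪ R)
  have h2 : (c : ℕ∞) ≤ M.eRk ((X ∪ R) ∩ (W ∪ R)) := by
    have h3 : M.Indep (Set.range (fun i => f (e i))) := by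
      rw [hM, AlgebraicIndependent.matroid_indep_iff]
      exact he.to_subtype_range
    have h4 : (Set.range (fun i => f (e i))).encard = c := by
      rw [← Set.image_univ, he.injective.encard_image, Set.encard_univ, ENat.card_eq_coe_natCard]
      simp
    rw [← h4]
    refine h3.encard_le_eRk_of_subset ?_
    rintro _ ⟨i, rfl⟩
    exact ⟨Or.inr ⟨_, rfl⟩, Or.inr ⟨_, rfl⟩⟩
  have h5 : ((Fintype.card ι : ℕ∞) + Fintype.card ι' + d) ≤ M.eRk ((X ∪ R) ∪ (W ∪ R)) := by
    have h6 := hxy.sumElim_comp he'
    have h7 : M.Indep (Set.range (Sum.elim (fun i => f (e' i))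
        (algebraMap Z E ∘ Sum.elim (fun i => algebraMap B Z (x i))
          (fun i => algebraMap Y Z (y i))))) := by
      rw [hM, AlgebraicIndependent.matroid_indep_iff]
      exact h6.to_subtype_range
    have h8 : (Set.range (Sum.elim (fun i => f (e' i))
        (algebraMap Z E ∘ Sum.elim (fun i => algebraMap B Z (x i))
          (fun i => algebraMap Y Z (y i))))).encard =
        (Fintype.card ι : ℕ∞) + Fintype.card ι' + d := by
      rw [← Set.image_univ, h6.injective.encard_image, Set.encard_univ, ENat.card_eq_coe_natCard]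
      simp only [Nat.card_eq_fintype_card, Fintype.card_sum, Fintype.card_fin]
      push_cast
      ring
    rw [← h8]
    refine h7.encard_le_eRk_of_subset ?_
    rintro _ ⟨i | i | i, rfl⟩
    · exact Or.inl (Or.inr ⟨_, rfl⟩)
    · refine Or.inl (Or.inl ⟨i, ?_⟩)
      simp [← IsScalarTower.algebraMap_apply B Z E]
    · refine Or.inr (Or.inl ⟨i, ?_⟩)
      simp [← IsScalarTower.algebraMap_apply Y Z E]
  have h9 : (c : ℕ∞) + ((Fintype.card ι : ℕ∞) + Fintype.card ι' + d) ≤
      (Fintype.card ι + T.card) + (Fintype.card ι' + T'.card) :=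
    (add_le_add h2 h5).trans (h1.trans (add_le_add hT hT'))
  have h10 : c + (Fintype.card ι + Fintype.card ι' + d) ≤
      (Fintype.card ι + T.card) + (Fintype.card ι' + T'.card) := by exact_mod_cast h9
  omega

end

section kod

theorem finTrdeg_sub (k K L : Type*) [Field k] [Field K] [Field L] [Algebra k K] [Algebra k L]
    [Algebra K L] [IsScalarTower k K L] [FinTrdeg k L] : FinTrdeg k K := by
  have hfin : Algebra.trdeg k L < Cardinal.aleph0 := trdeg_lt_aleph0 k L
  have hsum := lift_trdeg_add_eq k K L
  obtain ⟨n, hn⟩ := Cardinal.lt_aleph0.mp hfin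
  rw [hn, Cardinal.lift_natCast] at hsum
  have hfin2 := hsum.trans_lt (Cardinal.natCast_lt_aleph0 (n := n))
  rw [Cardinal.add_lt_aleph0_iff, Cardinal.lift_lt_aleph0, Cardinal.lift_lt_aleph0] at hfin2
  exact FinTrdeg.of_trdeg hfin2.1

/-- the same forms and ratios over a larger ground field -/
theorem kodairaGE_of_family {k K L : Type*} [Field k] [CharZero k] [Field K] [Field L]
    [Algebra k K] [Algebra k L] [Algebra K L] [IsScalarTower k K L] [Algebra.EssFiniteType k L]
    {z : Fin (dimension k L) → L} (hz : IsTranscendenceBasis k z) {m : ℕ} (hm : 1 ≤ m)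
    {g₀ : L} (hg₀ : g₀ ∈ WReg k z m) (hne : g₀ ≠ 0) {N : ℕ} {f : Fin N → L}
    (hf : ∀ i, f i * g₀ ∈ WReg k z m) (T : Finset (Fin N))
    (hT : AlgebraicIndependent K (fun i : T => f i)) : KodairaGE K L T.card := by
  classical
  haveI : CharZero K := charZero_of_injective_algebraMap (algebraMap k K).injective
  haveI : Algebra.EssFiniteType K L := Algebra.EssFiniteType.of_comp k K L
  haveI : FinTrdeg k K := finTrdeg_sub k K L
  obtain ⟨x, hx0⟩ := exists_algebraicIndependent_of_le_trdeg (k := k) (K := K)
    (n := dimension k K) trdeg_eq_dimension.le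
  have hx : IsTranscendenceBasis k x := isTranscendenceBasis_of_card (Fintype.card_fin _) hx0
  obtain ⟨s, hs⟩ := exists_tb K L
  have hzz := Pf72953.Fib.tb_rel hx hs
  have hdim := Pf72953.Fib.ResAux.dim_add k K L
  let e : Fin (dimension k L) ≃ Fin (dimension k K) ⊕ Fin (dimension K L) :=
    (finCongr hdim.symm).trans finSumFinEquiv.symm
  have hz' := (isTranscendenceBasis_equiv e).mpr hzz
  have hback : ∀ g, g ∈ WReg k z m → g * jac hz' z ^ m ∈ WReg K s m := by
    intro g hg
    have h1 := Pf72953.Up.WReg.change hz hz' hg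
    have h2 := WReg.reindex h1 e.symm
    have h3 : (Sum.elim (fun a => algebraMap K L (x a)) s ∘ e) ∘ e.symm =
        Sum.elim (fun a => algebraMap K L (x a)) s := by
      funext a
      simp
    rw [h3] at h2
    exact Pf72953.Fib.WReg_rel hx hs h2
  have hjac : jac hz' z ≠ 0 := jac_ne_zero hz hz'
  let eT : Fin T.card ≃ T := T.equivFin.symm
  refine KodairaGE.of_coord hs hm (hback _ hg₀) (mul_ne_zero hne (pow_ne_zero _ hjac))
    (f := fun i => f (eT i)) (hT.comp eT eT.injective) (fun i => ?_)
  have := hback _ (hf (eT i))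
  rwa [mul_assoc] at this

variable {k B Y Z E : Type*} [Field k] [CharZero k] [Field B] [Field Y] [Field Z] [Field E]
  [Algebra k B] [Algebra k Y] [Algebra k Z] [Algebra k E] [Algebra B Z] [Algebra Y Z]
  [Algebra B E] [Algebra Y E] [Algebra Z E] [IsScalarTower k B Z] [IsScalarTower k Y Z]
  [IsScalarTower k B E] [IsScalarTower k Y E] [IsScalarTower k Z E] [IsScalarTower B Z E]
  [IsScalarTower Y Z E] [Algebra.EssFiniteType k E] [Algebra.EssFiniteType k B]
  [Algebra.EssFiniteType k Y]

/-- **Easy addition for two fibrations.** -/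
theorem exists_kodairaGE_add
    (hdim : dimension k B + dimension k Y = dimension k Z)
    (halg : ∀ a : Z, IsAlgebraic (Algebra.adjoin k
      (Set.range (algebraMap B Z) ∪ Set.range (algebraMap Y Z))) a)
    {z : Fin (dimension k E) → E} (hz : IsTranscendenceBasis k z) {m : ℕ} (hm : 1 ≤ m)
    {g₀ : E} (hg₀ : g₀ ∈ WReg k z m) (hne : g₀ ≠ 0) {N : ℕ} {f : Fin N → E}
    (hf : ∀ i, f i * g₀ ∈ WReg k z m) {c d : ℕ} (e : Fin c → Fin N)
    (he : AlgebraicIndependent k (fun i => f (e i))) (e' : Fin d → Fin N)
    (he' : AlgebraicIndependent Z (fun i => f (e' i))) :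
    ∃ c₁ c₂ : ℕ, c + d ≤ c₁ + c₂ ∧ KodairaGE B E c₁ ∧ KodairaGE Y E c₂ := by
  obtain ⟨x, hx⟩ := exists_tb k B
  obtain ⟨y, hy⟩ := exists_tb k Y
  haveI : FinTrdeg k Z := finTrdeg_sub k Z E
  have hyB : IsTranscendenceBasis B (fun i => algebraMap Y Z (y i)) :=
    Pf72953.Up.tb_over hdim halg hy
  have hxy := (Pf72953.Fib.tb_rel hx hyB).1
  obtain ⟨T, T', hTT', hT, hT'⟩ := exists_finsets (Z := Z) hx hy hxy f e he e' he'
  exact ⟨T.card, T'.card, hTT', kodairaGE_of_family hz hm hg₀ hne hf T hT,
    kodairaGE_of_family hz hm hg₀ hne hf T' hT'⟩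

/-- `κ(E/k) ≤ κ(E/B) + κ(E/Y)` -/
theorem kodairaDim_le_add
    (hdim : dimension k B + dimension k Y = dimension k Z)
    (halg : ∀ a : Z, IsAlgebraic (Algebra.adjoin k
      (Set.range (algebraMap B Z) ∪ Set.range (algebraMap Y Z))) a) :
    kodairaDim k E ≤ kodairaDim B E + kodairaDim Y E := by
  refine iSup₂_le fun c hc => ?_
  obtain ⟨z, hz⟩ := exists_tb k E
  obtain ⟨m, hm, f₀, hf₀, hne, f, hf, hff⟩ := hc.exists_coord hz
  obtain ⟨c₁, c₂, h12, h1, h2⟩ := exists_kodairaGE_add (Z := Z) hdim halg hz hm hf₀ hne hff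
    (fun i => i) hf (d := 0) (fun i => i.elim0)
    ((algebraicIndependent_empty_type_iff (R := Z)).mpr (algebraMap Z E).injective)
  have h3 : ((c₁ : ℕ∞) : WithBot ℕ∞) ≤ kodairaDim B E := le_iSup₂_of_le c₁ h1 le_rfl
  have h4 : ((c₂ : ℕ∞) : WithBot ℕ∞) ≤ kodairaDim Y E := le_iSup₂_of_le c₂ h2 le_rfl
  refine le_trans ?_ (add_le_add h3 h4)
  have h5 : (c : ℕ∞) ≤ (c₁ : ℕ∞) + (c₂ : ℕ∞) := by exact_mod_cast (by omega : c ≤ c₁ + c₂)
  exact_mod_cast h5

end kod

end Pf72953.Bi
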