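import Mathlib
import Pool.Agent.Lib.Pf72953u.Main
import Pool.Agent.Lib.Pf72953t.Defs

/-!
The product of two smooth complete varieties, and the box product of line bundles.
-/

set_option autoImplicit false
set_option linter.style.haveILetI false

open scoped WithZero
open Pf72953 Pf72953.Mov Pf72953.Up

namespace Pf72953.PF

section alg

variable {k B Y Z : Type*} [Field k] [Field B] [Field Y] [Field Z] [Algebra k B]
  [Algebra k Y] [Algebra k Z] [Algebra B Z] [Algebra Y Z]

/-- the coordinate ring of the product of two charts -/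
def pA (Z : Type*) [Field Z] [Algebra k Z] [Algebra B Z] [Algebra Y Z] (A : Subalgebra k Y)
    (A' : Subalgebra k B) : Subalgebra k Z :=
  Algebra.adjoin k (algebraMap Y Z '' A ∪ algebraMap B Z '' A')

theorem left_mem {A : Subalgebra k Y} {A' : Subalgebra k B} {f : Y} (hf : f ∈ A) :
    algebraMap Y Z f ∈ pA Z A A' := Algebra.subset_adjoin (Or.inl ⟨f, hf, rfl⟩)

theorem right_mem {A : Subalgebra k Y} {A' : Subalgebra k B} {f : B} (hf : f ∈ A') :
    algebraMap B Z f ∈ pA Z A A' := Algebra.subset_adjoin (Or.inr ⟨f, hf, rfl⟩)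

variable [IsScalarTower k B Z] [IsScalarTower k Y Z]

theorem pA_fg {A : Subalgebra k Y} {A' : Subalgebra k B} (hA : A.FG) (hA' : A'.FG) :
    (pA Z A A').FG := by
  classical
  have h : pA Z A A' = A.map (IsScalarTower.toAlgHom k Y Z) ⊔
      A'.map (IsScalarTower.toAlgHom k B Z) := by
    refine le_antisymm (Algebra.adjoin_le ?_) (sup_le ?_ ?_)
    · rintro _ (⟨f, hf, rfl⟩ | ⟨f, hf, rfl⟩)
      · exact (le_sup_left : A.map (IsScalarTower.toAlgHom k Y Z) ≤ _) ⟨f, hf, rfl⟩
      · exact (le_sup_right : A'.map (IsScalarTower.toAlgHom k B Z) ≤ _) ⟨f, hf, rfl⟩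
    · rintro _ ⟨f, hf, rfl⟩
      exact left_mem hf
    · rintro _ ⟨f, hf, rfl⟩
      exact right_mem hf
  rw [h]
  exact (hA.map _).sup (hA'.map _)

theorem pA_frac {A : Subalgebra k Y} {A' : Subalgebra k B}
    (hA : ∀ f : Y, ∃ g ∈ A, ∃ h ∈ A, h ≠ 0 ∧ f = g / h)
    (hA' : ∀ f : B, ∃ g ∈ A', ∃ h ∈ A', h ≠ 0 ∧ f = g / h)
    (hcomp : Twr.IsCompositum k B Y Z) (f : Z) :
    ∃ g ∈ pA Z A A', ∃ h ∈ pA Z A A', h ≠ 0 ∧ f = g / h := by
  have hf := hcomp f
  induction hf using IntermediateField.adjoin_induction with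
  | mem x hx =>
    rcases hx with ⟨y, rfl⟩ | ⟨y, rfl⟩
    · obtain ⟨g, hg, h', hh, hne, rfl⟩ := hA' y
      refine ⟨_, right_mem hg, _, right_mem hh, ?_, by rw [map_div₀]⟩
      rw [Ne, map_eq_zero]
      exact hne
    · obtain ⟨g, hg, h', hh, hne, rfl⟩ := hA y
      refine ⟨_, left_mem hg, _, left_mem hh, ?_, by rw [map_div₀]⟩
      rw [Ne, map_eq_zero]
      exact hne
  | algebraMap r =>
    exact ⟨algebraMap k Z r, Subalgebra.algebraMap_mem _ _, 1, Subalgebra.one_mem _,
      one_ne_zero, by rw [div_one]⟩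
  | add x y _ _ hx hy =>
    obtain ⟨a, ha, c, hc, hc0, rfl⟩ := hx
    obtain ⟨a', ha', c', hc', hc0', rfl⟩ := hy
    exact ⟨a * c' + c * a', Subalgebra.add_mem _ (Subalgebra.mul_mem _ ha hc')
      (Subalgebra.mul_mem _ hc ha'), c * c', Subalgebra.mul_mem _ hc hc',
      mul_ne_zero hc0 hc0', by rw [div_add_div _ _ hc0 hc0']⟩
  | inv x _ hx =>
    obtain ⟨a, ha, c, hc, hc0, rfl⟩ := hx
    by_cases ha0 : a = 0
    · exact ⟨0, Subalgebra.zero_mem _, 1, Subalgebra.one_mem _, one_ne_zero, by
        rw [ha0, zero_div, inv_zero, zero_div]⟩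
    · exact ⟨c, hc, a, ha, ha0, by rw [inv_div]⟩
  | mul x y _ _ hx hy =>
    obtain ⟨a, ha, c, hc, hc0, rfl⟩ := hx
    obtain ⟨a', ha', c', hc', hc0', rfl⟩ := hy
    exact ⟨a * a', Subalgebra.mul_mem _ ha ha', c * c', Subalgebra.mul_mem _ hc hc',
      mul_ne_zero hc0 hc0', by rw [div_mul_div_comm]⟩

theorem pA_val {A : Subalgebra k Y} {A' : Subalgebra k B}
    {v : Valuation Z ℤᵐ⁰} (hk : ∀ c : k, c ≠ 0 → v (algebraMap k Z c) = 1)
    (hA : ∀ f ∈ A, v (algebraMap Y Z f) ≤ 1)
    (hA' : ∀ f ∈ A', v (algebraMap B Z f) ≤ 1) :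
    ∀ f ∈ pA Z A A', v f ≤ 1 := by
  intro f hf
  induction hf using Algebra.adjoin_induction with
  | mem x hx =>
    rcases hx with ⟨y, hy, rfl⟩ | ⟨y, hy, rfl⟩
    · exact hA y hy
    · exact hA' y hy
  | algebraMap r =>
    rcases eq_or_ne r 0 with rfl | hr
    · simp
    · exact (hk r hr).le
  | add x y _ _ hx hy =>
    exact (Valuation.map_add _ _ _).trans (max_le hx hy)
  | mul x y _ _ hx hy =>
    rw [map_mul]
    exact mul_le_one' hx hy

end alg

section der

variable {k Y Z ι : Type*} [Field k] [CharZero k] [Field Y] [Field Z] [Algebra k Y] [Algebra k Z]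
  [Algebra Y Z] [IsScalarTower k Y Z] [Fintype ι]

/-- a derivation of the big field on elements of the small field -/
theorem der_sum {x : ι → Y} (hx : IsTranscendenceBasis k x) (D : Derivation k Z Z) (f : Y) :
    D (algebraMap Y Z f) = ∑ a, algebraMap Y Z (pd hx a f) * D (algebraMap Y Z (x a)) := by
  have h := congrArg (D.compAlgebraMap Y).liftKaehlerDifferential (D_eq_sum hx f)
  rw [map_sum] at h
  simpa [Derivation.liftKaehlerDifferential_comp_D, Algebra.smul_def] using h

end der

section model

variable {k B Y Z : Type*} [Field k] [CharZero k] [Field B] [Field Y] [Field Z] [Algebra k B]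
  [Algebra k Y] [Algebra k Z] [Algebra B Z] [Algebra Y Z] [IsScalarTower k B Z]
  [IsScalarTower k Y Z] [Algebra.EssFiniteType k B] [Algebra.EssFiniteType k Z]

/-- the coordinates of the product of two charts -/
noncomputable def pX (hdim : dimension k B + dimension k Y = dimension k Z) (x : Fin (dimension k Y) → Y)
    (x' : Fin (dimension k B) → B) : Fin (dimension k Z) → Z :=
  Sum.elim (fun b => algebraMap Y Z (x b)) (fun a => algebraMap B Z (x' a)) ∘
    (finSumFinEquiv.trans (finCongr (by omega : dimension k Y + dimension k B =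
      dimension k Z))).symm

theorem alg_of_compositum (hcomp : Twr.IsCompositum k B Y Z) (a : Z) :
    IsAlgebraic (Algebra.adjoin k (Set.range (algebraMap B Z) ∪ Set.range (algebraMap Y Z))) a := by
  rw [← IntermediateField.isAlgebraic_adjoin_iff]
  exact isAlgebraic_algebraMap (⟨a, hcomp a⟩ : IntermediateField.adjoin k
    (Set.range (algebraMap B Z) ∪ Set.range (algebraMap Y Z)))

theorem tb_sum (hcomp : Twr.IsCompositum k B Y Z)
    (hdim : dimension k B + dimension k Y = dimension k Z) {x : Fin (dimension k Y) → Y}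
    (hx : IsTranscendenceBasis k x) {x' : Fin (dimension k B) → B}
    (hx' : IsTranscendenceBasis k x') :
    IsTranscendenceBasis k (Sum.elim (fun b => algebraMap Y Z (x b))
      (fun a => algebraMap B Z (x' a))) := by
  have h1 : IsTranscendenceBasis B (fun i => algebraMap Y Z (x i)) :=
    tb_over hdim (alg_of_compositum hcomp) hx
  exact hx'.sumElim_comp h1

theorem tb_pX (hcomp : Twr.IsCompositum k B Y Z)
    (hdim : dimension k B + dimension k Y = dimension k Z) {x : Fin (dimension k Y) → Y}
    (hx : IsTranscendenceBasis k x) {x' : Fin (dimension k B) → B}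
    (hx' : IsTranscendenceBasis k x') : IsTranscendenceBasis k (pX hdim x x') :=
  (tb_sum hcomp hdim hx hx').comp_equiv _

/-- the product of two smooth complete varieties -/
noncomputable def prodModel (M : SmoothModel k Y) (W : SmoothModel k B) (hcomp : Twr.IsCompositum k B Y Z)
    (hdim : dimension k B + dimension k Y = dimension k Z) : SmoothModel k Z where
  I := M.I × W.I
  finite := by
    haveI := M.finite
    haveI := W.finite
    infer_instance
  A := fun i => pA Z (M.A i.1) (W.A i.2)
  x := fun i => pX hdim (M.x i.1) (W.x i.2)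
  fg := fun i => pA_fg (M.fg i.1) (W.fg i.2)
  frac := fun i f => pA_frac (M.frac i.1) (W.frac i.2) hcomp f
  tb := fun i => tb_pX hcomp hdim (M.tb i.1) (W.tb i.2)
  mem := fun i a => by
    rw [pX, Function.comp_apply]
    rcases (finSumFinEquiv.trans (finCongr (by omega : dimension k Y + dimension k B =
      dimension k Z))).symm a with b | b
    · exact left_mem (M.mem i.1 b)
    · exact right_mem (W.mem i.2 b)
  der := fun i D hD f hf => by
    have hl : ∀ b, D (algebraMap Y Z (M.x i.1 b)) ∈ pA Z (M.A i.1) (W.A i.2) := fun b => by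
      have h := hD ((finSumFinEquiv.trans (finCongr (by omega : dimension k Y + dimension k B =
        dimension k Z))) (Sum.inl b))
      rwa [pX, Function.comp_apply, Equiv.symm_apply_apply, Sum.elim_inl] at h
    have hr : ∀ b, D (algebraMap B Z (W.x i.2 b)) ∈ pA Z (M.A i.1) (W.A i.2) := fun b => by
      have h := hD ((finSumFinEquiv.trans (finCongr (by omega : dimension k Y + dimension k B =
        dimension k Z))) (Sum.inr b))
      rwa [pX, Function.comp_apply, Equiv.symm_apply_apply, Sum.elim_inr] at h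
    induction hf using Algebra.adjoin_induction with
    | mem z hz =>
      rcases hz with ⟨y, hy, rfl⟩ | ⟨y, hy, rfl⟩
      · rw [der_sum (M.tb i.1) D y]
        exact Subalgebra.sum_mem _ fun a _ => Subalgebra.mul_mem _
          (left_mem (M.pd_mem i.1 a y hy)) (hl a)
      · rw [der_sum (W.tb i.2) D y]
        exact Subalgebra.sum_mem _ fun a _ => Subalgebra.mul_mem _
          (right_mem (W.pd_mem i.2 a y hy)) (hr a)
    | algebraMap r =>
      rw [Derivation.map_algebraMap]
      exact Subalgebra.zero_mem _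
    | add y y' _ _ hy hy' =>
      rw [map_add]
      exact Subalgebra.add_mem _ hy hy'
    | mul y y' hym hym' hy hy' =>
      rw [Derivation.leibniz, smul_eq_mul, smul_eq_mul]
      exact Subalgebra.add_mem _ (Subalgebra.mul_mem _ hym hy') (Subalgebra.mul_mem _ hym' hy)
  cover := fun v hv => by
    obtain ⟨i, hi⟩ := M.cover (v.comap (algebraMap Y Z)) (fun c hc => by
      rw [Valuation.comap_apply, ← IsScalarTower.algebraMap_apply]
      exact hv c hc)
    obtain ⟨j, hj⟩ := W.cover (v.comap (algebraMap B Z)) (fun c hc => by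
      rw [Valuation.comap_apply, ← IsScalarTower.algebraMap_apply]
      exact hv c hc)
    exact ⟨(i, j), fun f hf => pA_val hv hi hj f hf⟩

/-- the box product of two line bundles -/
noncomputable def prodBundle {M : SmoothModel k Y} {W : SmoothModel k B} (S : LineBundle M) (T : LineBundle W)
    (hcomp : Twr.IsCompositum k B Y Z)
    (hdim : dimension k B + dimension k Y = dimension k Z) :
    LineBundle (prodModel M W hcomp hdim) where
  gen := fun i => algebraMap Y Z (S.gen i.1) * algebraMap B Z (T.gen i.2)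
  ne := fun i => mul_ne_zero (by rw [Ne, map_eq_zero]; exact S.ne i.1)
    (by rw [Ne, map_eq_zero]; exact T.ne i.2)
  compat := fun i j v hi hj => by
    rw [map_mul, map_mul]
    have h1 := S.compat i.1 j.1 (v.comap (algebraMap Y Z)) (fun f hf => hi _ (left_mem hf))
      (fun f hf => hj _ (left_mem hf))
    have h2 := T.compat i.2 j.2 (v.comap (algebraMap B Z)) (fun f hf => hi _ (right_mem hf))
      (fun f hf => hj _ (right_mem hf))
    rw [Valuation.comap_apply, Valuation.comap_apply] at h1 h2
    rw [h1, h2]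

end model

end Pf72953.PF
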