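import Mathlib
import Pool.Agent.Lib.Pf72953k.Prod
import Pool.Agent.Lib.Pf72953b.Defs

/-!
Branch divisors on a product of two smooth complete varieties: definitions.
-/

set_option autoImplicit false
set_option linter.style.haveILetI false

open scoped WithZero
open Pf72953 Pf72953.Mov Pf72953.Br

namespace Pf72953.PF

/-- An effective divisor `div (∑ s_l t_l)` on `M × W`, the divisor of a section of the line bundle `S ⊠ T`. -/
structure BiDivisor {k B Y : Type*} [Field k] [Field B] [Field Y] [Algebra k B] [Algebra k Y]
    (M : SmoothModel k Y) (W : SmoothModel k B) where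
  /-- the line bundle on `M` -/
  S : LineBundle M
  /-- the line bundle on `W` -/
  T : LineBundle W
  /-- the number of summands, minus one -/
  r : ℕ
  /-- the sections of `S` -/
  s : Fin (r + 1) → Y
  /-- the sections of `T` -/
  t : Fin (r + 1) → B
  s_mem : ∀ l, s l ∈ S.sections
  t_mem : ∀ l, t l ∈ T.sections
  s_indep : LinearIndependent k s
  t_indep : LinearIndependent k t

namespace BiDivisor

variable {k B Y : Type*} [Field k] [Field B] [Field Y] [Algebra k B] [Algebra k Y]
  {M : SmoothModel k Y} {W : SmoothModel k B}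

/-- the section `∑ s_l t_l` -/
def sec (D : BiDivisor M W) (Q : Type*) [Field Q] [Algebra B Q] [Algebra Y Q] : Q :=
  ∑ l, algebraMap B Q (D.t l) * algebraMap Y Q (D.s l)

/-- the generator of `S ⊠ T` on the chart `(i, j)` -/
def gen (D : BiDivisor M W) (Q : Type*) [Field Q] [Algebra B Q] [Algebra Y Q] (i : M.I × W.I) :
    Q :=
  algebraMap Y Q (D.S.gen i.1) * algebraMap B Q (D.T.gen i.2)

end BiDivisor

/-- Every prime divisor of `M × W` over which `Q` is ramified is the support of the divisor of a section
`∑ s_l t_l` of a line bundle `S ⊠ T`.  (This is automatic if `q(M) = 0` or `q(W) = 0`, since all line bundles on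
`M × W` are of this form.)  Precisely: for every divisorial valuation `w` of `Q/k` over a prime divisor of the chart
`i` of `M × W` (`Br.PrimeAt`) at which `Q/Z` is ramified, there is such a section which vanishes at `w`, and every
divisorial valuation `w'` over a prime divisor of `M × W` at which it vanishes has the same restriction to `Z` as `w`. -/
def BiMoves {k B Y : Type*} [Field k] [CharZero k] [Field B] [Field Y] [Algebra k B] [Algebra k Y]
    (M : SmoothModel k Y) (W : SmoothModel k B) (Z Q : Type*) [Field Z] [Field Q] [Algebra k Z]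
    [Algebra k Q] [Algebra B Z] [Algebra B Q] [Algebra Y Z] [Algebra Y Q] [Algebra Z Q]
    [IsScalarTower k B Z] [IsScalarTower k Y Z] [Algebra.EssFiniteType k B]
    [Algebra.EssFiniteType k Z] (hcomp : Twr.IsCompositum k B Y Z)
    (hdim : dimension k B + dimension k Y = dimension k Z) : Prop :=
  ∀ (i : M.I × W.I) (w : Valuation Q ℤᵐ⁰), Bad k (prodModel M W hcomp hdim) k Z i w →
    ∃ D : BiDivisor M W, w (D.sec Q) < w (D.gen Q i) ∧
      ∀ (w' : Valuation Q ℤᵐ⁰) (i' : M.I × W.I), IsDivisorial k Q w' →
        PrimeAt (prodModel M W hcomp hdim) k Z i' w' → w' (D.sec Q) < w' (D.gen Q i') →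
        ∀ z : Z, w' (algebraMap Z Q z) ≤ 1 ↔ w (algebraMap Z Q z) ≤ 1

end Pf72953.PF
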