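import Mathlib
import Pool.Agent.Lib.Pf72953k.Prod
import Pool.Agent.Lib.Pf72953t.Main
import Pool.Agent.Lib.Pf72953b.PosKod

/-!
The Kodaira dimension of a log pair which is a product.
-/

set_option autoImplicit false
set_option linter.style.haveILetI false

open scoped WithZero
open Pf72953 Pf72953.Mov Pf72953.Up

namespace Pf72953.PF

variable {k B Y Z J : Type*} [Field k] [CharZero k] [Field B] [Field Y] [Field Z] [Algebra k B]
  [Algebra k Y] [Algebra k Z] [Algebra B Z] [Algebra Y Z] [IsScalarTower k B Z]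
  [IsScalarTower k Y Z] [Algebra.EssFiniteType k B] [Algebra.EssFiniteType k Y]
  [Algebra.EssFiniteType k Z] [Fintype J]

theorem jac_pX (hcomp : Twr.IsCompositum k B Y Z)
    (hdim : dimension k B + dimension k Y = dimension k Z) {x y : Fin (dimension k Y) → Y}
    (hx : IsTranscendenceBasis k x) {x' y' : Fin (dimension k B) → B}
    (hx' : IsTranscendenceBasis k x') :
    jac (tb_pX hcomp hdim hx hx') (pX hdim y y') =
      algebraMap Y Z (jac hx y) * algebraMap B Z (jac hx' y') := by
  have h1 := tb_sum hcomp hdim hx hx'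
  have h2 := jac_sum (L := Z) hx hx' h1 y y'
  rw [← h2]
  exact jac_reindex (finSumFinEquiv.trans (finCongr (by omega : dimension k Y + dimension k B =
      dimension k Z))).symm h1 (tb_pX hcomp hdim hx hx') _

theorem coefSec_prod {M : SmoothModel k Y} {W : SmoothModel k B} {S : J → LineBundle M}
    {T : J → LineBundle W} (hcomp : Twr.IsCompositum k B Y Z)
    (hdim : dimension k B + dimension k Y = dimension k Z)
    {y : Fin (dimension k Y) → Y} {y' : Fin (dimension k B) → B} {m : ℕ} {q : J → ℕ} {g : Y}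
    {h : B} (hg : g ∈ CoefSec M S y m q) (hh : h ∈ CoefSec W T y' m q) :
    algebraMap Y Z g * algebraMap B Z h ∈ CoefSec (prodModel M W hcomp hdim)
      (fun j => prodBundle (S j) (T j) hcomp hdim) (pX hdim y y') m q := by
  rintro ⟨i, j⟩
  obtain ⟨f, hf, hf'⟩ := hg i
  obtain ⟨f', hf'', hf3⟩ := hh j
  refine ⟨algebraMap Y Z f * algebraMap B Z f', Subalgebra.mul_mem _ (left_mem hf)
    (right_mem hf''), ?_⟩
  have h1 : jac ((prodModel M W hcomp hdim).tb (i, j)) (pX hdim y y') =
      algebraMap Y Z (jac (M.tb i) y) * algebraMap B Z (jac (W.tb j) y') :=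
    jac_pX hcomp hdim (M.tb i) (W.tb j)
  rw [h1]
  have h2 : ∏ j_1, (prodBundle (S j_1) (T j_1) hcomp hdim).gen (i, j) ^ q j_1 =
      algebraMap Y Z (∏ l, (S l).gen i ^ q l) * algebraMap B Z (∏ l, (T l).gen j ^ q l) := by
    rw [map_prod, map_prod, ← Finset.prod_mul_distrib]
    refine Finset.prod_congr rfl fun l _ => ?_
    rw [map_pow, map_pow, ← mul_pow]
    rfl
  rw [h2]
  calc algebraMap Y Z g * algebraMap B Z h *
        (algebraMap Y Z (jac (M.tb i) y) * algebraMap B Z (jac (W.tb j) y')) ^ m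
      = algebraMap Y Z (g * jac (M.tb i) y ^ m) * algebraMap B Z (h * jac (W.tb j) y' ^ m) := by
        rw [map_mul, map_mul, map_pow, map_pow, mul_pow]
        ring
    _ = _ := by
        rw [hf', hf3, map_mul, map_mul]
        ring

theorem logKodairaGE_prod {M : SmoothModel k Y} {W : SmoothModel k B} {S : J → LineBundle M}
    {T : J → LineBundle W} (hcomp : Twr.IsCompositum k B Y Z)
    (hdim : dimension k B + dimension k Y = dimension k Z) {a b : ℕ}
    (ha : LogKodairaGE M S a) (hb : LogKodairaGE W T b) :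
    LogKodairaGE (prodModel M W hcomp hdim) (fun j => prodBundle (S j) (T j) hcomp hdim)
      (b + a) := by
  classical
  obtain ⟨y, hy⟩ := exists_tb k Y
  obtain ⟨y', hy'⟩ := exists_tb k B
  obtain ⟨m, hm, ω, hω, hω0, f, hf, hff⟩ := ha
  obtain ⟨m', hm', ω', hω', hω0', f', hf', hff'⟩ := hb
  obtain ⟨p, rfl⟩ : ∃ p, m = p + 1 := ⟨m - 1, by omega⟩
  obtain ⟨p', rfl⟩ : ∃ p, m' = p + 1 := ⟨m' - 1, by omega⟩
  have hX := tb_pX hcomp hdim hy hy'
  have hg0 : coef hy (p + 1) ω ≠ 0 := fun h0 => hω0 (by
    rw [eq_coef_smul hy (p + 1) ω, h0, zero_smul])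
  have hg0' : coef hy' (p' + 1) ω' ≠ 0 := fun h0 => hω0' (by
    rw [eq_coef_smul hy' (p' + 1) ω', h0, zero_smul])
  rw [mem_pluriSections_iff hy] at hω
  rw [mem_pluriSections_iff hy'] at hω'
  set g := coef hy (p + 1) ω with hg
  set g' := coef hy' (p' + 1) ω' with hg'
  set n := (p' + 1) * (p + 1) with hn
  have hn' : (p + 1) * (p' + 1) = n := mul_comm _ _
  -- powers
  have h1 : ∀ u : Y, u * g ∈ CoefSec M S y (p + 1) (fun _ => p + 1) →
      u * g ^ (p' + 1) ∈ CoefSec M S y n (fun _ => n) := by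
    intro u hu
    have h2 := CoefSec.mul hu (CoefSec.pow hω p')
    have h3 : (fun j : J => p + 1 + p' * (p + 1)) = fun _ => n := by
      funext j; rw [hn]; ring
    have h4 : p + 1 + p' * (p + 1) = n := by rw [hn]; ring
    rw [h3, h4] at h2
    have h5 : u * g * g ^ p' = u * g ^ (p' + 1) := by ring
    rwa [h5] at h2
  have h1' : ∀ u : B, u * g' ∈ CoefSec W T y' (p' + 1) (fun _ => p' + 1) →
      u * g' ^ (p + 1) ∈ CoefSec W T y' n (fun _ => n) := by
    intro u hu
    have h2 := CoefSec.mul hu (CoefSec.pow hω' p)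
    have h3 : (fun j : J => p' + 1 + p * (p' + 1)) = fun _ => n := by
      funext j; rw [hn]; ring
    have h4 : p' + 1 + p * (p' + 1) = n := by rw [hn]; ring
    rw [h3, h4] at h2
    have h5 : u * g' * g' ^ p = u * g' ^ (p + 1) := by ring
    rwa [h5] at h2
  have hG := h1 1 (by rwa [one_mul])
  have hG' := h1' 1 (by rwa [one_mul])
  rw [one_mul] at hG hG'
  set v : Z := algebraMap Y Z (g ^ (p' + 1)) * algebraMap B Z (g' ^ (p + 1)) with hv
  have hv0 : v ≠ 0 := mul_ne_zero (by simpa using hg0) (by simpa using hg0')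
  have hvm : v ∈ CoefSec (prodModel M W hcomp hdim) (fun j => prodBundle (S j) (T j) hcomp hdim)
      (pX hdim y y') n (fun _ => n) := coefSec_prod hcomp hdim hG hG'
  set θ : Fin (b + a) → Z := (Sum.elim (fun i => algebraMap B Z (f' i))
    (fun i => algebraMap Y Z (f i))) ∘ finSumFinEquiv.symm with hθ
  have hθind : AlgebraicIndependent k θ :=
    (sumElim_indep hdim (alg_of_compositum hcomp) hf' hf).comp _ finSumFinEquiv.symm.injective
  refine ⟨n, Nat.mul_pos (by omega) (by omega), v • pureForm k (fun _ => pX hdim y y'), ?_, ?_,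
    θ, hθind, fun i => ?_⟩
  · rw [mem_pluriSections_iff hX, map_smul, coef_self, smul_eq_mul, mul_one]
    exact hvm
  · intro h0
    have := congrArg (coef hX _) h0
    rw [map_smul, coef_self, smul_eq_mul, mul_one, map_zero] at this
    exact hv0 this
  · rw [mem_pluriSections_iff hX, map_smul, map_smul, coef_self, smul_eq_mul, smul_eq_mul,
      mul_one, hθ]
    simp only [Function.comp_apply]
    rcases finSumFinEquiv.symm i with i | i
    · have h2 := hff' i
      rw [mem_pluriSections_iff hy', map_smul, smul_eq_mul] at h2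
      have h3 := coefSec_prod (Z := Z) hcomp hdim hG (h1' _ h2)
      have h4 : algebraMap Y Z (g ^ (p' + 1)) * algebraMap B Z (f' i * g' ^ (p + 1)) =
          algebraMap B Z (f' i) * v := by
        rw [hv, map_mul (algebraMap B Z)]; ring
      rw [h4] at h3
      exact h3
    · have h2 := hff i
      rw [mem_pluriSections_iff hy, map_smul, smul_eq_mul] at h2
      have h3 := coefSec_prod (Z := Z) hcomp hdim (h1 _ h2) hG'
      have h4 : algebraMap Y Z (f i * g ^ (p' + 1)) * algebraMap B Z (g' ^ (p + 1)) =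
          algebraMap Y Z (f i) * v := by
        rw [hv, map_mul (algebraMap Y Z)]; ring
      rw [h4] at h3
      exact h3

/-- the Künneth formula (lower bound) -/
theorem logKodairaDim_prod {M : SmoothModel k Y} {W : SmoothModel k B} (S : J → LineBundle M)
    (T : J → LineBundle W) (hcomp : Twr.IsCompositum k B Y Z)
    (hdim : dimension k B + dimension k Y = dimension k Z) :
    logKodairaDim W T + logKodairaDim M S ≤ logKodairaDim (prodModel M W hcomp hdim)
      (fun j => prodBundle (S j) (T j) hcomp hdim) := by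
  rcases Twr.logKodairaDim_eq (M := M) S with hF | ⟨a, ha, ha'⟩
  · rw [hF]; simp
  rcases Twr.logKodairaDim_eq (M := W) T with hF | ⟨b, hb, hb'⟩
  · rw [hF]; simp
  rw [ha', hb']
  refine le_trans (le_of_eq ?_) (le_iSup₂_of_le (b + a) (logKodairaGE_prod hcomp hdim ha hb) le_rfl)
  push_cast
  rfl

/-- forms of nonnegative Kodaira dimension on the product -/
theorem pos_prod {M : SmoothModel k Y} {W : SmoothModel k B} (S : J → LineBundle M)
    (T : J → LineBundle W) (hcomp : Twr.IsCompositum k B Y Z)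
    (hdim : dimension k B + dimension k Y = dimension k Z) (hY : KodairaGE k Y 0)
    (hB : KodairaGE k B 0) :
    ∃ m : ℕ, 1 ≤ m ∧ ∃ ω ∈ pluriSections (prodModel M W hcomp hdim)
      (fun j => prodBundle (S j) (T j) hcomp hdim) m (fun _ => 0), ω ≠ 0 := by
  obtain ⟨y, hy⟩ := exists_tb k Y
  obtain ⟨y', hy'⟩ := exists_tb k B
  obtain ⟨m, hm, ω, hω, hω0⟩ := Br.pos_of_kodaira M S hY
  obtain ⟨m', hm', ω', hω', hω0'⟩ := Br.pos_of_kodaira W T hB
  have hX := tb_pX hcomp hdim hy hy'
  have hg0 : coef hy m ω ≠ 0 := fun h0 => hω0 (by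
    rw [eq_coef_smul hy m ω, h0, zero_smul])
  have hg0' : coef hy' m' ω' ≠ 0 := fun h0 => hω0' (by
    rw [eq_coef_smul hy' m' ω', h0, zero_smul])
  rw [mem_pluriSections_iff hy] at hω
  rw [mem_pluriSections_iff hy'] at hω'
  set g := coef hy m ω with hg
  set g' := coef hy' m' ω' with hg'
  have h1 := CoefSec.pow hω m'
  have h1' := CoefSec.pow hω' m
  rw [mul_comm m m'] at h1'
  simp only [mul_zero] at h1 h1'
  have h2 := coefSec_prod (Z := Z) hcomp hdim h1 h1'
  refine ⟨m' * m, Nat.mul_pos (by omega) (by omega),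
    (algebraMap Y Z (g ^ m') * algebraMap B Z (g' ^ m)) • pureForm k (fun _ => pX hdim y y'), ?_, ?_⟩
  · rw [mem_pluriSections_iff hX, map_smul, coef_self, smul_eq_mul, mul_one]
    exact h2
  · intro h0
    have := congrArg (coef hX _) h0
    rw [map_smul, coef_self, smul_eq_mul, mul_one, map_zero] at this
    exact mul_ne_zero (by simpa using fun h => absurd h hg0) (by simpa using fun h => absurd h hg0') this

end Pf72953.PF
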