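import Mathlib
import Pool.Agent.Lib.Pf72953b.CenterMin

/-!
The valuation ring of a prime divisor of a smooth chart is a localisation of the chart.
-/

set_option autoImplicit false
set_option linter.style.haveILetI false

open scoped WithZero
open Pf72953 Pf72953.Up Pf72953.Br

namespace Pf72953.PF

section

variable {B Z ι : Type*} [Field B] [CharZero B] [Field Z] [Algebra B Z] [Fintype ι]
  {x : ι → Z} {hx : IsTranscendenceBasis B x} {A : Subalgebra B Z}

theorem loc [Algebra.EssFiniteType B Z] (h : Chart hx A) {v : Valuation Z ℤᵐ⁰}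
    (hv : IsDivisorial B Z v) (hr : RegBasis B v x) (hA : ∀ a ∈ A, v a ≤ 1) {z : Z}
    (hz : v z ≤ 1) : ∃ a ∈ A, ∃ b ∈ A, v b = 1 ∧ z = a / b := by
  classical
  haveI := h.isNoetherian
  have hprime : (center A v hA).IsPrime := by
    refine ⟨?_, ?_⟩
    · intro htop
      have h1 : (1 : A) ∈ center A v hA := by rw [htop]; trivial
      rw [mem_center, OneMemClass.coe_one, map_one] at h1
      exact lt_irrefl _ h1
    · intro a b hab
      rw [mem_center, MulMemClass.coe_mul, map_mul] at hab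
      rw [mem_center, mem_center]
      by_contra hcon
      push Not at hcon
      have h1 := le_antisymm (hA _ a.2) hcon.1
      have h2 := le_antisymm (hA _ b.2) hcon.2
      rw [h1, h2, one_mul] at hab
      exact lt_irrefl _ hab
  set P : Ideal A := center A v hA with hP
  have hPn : ∀ a : A, a ∉ P ↔ v (a : Z) = 1 := by
    intro a
    rw [hP, mem_center, not_lt]
    exact ⟨fun h1 => le_antisymm (hA _ a.2) h1, fun h1 => h1.ge⟩
  have hfr : IsFractionRing A Z := by
    refine IsFractionRing.of_field A Z fun z => ?_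
    obtain ⟨a, ha, h', hh, -, e⟩ := h.frac z
    exact ⟨⟨a, ha⟩, ⟨h', hh⟩, e⟩
  have hS : P.primeCompl ≤ nonZeroDivisors A := by
    intro s hs
    rw [mem_nonZeroDivisors_iff_ne_zero]
    rintro rfl
    exact hs P.zero_mem
  set R := Localization.subalgebra.ofField Z P.primeCompl hS with hR
  have : IsLocalization.AtPrime R P := Localization.subalgebra.isLocalization_ofField Z _ hS
  have : IsNoetherianRing R := IsLocalization.isNoetherianRing P.primeCompl R inferInstance
  have hRmem : ∀ z : Z, z ∈ R ↔ ∃ a s : A, s ∉ P ∧ z = a / s := by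
    intro z
    constructor
    · rintro ⟨a, s, hs, e⟩
      exact ⟨a, s, hs, by rw [e, div_eq_mul_inv]; rfl⟩
    · rintro ⟨a, s, hs, e⟩
      exact ⟨a, s, hs, by rw [e, div_eq_mul_inv]; rfl⟩
  have hAR : ∀ a : A, (a : Z) ∈ R := fun a => (hRmem _).2 ⟨a, 1, fun h => hprime.ne_top
    ((Ideal.eq_top_iff_one P).2 h), by simp⟩
  have hne0 : ∀ s : A, s ∉ P → (s : Z) ≠ 0 := by
    intro s hs h
    apply hs
    have : s = 0 := Subtype.ext h
    rw [this]
    exact P.zero_mem
  -- the subalgebra over `B`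
  let R' : Subalgebra B Z := R.restrictScalars B
  have hR'mem : ∀ z : Z, z ∈ R' ↔ ∃ a s : A, s ∉ P ∧ z = a / s := hRmem
  haveI : IsNoetherianRing R' := (inferInstance : IsNoetherianRing R)
  have hnorm : ∀ z : Z, IsIntegral R' z → z ∈ R' := by
    intro z hz
    have hz' : IsIntegral R z := hz
    obtain ⟨⟨s, hs⟩, hm⟩ := IsIntegral.exists_multiple_integral_of_isLocalization
      P.primeCompl (Rₘ := R) z hz'
    have h1 : (s : Z) * z ∈ A := h.mem_of_isIntegral hm
    exact (hR'mem _).2 ⟨⟨_, h1⟩, s, hs, by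
      show z = (s : Z) * z / (s : Z)
      rw [mul_div_cancel_left₀ _ (hne0 s hs)]⟩
  have hfrac' : ∀ f : Z, ∃ g ∈ R', ∃ h ∈ R', h ≠ 0 ∧ f = g / h := by
    intro f
    obtain ⟨g, hg, h', hh, hne, e⟩ := h.frac f
    exact ⟨g, hAR ⟨g, hg⟩, h', hAR ⟨h', hh⟩, hne, e⟩
  suffices hzR : z ∈ R' by
    obtain ⟨a, s, hs, e⟩ := (hR'mem z).1 hzR
    exact ⟨a, a.2, s, s.2, (hPn s).1 hs, e⟩
  by_contra hzR
  obtain ⟨v', hA', hvz, hloc⟩ := exists_dvr R' hfrac' hnorm hzR
  have hvA' : ∀ a : A, v' (a : Z) ≤ 1 := fun a => hA' _ (hAR a)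
  -- units
  have hunit : ∀ s : A, s ∉ P → v' (s : Z) = 1 := by
    intro s hs
    have h1 := hvA' s
    have h2 : v' (s : Z)⁻¹ ≤ 1 := hA' _ ((hR'mem _).2 ⟨1, s, hs, by simp⟩)
    refine le_antisymm h1 ?_
    have h3 : v' (s : Z) * v' (s : Z)⁻¹ = 1 := by
      rw [← map_mul, mul_inv_cancel₀ (hne0 s hs), map_one]
    calc (1 : ℤᵐ⁰) = v' (s : Z) * v' (s : Z)⁻¹ := h3.symm
      _ ≤ v' (s : Z) * 1 := mul_le_mul_right h2 _
      _ = v' (s : Z) := mul_one _
  have hsub : ∀ s : A, v' (s : Z) < 1 → v (s : Z) < 1 := by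
    intro s hs
    by_contra hcon
    have h1 : s ∉ P := by
      rw [hP, mem_center]
      exact hcon
    rw [hunit s h1] at hs
    exact lt_irrefl _ hs
  -- the centre of `v'` is not zero
  obtain ⟨f, hf0, hf⟩ : ∃ f : A, f ≠ 0 ∧ v' (f : Z) < 1 := by
    by_contra hcon
    push Not at hcon
    have h1 : ∀ a : A, a ≠ 0 → v' (a : Z) = 1 := fun a ha => le_antisymm (hvA' a) (hcon a ha)
    obtain ⟨a, ha, b, hb, hb0, e⟩ := h.frac z
    have h2 : v' z ≤ 1 := by
      rw [e, map_div₀, h1 ⟨b, hb⟩ (fun h => hb0 (congrArg Subtype.val h)), div_one]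
      exact hvA' ⟨a, ha⟩
    exact absurd hvz (not_lt.2 h2)
  have hmin := center_minimal h hv hr hA hf0 (hsub f hf)
  -- the centre of `v'`
  have hprime' : (center A v' (fun a ha => hvA' ⟨a, ha⟩)).IsPrime := by
    refine ⟨?_, ?_⟩
    · intro htop
      have h1 : (1 : A) ∈ center A v' (fun a ha => hvA' ⟨a, ha⟩) := by rw [htop]; trivial
      rw [mem_center, OneMemClass.coe_one, map_one] at h1
      exact lt_irrefl _ h1
    · intro a b hab
      rw [mem_center, MulMemClass.coe_mul, map_mul] at hab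
      rw [mem_center, mem_center]
      by_contra hcon
      push Not at hcon
      have h1 := le_antisymm (hvA' a) hcon.1
      have h2 := le_antisymm (hvA' b) hcon.2
      rw [h1, h2, one_mul] at hab
      exact lt_irrefl _ hab
  have hle : P ≤ center A v' (fun a ha => hvA' ⟨a, ha⟩) := by
    refine hmin.2 ⟨hprime', ?_⟩ ?_
    · rw [Ideal.span_le, Set.singleton_subset_iff]
      exact hf
    · intro s hs
      rw [mem_center] at hs
      exact hsub s hs
  -- conclusion
  have hz0 : z ≠ 0 := by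
    rintro rfl
    simp at hvz
  have hzi : v' z⁻¹ < 1 := by
    rw [map_inv₀]
    exact inv_lt_one_of_one_lt₀ hvz
  obtain ⟨a, ha, b, hb, hb1, e⟩ := hloc z⁻¹ hzi.le
  have ha1 : v' a < 1 := by
    rw [e, map_div₀, hb1, div_one] at hzi
    exact hzi
  -- `a = s / t`, `b = s' / t'`
  obtain ⟨s, t, ht, rfl⟩ := (hR'mem a).1 ha
  obtain ⟨s', t', ht', rfl⟩ := (hR'mem b).1 hb
  have hs1 : v' (s : Z) < 1 := by
    rw [map_div₀, hunit t ht, div_one] at ha1
    exact ha1
  have hs1' : v' (s' : Z) = 1 := by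
    rw [map_div₀, hunit t' ht', div_one] at hb1
    exact hb1
  have hvs : v (s : Z) < 1 := hsub s hs1
  have hvs' : v (s' : Z) = 1 := by
    rw [← hPn]
    intro hcon
    have := hle hcon
    rw [mem_center, hs1'] at this
    exact lt_irrefl _ this
  have hvz' : v z⁻¹ < 1 := by
    rw [e, map_div₀, map_div₀, map_div₀, (hPn t).1 ht, (hPn t').1 ht', hvs', div_one, div_one,
      div_one]
    exact hvs
  rw [map_inv₀] at hvz'
  have h4 : v z ≠ 0 := (Valuation.ne_zero_iff v).mpr hz0
  have h5 := (inv_lt_one₀ (zero_lt_iff.mpr h4)).1 hvz'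
  exact absurd hz (not_le.2 h5)

end

/-- a derivation over any field which is bounded on a chart is bounded on the valuation ring of a prime divisor -/
theorem der_of_chart {k B Z ι : Type*} [Field k] [Field B] [CharZero B] [Field Z] [Algebra k Z]
    [Algebra B Z] [Fintype ι]
    {x : ι → Z} {hx : IsTranscendenceBasis B x} {A : Subalgebra B Z}
    [Algebra.EssFiniteType B Z] (h : Chart hx A) {v : Valuation Z ℤᵐ⁰}
    (hv : IsDivisorial B Z v) (hr : RegBasis B v x) (hA : ∀ a ∈ A, v a ≤ 1)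
    (D : Derivation k Z Z) (hD : ∀ a ∈ A, v (D a) ≤ 1) {z : Z} (hz : v z ≤ 1) :
    v (D z) ≤ 1 := by
  obtain ⟨a, ha, b, hb, hb1, rfl⟩ := loc h hv hr hA hz
  have hb0 : b ≠ 0 := by
    rintro rfl
    simp at hb1
  have h1 : D (a / b) = (D a - (a / b) * D b) / b := by
    have h2 : D a = (a / b) * D b + b * D (a / b) := by
      conv_lhs => rw [← div_mul_cancel₀ a hb0]
      rw [Derivation.leibniz, smul_eq_mul, smul_eq_mul]
    rw [h2]
    field_simp
    ring
  rw [h1, map_div₀, hb1, div_one]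
  refine (v.map_sub _ _).trans (max_le (hD a ha) ?_)
  rw [map_mul]
  exact mul_le_one' hz (hD b hb)

end Pf72953.PF
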