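import Mathlib
import Pool.Agent.Lib.Pf72953k.Loc
import Pool.Agent.Lib.Pf72953k.Kun
import Pool.Agent.Lib.Pf72953b.FinBad

/-!
A branch divisor of `Q` over the generic fibre of one of the two projections of `M × W` is a branch divisor over `M × W`.
-/

set_option autoImplicit false
set_option linter.style.haveILetI false

open scoped WithZero
open Pf72953 Pf72953.Mov Pf72953.Up Pf72953.Br

namespace Pf72953.PF

variable {k B Y Z Q : Type*} [Field k] [CharZero k] [Field B] [Field Y] [Field Z] [Field Q]
  [Algebra k B] [Algebra k Y] [Algebra k Z] [Algebra k Q] [Algebra B Z] [Algebra B Q]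
  [Algebra Y Z] [Algebra Y Q] [Algebra Z Q]
  [IsScalarTower k B Z] [IsScalarTower k B Q] [IsScalarTower k Y Z] [IsScalarTower k Y Q]
  [IsScalarTower k Z Q] [IsScalarTower B Z Q] [IsScalarTower Y Z Q]
  [Algebra.EssFiniteType k B] [Algebra.EssFiniteType k Z] [FiniteDimensional Z Q]

theorem gen_of_comp (hcomp : Twr.IsCompositum k B Y Z) :
    ∀ z : Z, z ∈ IntermediateField.adjoin B (Set.range (algebraMap Y Z)) := by
  intro z
  have h1 : IntermediateField.adjoin k (Set.range (algebraMap B Z) ∪ Set.range (algebraMap Y Z)) ≤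
      (IntermediateField.adjoin B (Set.range (algebraMap Y Z))).restrictScalars k := by
    rw [IntermediateField.adjoin_le_iff]
    rintro _ (⟨b, rfl⟩ | ⟨b, rfl⟩)
    · exact (IntermediateField.adjoin B (Set.range (algebraMap Y Z))).algebraMap_mem b
    · exact IntermediateField.subset_adjoin B _ ⟨b, rfl⟩
  exact h1 (hcomp z)

theorem IsCompositum.symm (hcomp : Twr.IsCompositum k B Y Z) : Twr.IsCompositum k Y B Z := by
  intro z
  rw [Set.union_comm]
  exact hcomp z

/-- vector fields over `k` at a branch divisor over `B` -/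
theorem bad_der (hcomp : Twr.IsCompositum k B Y Z)
    (hdim : dimension k B + dimension k Y = dimension k Z) {M : SmoothModel k Y} {i : M.I}
    {w : Valuation Q ℤᵐ⁰} (h : Bad k M B Z i w) {y : Fin (dimension k B) → B}
    (hy : IsTranscendenceBasis k y) (D : Derivation k Z Z)
    (h1 : ∀ a, w (algebraMap Z Q (D (algebraMap Y Z (M.x i a)))) ≤ 1)
    (h2 : ∀ a, w (algebraMap Z Q (D (algebraMap B Z (y a)))) ≤ 1) {z : Z}
    (hz : w (algebraMap Z Q z) ≤ 1) : w (algebraMap Z Q (D z)) ≤ 1 := by
  haveI : CharZero B := charZero_of_injective_algebraMap (algebraMap k B).injective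
  haveI : Algebra.EssFiniteType B Z := Algebra.EssFiniteType.of_comp k B Z
  have hx : IsTranscendenceBasis B (fun a => algebraMap Y Z (M.x i a)) :=
    tb_over hdim (alg_of_compositum hcomp) (M.tb i)
  have hch : Chart hx (bc B Z (M.A i)) :=
    (chart_of_model M i).baseChange hx (gen_of_comp hcomp)
  refine der_of_chart (v := w.comap (algebraMap Z Q)) hch (FinBadAux.div_over h)
    (h.prime.regBasis hx) (FinBadAux.le_bc h) D ?_ hz
  intro a ha
  have hle := FinBadAux.le_bc h
  have hkey : ∀ a ∈ bc B Z (M.A i), w (algebraMap Z Q a) ≤ 1 := hle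
  induction ha using Algebra.adjoin_induction with
  | mem z hz =>
    obtain ⟨f, hf, rfl⟩ := hz
    rw [der_sum (M.tb i) D f, Valuation.comap_apply, map_sum]
    refine Valuation.map_sum_le _ fun a _ => ?_
    rw [map_mul, map_mul]
    refine mul_le_one' ?_ (h1 a)
    rw [← IsScalarTower.algebraMap_apply Y Z Q]
    exact h.prime.center _ (M.pd_mem i a f hf)
  | algebraMap r =>
    rw [der_sum hy D r, Valuation.comap_apply, map_sum]
    refine Valuation.map_sum_le _ fun a _ => ?_
    rw [map_mul, map_mul]
    refine mul_le_one' ?_ (h2 a)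
    rw [← IsScalarTower.algebraMap_apply B Z Q]
    rcases eq_or_ne (pd hy a r) 0 with h0 | h0
    · rw [h0, map_zero, map_zero]
      exact zero_le_one
    · exact (h.triv _ h0).le
  | add u u' _ _ hu hu' =>
    rw [map_add]
    exact (Valuation.map_add _ _ _).trans (max_le hu hu')
  | mul u u' hum hum' hu hu' =>
    rw [Derivation.leibniz, smul_eq_mul, smul_eq_mul]
    refine (Valuation.map_add _ _ _).trans (max_le ?_ ?_)
    · rw [map_mul]
      exact mul_le_one' (hle _ hum) hu'
    · rw [map_mul]
      exact mul_le_one' (hle _ hum') hu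

theorem bad_le (M : SmoothModel k Y) (W : SmoothModel k B) {i : M.I} {j : W.I}
    {w : Valuation Q ℤᵐ⁰} (hk : ∀ c : k, c ≠ 0 → w (algebraMap k Q c) = 1)
    (h1 : ∀ f ∈ M.A i, w (algebraMap Y Q f) ≤ 1) (h2 : ∀ f ∈ W.A j, w (algebraMap B Q f) ≤ 1) :
    ∀ f ∈ pA Z (M.A i) (W.A j), w (algebraMap Z Q f) ≤ 1 := by
  refine pA_val (v := w.comap (algebraMap Z Q)) (fun c hc => ?_) (fun f hf => ?_) fun f hf => ?_
  · rw [Valuation.comap_apply, ← IsScalarTower.algebraMap_apply k Z Q]
    exact hk c hc
  · rw [Valuation.comap_apply, ← IsScalarTower.algebraMap_apply Y Z Q]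
    exact h1 f hf
  · rw [Valuation.comap_apply, ← IsScalarTower.algebraMap_apply B Z Q]
    exact h2 f hf

/-- a branch divisor over `B` is a branch divisor of the product -/
theorem bad_left (hcomp : Twr.IsCompositum k B Y Z)
    (hdim : dimension k B + dimension k Y = dimension k Z) {M : SmoothModel k Y}
    (W : SmoothModel k B) {i : M.I} (j : W.I) {w : Valuation Q ℤᵐ⁰} (h : Bad k M B Z i w) :
    Bad k (prodModel M W hcomp hdim) k Z (i, j) w := by
  have hk : ∀ c : k, c ≠ 0 → w (algebraMap k Q c) = 1 := fun c hc => by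
    rw [IsScalarTower.algebraMap_apply k B Q]
    exact h.triv _ (by simpa using hc)
  have hB : ∀ f : B, w (algebraMap B Q f) ≤ 1 := fun f => by
    rcases eq_or_ne f 0 with rfl | hf
    · simp
    · exact (h.triv f hf).le
  refine ⟨h.div, hk, ⟨bad_le M W hk h.prime.center (fun f _ => hB f), fun D hD z hz => ?_⟩, h.ram⟩
  refine bad_der hcomp hdim h (W.tb j) D (fun a => ?_) (fun a => ?_) hz
  · have h1 := hD ((finSumFinEquiv.trans (finCongr (by omega : dimension k Y + dimension k B =
        dimension k Z))) (Sum.inl a))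
    change w (algebraMap Z Q (D (pX hdim (M.x i) (W.x j) _))) ≤ 1 at h1
    rwa [pX, Function.comp_apply, Equiv.symm_apply_apply, Sum.elim_inl] at h1
  · have h1 := hD ((finSumFinEquiv.trans (finCongr (by omega : dimension k Y + dimension k B =
        dimension k Z))) (Sum.inr a))
    change w (algebraMap Z Q (D (pX hdim (M.x i) (W.x j) _))) ≤ 1 at h1
    rwa [pX, Function.comp_apply, Equiv.symm_apply_apply, Sum.elim_inr] at h1

/-- a branch divisor over `Y` is a branch divisor of the product -/
theorem bad_right [Algebra.EssFiniteType k Y] (hcomp : Twr.IsCompositum k B Y Z)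
    (hdim : dimension k B + dimension k Y = dimension k Z) (M : SmoothModel k Y)
    {W : SmoothModel k B} (i : M.I) {j : W.I} {w : Valuation Q ℤᵐ⁰} (h : Bad k W Y Z j w) :
    Bad k (prodModel M W hcomp hdim) k Z (i, j) w := by
  have hk : ∀ c : k, c ≠ 0 → w (algebraMap k Q c) = 1 := fun c hc => by
    rw [IsScalarTower.algebraMap_apply k Y Q]
    exact h.triv _ (by simpa using hc)
  have hY : ∀ f : Y, w (algebraMap Y Q f) ≤ 1 := fun f => by
    rcases eq_or_ne f 0 with rfl | hf
    · simp
    · exact (h.triv f hf).le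
  refine ⟨h.div, hk, ⟨bad_le M W hk (fun f _ => hY f) h.prime.center, fun D hD z hz => ?_⟩, h.ram⟩
  refine bad_der (IsCompositum.symm hcomp) (by omega) h (M.tb i) D (fun a => ?_) (fun a => ?_) hz
  · have h1 := hD ((finSumFinEquiv.trans (finCongr (by omega : dimension k Y + dimension k B =
        dimension k Z))) (Sum.inr a))
    change w (algebraMap Z Q (D (pX hdim (M.x i) (W.x j) _))) ≤ 1 at h1
    rwa [pX, Function.comp_apply, Equiv.symm_apply_apply, Sum.elim_inr] at h1
  · have h1 := hD ((finSumFinEquiv.trans (finCongr (by omega : dimension k Y + dimension k B =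
        dimension k Z))) (Sum.inl a))
    change w (algebraMap Z Q (D (pX hdim (M.x i) (W.x j) _))) ≤ 1 at h1
    rwa [pX, Function.comp_apply, Equiv.symm_apply_apply, Sum.elim_inl] at h1

end Pf72953.PF
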