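import Mathlib
import Pool.Agent.Lib.Pf72953k.Defs
import Pool.Agent.Lib.Pf72953k.Bad
import Pool.Agent.Lib.Pf72953b.Main

/-!
The branch divisors of a cover of a product as moving divisors over `B`, over `Y` and over `k`.
-/

set_option autoImplicit false
set_option linter.style.haveILetI false

open scoped WithZero
open Pf72953 Pf72953.Mov Pf72953.Up Pf72953.Br

namespace Pf72953.PF

namespace BiDivisor

variable {k B Y : Type*} [Field k] [Field B] [Field Y] [Algebra k B] [Algebra k Y]
  {M : SmoothModel k Y} {W : SmoothModel k B}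

/-- the divisor as a family of divisors on `M` parametrised by `W` -/
def toB (D : BiDivisor M W) (Q : Type*) [Field Q] [Algebra B Q] [Algebra Y Q] :
    MovingDivisor M B Q where
  S := D.S
  r := D.r
  s := D.s
  a := fun l => algebraMap B Q (D.t l)
  s_mem := D.s_mem
  s_indep := D.s_indep
  a_alg := fun l => isAlgebraic_algebraMap (D.t l)
  a_ne := ⟨0, by simpa using D.t_indep.ne_zero 0⟩

/-- the divisor as a family of divisors on `W` parametrised by `M` -/
def toY (D : BiDivisor M W) (Q : Type*) [Field Q] [Algebra B Q] [Algebra Y Q] :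
    MovingDivisor W Y Q where
  S := D.T
  r := D.r
  s := D.t
  a := fun l => algebraMap Y Q (D.s l)
  s_mem := D.t_mem
  s_indep := D.t_indep
  a_alg := fun l => isAlgebraic_algebraMap (D.s l)
  a_ne := ⟨0, by simpa using D.s_indep.ne_zero 0⟩

theorem toB_sec (D : BiDivisor M W) (Q : Type*) [Field Q] [Algebra B Q] [Algebra Y Q] :
    (D.toB Q).sec = D.sec Q := rfl

theorem toY_sec (D : BiDivisor M W) (Q : Type*) [Field Q] [Algebra B Q] [Algebra Y Q] :
    (D.toY Q).sec = D.sec Q := by
  change ∑ l, algebraMap Y Q (D.s l) * algebraMap B Q (D.t l) = _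
  exact Finset.sum_congr rfl fun l _ => mul_comm _ _

theorem map_sec (D : BiDivisor M W) {Z Q : Type*} [Field Z] [Field Q] [Algebra B Z] [Algebra Y Z]
    [Algebra B Q] [Algebra Y Q] [Algebra Z Q] [IsScalarTower B Z Q] [IsScalarTower Y Z Q] :
    algebraMap Z Q (D.sec Z) = D.sec Q := by
  rw [sec, sec, map_sum]
  refine Finset.sum_congr rfl fun l _ => ?_
  rw [map_mul, ← IsScalarTower.algebraMap_apply B Z Q, ← IsScalarTower.algebraMap_apply Y Z Q]

theorem map_gen (D : BiDivisor M W) {Z Q : Type*} [Field Z] [Field Q] [Algebra B Z] [Algebra Y Z]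
    [Algebra B Q] [Algebra Y Q] [Algebra Z Q] [IsScalarTower B Z Q] [IsScalarTower Y Z Q]
    (i : M.I × W.I) : algebraMap Z Q (D.gen Z i) = D.gen Q i := by
  rw [gen, gen, map_mul, ← IsScalarTower.algebraMap_apply B Z Q,
    ← IsScalarTower.algebraMap_apply Y Z Q]

end BiDivisor

variable {k B Y Z Q : Type*} [Field k] [CharZero k] [Field B] [Field Y] [Field Z] [Field Q]
  [Algebra k B] [Algebra k Y] [Algebra k Z] [Algebra k Q] [Algebra B Z] [Algebra B Q]
  [Algebra Y Z] [Algebra Y Q] [Algebra Z Q]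
  [IsScalarTower k B Z] [IsScalarTower k B Q] [IsScalarTower k Y Z] [IsScalarTower k Y Q]
  [IsScalarTower k Z Q] [IsScalarTower B Z Q] [IsScalarTower Y Z Q]
  [Algebra.EssFiniteType k B] [Algebra.EssFiniteType k Z]
  {M : SmoothModel k Y} {W : SmoothModel k B}

theorem BiDivisor.mem_sections (D : BiDivisor M W) (hcomp : Twr.IsCompositum k B Y Z)
    (hdim : dimension k B + dimension k Y = dimension k Z) :
    D.sec Z ∈ (prodBundle D.S D.T hcomp hdim).sections := by
  rintro ⟨i, j⟩
  choose f hf hf' using fun l => D.s_mem l i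
  choose g hg hg' using fun l => D.t_mem l j
  refine ⟨∑ l, algebraMap B Z (g l) * algebraMap Y Z (f l), Subalgebra.sum_mem _ fun l _ =>
    Subalgebra.mul_mem _ (right_mem (hg l)) (left_mem (hf l)), ?_⟩
  rw [BiDivisor.sec, Finset.sum_mul]
  refine Finset.sum_congr rfl fun l _ => ?_
  change _ = _ * (algebraMap Y Z (D.S.gen i) * algebraMap B Z (D.T.gen j))
  rw [hf' l, hg' l, map_mul, map_mul]
  ring

theorem BiDivisor.sec_ne [IsAlgClosed k] (D : BiDivisor M W) (hcomp : Twr.IsCompositum k B Y Z)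
    (hdim : dimension k B + dimension k Y = dimension k Z) : D.sec Z ≠ 0 := by
  classical
  haveI : CharZero B := charZero_of_injective_algebraMap (algebraMap k B).injective
  obtain ⟨i, -⟩ := M.cover 1 (fun c hc => Valuation.one_apply_of_ne_zero (by simpa using hc))
  have h := RamOnAux.sec_ne' (N := Z) (D.toB Z) i
    (tb_over hdim (alg_of_compositum hcomp) (M.tb i))
  rwa [BiDivisor.toB_sec] at h

/-- the divisor as a divisor on `M × W` -/
noncomputable def BiDivisor.toK (D : BiDivisor M W) (Q : Type*) [Field Q] [Algebra k Q]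
    [Algebra Z Q] (hcomp : Twr.IsCompositum k B Y Z)
    (hdim : dimension k B + dimension k Y = dimension k Z) (h : D.sec Z ≠ 0) :
    MovingDivisor (prodModel M W hcomp hdim) k Q where
  S := prodBundle D.S D.T hcomp hdim
  r := 0
  s := fun _ => D.sec Z
  a := fun _ => 1
  s_mem := fun _ => D.mem_sections hcomp hdim
  s_indep := by
    haveI : Subsingleton (Fin (0 + 1)) := inferInstanceAs (Subsingleton (Fin 1))
    exact LinearIndependent.of_subsingleton (0 : Fin 1) h
  a_alg := fun _ => isAlgebraic_one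
  a_ne := ⟨0, one_ne_zero⟩

theorem BiDivisor.toK_sec (D : BiDivisor M W) (hcomp : Twr.IsCompositum k B Y Z)
    (hdim : dimension k B + dimension k Y = dimension k Z) (h : D.sec Z ≠ 0) :
    (D.toK Q hcomp hdim h).sec = D.sec Q := by
  change ∑ _l : Fin (0 + 1), (1 : Q) * algebraMap Z Q (D.sec Z) = _
  rw [Finset.sum_const, Finset.card_univ, Fintype.card_fin, one_mul, zero_add, one_smul,
    BiDivisor.map_sec]

theorem exists_biCover [FiniteDimensional Z Q] [IsGalois Z Q]
    (hcomp : Twr.IsCompositum k B Y Z)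
    (hdim : dimension k B + dimension k Y = dimension k Z) (hmv : BiMoves M W Z Q hcomp hdim) :
    ∃ (n : ℕ) (D : Fin n → BiDivisor M W),
      (∀ j, ∃ (i : M.I × W.I) (w : Valuation Q ℤᵐ⁰), Bad k (prodModel M W hcomp hdim) k Z i w ∧
        w ((D j).sec Q) < w ((D j).gen Q i) ∧
        ∀ (w' : Valuation Q ℤᵐ⁰) (i' : M.I × W.I), IsDivisorial k Q w' →
          PrimeAt (prodModel M W hcomp hdim) k Z i' w' →
          w' ((D j).sec Q) < w' ((D j).gen Q i') →
          ∀ z : Z, w' (algebraMap Z Q z) ≤ 1 ↔ w (algebraMap Z Q z) ≤ 1) ∧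
      ∀ (i : M.I × W.I) (w : Valuation Q ℤᵐ⁰), Bad k (prodModel M W hcomp hdim) k Z i w →
        ∃ j, w ((D j).sec Q) < w ((D j).gen Q i) := by
  obtain ⟨n, T, I, hT, hfin⟩ := exists_finite_conj (k := k) (B := k) (Z := Z) (P := Q)
    (prodModel M W hcomp hdim) (fun i => (prodModel M W hcomp hdim).tb i)
    (fun z => IntermediateField.subset_adjoin k _ ⟨z, rfl⟩)
  choose D hD1 hD2 using fun j => hmv (I j) (T j) (hT j)
  refine ⟨n, D, fun j => ⟨I j, T j, hT j, hD1 j, hD2 j⟩, ?_⟩
  intro i w hw
  obtain ⟨j, hj⟩ := hfin i w hw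
  have heq : w.IsEquiv (T j) := by
    rw [Valuation.isEquiv_iff_val_le_one]
    intro x
    exact hj x
  refine ⟨j, ?_⟩
  have h1 : w ((D j).gen Q (I j)) = w ((D j).gen Q i) := by
    have h2 := (prodBundle (D j).S (D j).T hcomp hdim).compat (I j) i (w.comap (algebraMap Z Q))
      (fun f hf => (hj _).2 ((hT j).prime.center f hf)) (fun f hf => hw.prime.center f hf)
    have e : ∀ i', algebraMap Z Q ((D j).gen Z i') = (D j).gen Q i' := fun i' =>
      BiDivisor.map_gen _ i'
    rw [← e, ← e]
    exact h2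
  rw [← h1, ← not_le]
  intro hcon
  exact absurd (hD1 j) (not_lt.2 ((heq _ _).1 hcon))

end Pf72953.PF
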