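import Mathlib
import Pool.Agent.Lib.Pf72953k.Cov
import Pool.Agent.Lib.Pf72953k.Pt
import Pool.Agent.Lib.Pf72953k.Sub

/-!
The product formula for the Kodaira dimension of a finite cover of a product of two varieties.
-/

set_option autoImplicit false
set_option linter.style.haveILetI false

open scoped WithZero
open Pf72953 Pf72953.Mov Pf72953.Up Pf72953.Br

namespace Pf72953.PF

section kod

variable {k Y : Type*} [Field k] [CharZero k] [Field Y] [Algebra k Y] [Algebra.EssFiniteType k Y]

theorem ge_zero (h : kodairaDim k Y ≠ ⊥) : KodairaGE k Y 0 := by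
  rcases kodairaDim_eq (k := k) (K := Y) with h' | ⟨c, ⟨m, hm, ω, hω, hω0, -⟩, -⟩
  · exact absurd h' h
  · exact ⟨m, hm, ω, hω, hω0, Fin.elim0, by
      rw [algebraicIndependent_empty_type_iff]
      exact (algebraMap k Y).injective, fun i => i.elim0⟩

/-- a finite extension of `Z` is algebraic over a ring containing `Z` -/
theorem alg_adjoin {k Z Q : Type*} [Field k] [Field Z] [Field Q] [Algebra k Z] [Algebra k Q]
    [Algebra Z Q] [IsScalarTower k Z Q] [FiniteDimensional Z Q] {S : Set Q}
    (h : ∀ z : Z, algebraMap Z Q z ∈ IntermediateField.adjoin k S) (a : Q) :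
    IsAlgebraic (Algebra.adjoin k S) a := by
  rw [← IntermediateField.isAlgebraic_adjoin_iff]
  letI : Algebra Z (IntermediateField.adjoin k S) :=
    ((algebraMap Z Q).codRestrict (IntermediateField.adjoin k S).toSubring h).toAlgebra
  haveI : IsScalarTower Z (IntermediateField.adjoin k S) Q :=
    IsScalarTower.of_algebraMap_eq fun _ => rfl
  exact (Algebra.IsAlgebraic.isAlgebraic (R := Z) a).extendScalars
    (algebraMap Z (IntermediateField.adjoin k S)).injective

end kod

variable {k B Y Z Q : Type*} [Field k] [CharZero k] [IsAlgClosed k] [Field B] [Field Y] [Field Z]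
  [Field Q]
  [Algebra k B] [Algebra k Y] [Algebra k Z] [Algebra k Q] [Algebra B Z] [Algebra B Q]
  [Algebra Y Z] [Algebra Y Q] [Algebra Z Q]
  [IsScalarTower k B Z] [IsScalarTower k B Q] [IsScalarTower k Y Z] [IsScalarTower k Y Q]
  [IsScalarTower k Z Q] [IsScalarTower B Z Q] [IsScalarTower Y Z Q]
  [Algebra.EssFiniteType k B] [Algebra.EssFiniteType k Y] [Algebra.EssFiniteType k Z]
  [FiniteDimensional Z Q] [IsGalois Z Q]

omit [Algebra k B] [Algebra k Y] [Algebra B Z] [Algebra B Q] [Algebra Y Z] [Algebra Y Q]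
  [Field B] [Field Y] [IsScalarTower k B Z] [IsScalarTower k B Q] [IsScalarTower k Y Z]
  [IsScalarTower k Y Q] [IsScalarTower B Z Q] [IsScalarTower Y Z Q]
  [Algebra.EssFiniteType k B] [Algebra.EssFiniteType k Y] in
/-- the lower bound for a cover of a single variety of nonnegative Kodaira dimension -/
theorem lower_cover {J : Type*} [Fintype J] {X : SmoothModel k Z} (D : J → MovingDivisor X k Q)
    (hD : ∀ j, IsBranch k Z (D j))
    (hpos : ∃ m : ℕ, 1 ≤ m ∧ ∃ ω ∈ pluriSections X (fun j => (D j).S) m (fun _ => 0), ω ≠ 0) :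
    logKodairaDim X (fun j => (D j).S) ≤ kodairaDim k Q := by
  classical
  haveI : Algebra.EssFiniteType k Q := Algebra.EssFiniteType.comp k Z Q
  have hram : ∀ j, Twr.RamifiedOn k Q k (mapD Q (D j)) := fun j =>
    ramifiedOn_of_branch (B := k) (Y := Z) (Z := Z) (P := Q) (L := Q) (G := k) (N := Q) X
      (fun i => X.tb i) (fun σ g => ⟨g, σ.commutes _⟩)
      (fun σ _ => by ext z; exact σ.commutes z) (hD j)
  obtain ⟨m, hm, ω, hω, hω0⟩ := hpos
  have hp : Twr.PositiveOn Q (fun j => mapD Q (D j)) :=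
    ⟨m, fun _ => 0, fun _ => 0, by simp; omega, fun j hj => absurd rfl hj, ω, hω, hω0⟩
  have hdim : dimension k k + dimension k Z + dimension k k = dimension k Q := by
    rw [dim_self, zero_add, add_zero]
    exact (Twr.dimension_eq_of_algebraic (k := k) (K := Z) (L := Q)).symm
  have h := (Twr.lower (k := k) (B := k) (Y := Z) (G := k) (Z := Z) (E := Q) (L := Q) (N := Q)
    (M := X) (fun z => IntermediateField.subset_adjoin k _ (Or.inr ⟨z, rfl⟩)) hdim
    (alg_adjoin fun z => IntermediateField.subset_adjoin k _ (Or.inl (Or.inr ⟨z, rfl⟩)))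
    (fun w _ _ z hz => ⟨z, hz, le_rfl⟩) (fun w _ _ z hz => ⟨z, hz, le_rfl⟩)
    (fun j => mapD Q (D j)) hram hp).1
  rw [kodairaDim_self, zero_add, add_zero] at h
  exact h

omit [IsGalois Z Q] in
/-- the upper bound for the Kodaira dimension over `B` -/
theorem upper_cover {J : Type*} [Fintype J] {M : SmoothModel k Y}
    (hcomp : Twr.IsCompositum k B Y Z)
    (hdim : dimension k B + dimension k Y = dimension k Z) (D : J → MovingDivisor M B Q)
    (hcov : ∀ (i : M.I) (w : Valuation Q ℤᵐ⁰), Bad k M B Z i w →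
        ∃ j, w (D j).sec < w (algebraMap Y Q ((D j).S.gen i))) :
    kodairaDim B Q ≤ logKodairaDim M (fun j => (D j).S) := by
  classical
  haveI : Algebra.EssFiniteType k Q := Algebra.EssFiniteType.comp k Z Q
  have hN : ∀ z : Q, z ∈ IntermediateField.adjoin k
      (Set.range (algebraMap k Q) ∪ Set.range (algebraMap Q Q)) := fun z =>
    IntermediateField.subset_adjoin k _ (Or.inr ⟨z, rfl⟩)
  have hdimQ : dimension k Q = dimension k Z := Twr.dimension_eq_of_algebraic
  have hZ : ∀ z : Z, algebraMap Z Q z ∈ IntermediateField.adjoin k (Set.range (algebraMap B Q) ∪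
      Set.range (algebraMap Y Q) ∪ Set.range (algebraMap k Q)) := by
    intro z
    have h1 : IntermediateField.adjoin k (Set.range (algebraMap B Z) ∪ Set.range (algebraMap Y Z)) ≤
        (IntermediateField.adjoin k (Set.range (algebraMap B Q) ∪
          Set.range (algebraMap Y Q) ∪ Set.range (algebraMap k Q))).comap
            (IsScalarTower.toAlgHom k Z Q) := by
      rw [IntermediateField.adjoin_le_iff]
      rintro _ (⟨b, rfl⟩ | ⟨b, rfl⟩)
      · exact IntermediateField.subset_adjoin k _ (Or.inl (Or.inl ⟨b, by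
          rw [IsScalarTower.algebraMap_apply B Z Q]; rfl⟩))
      · exact IntermediateField.subset_adjoin k _ (Or.inl (Or.inr ⟨b, by
          rw [IsScalarTower.algebraMap_apply Y Z Q]; rfl⟩))
    exact h1 (hcomp z)
  have h := Twr.upper (k := k) (B := B) (Y := Y) (G := k) (Z := Z) (E := Q) (L := Q) (N := Q)
    (M := M) hcomp (by rw [dim_self, add_zero, hdim, hdimQ]) (alg_adjoin hZ)
    (fun z => IntermediateField.subset_adjoin k _ (Or.inr (Algebra.IsAlgebraic.isAlgebraic z)))
    (fun j => mapD Q (D j)) (unramifiedOutside (k := k) (P := Q) (N := Q) hN D hcov)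
  rw [kodairaDim_self, add_zero] at h
  exact h

/-- the lower bound of the product formula -/
theorem main_ge (M : SmoothModel k Y) (W : SmoothModel k B) (hcomp : Twr.IsCompositum k B Y Z)
    (hdim : dimension k B + dimension k Y = dimension k Z) (hY : kodairaDim k Y ≠ ⊥)
    (hB : kodairaDim k B ≠ ⊥) (hmv : BiMoves M W Z Q hcomp hdim) :
    kodairaDim B Q + kodairaDim Y Q ≤ kodairaDim k Q := by
  classical
  obtain ⟨n, D, hbr, hcov⟩ := exists_biCover hcomp hdim hmv
  obtain ⟨i₀, -⟩ := M.cover 1 (fun c hc => Valuation.one_apply_of_ne_zero (by simpa using hc))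
  obtain ⟨j₀, -⟩ := W.cover 1 (fun c hc => Valuation.one_apply_of_ne_zero (by simpa using hc))
  have hne : ∀ j, (D j).sec Z ≠ 0 := fun j => (D j).sec_ne hcomp hdim
  -- over `B`
  have hB' : kodairaDim B Q ≤ logKodairaDim M (fun j => (D j).S) := by
    refine upper_cover hcomp hdim (fun j => (D j).toB Q) fun i w hw => ?_
    obtain ⟨j, hj⟩ := hcov (i, j₀) w (bad_left hcomp hdim W j₀ hw)
    refine ⟨j, ?_⟩
    rw [BiDivisor.gen, map_mul, hw.triv _ ((D j).T.ne j₀), mul_one] at hj
    exact hj
  -- over `Y`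
  have hY' : kodairaDim Y Q ≤ logKodairaDim W (fun j => (D j).T) := by
    refine upper_cover (B := Y) (Y := B) (IsCompositum.symm hcomp) (by omega)
      (fun j => (D j).toY Q) fun i w hw => ?_
    obtain ⟨j, hj⟩ := hcov (i₀, i) w (bad_right hcomp hdim M i₀ hw)
    refine ⟨j, ?_⟩
    rw [BiDivisor.gen, map_mul, hw.triv _ ((D j).S.ne i₀), one_mul] at hj
    rw [BiDivisor.toY_sec]
    exact hj
  -- over `k`
  have hk : logKodairaDim (prodModel M W hcomp hdim)
      (fun j => prodBundle (D j).S (D j).T hcomp hdim) ≤ kodairaDim k Q := by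
    refine lower_cover (fun j => (D j).toK Q hcomp hdim (hne j)) (fun j => ?_)
      (pos_prod (fun j => (D j).S) (fun j => (D j).T) hcomp hdim (ge_zero hY) (ge_zero hB))
    obtain ⟨i, w, hw, hlt, hsupp⟩ := hbr j
    have hgen : ∀ (w : Valuation Q ℤᵐ⁰) i', w (algebraMap Z Q
        ((prodBundle (D j).S (D j).T hcomp hdim).gen i')) = w ((D j).gen Q i') := fun w i' => by
      rw [← BiDivisor.map_gen (Z := Z)]
      rfl
    refine ⟨i, w, hw, ?_, fun w' i' hw' _ hp hlt' z => ?_⟩
    · rw [BiDivisor.toK_sec]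
      exact hlt.trans_le (hgen w i).ge
    · rw [BiDivisor.toK_sec] at hlt'
      exact hsupp w' i' hw' hp (hlt'.trans_le (hgen w' i').le) z
  calc kodairaDim B Q + kodairaDim Y Q
      ≤ logKodairaDim M (fun j => (D j).S) + logKodairaDim W (fun j => (D j).T) :=
        add_le_add hB' hY'
    _ = logKodairaDim W (fun j => (D j).T) + logKodairaDim M (fun j => (D j).S) := add_comm _ _
    _ ≤ _ := logKodairaDim_prod _ _ hcomp hdim
    _ ≤ kodairaDim k Q := hk

/-- **The product formula.** -/
theorem main (M : SmoothModel k Y) (W : SmoothModel k B) (hcomp : Twr.IsCompositum k B Y Z)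
    (hdim : dimension k B + dimension k Y = dimension k Z) (hY : kodairaDim k Y ≠ ⊥)
    (hB : kodairaDim k B ≠ ⊥) (hmv : BiMoves M W Z Q hcomp hdim) :
    kodairaDim k Q = kodairaDim B Q + kodairaDim Y Q := by
  haveI : Algebra.EssFiniteType k Q := Algebra.EssFiniteType.comp k Z Q
  exact le_antisymm (Bi.kodairaDim_le_add hdim (alg_of_compositum hcomp))
    (main_ge M W hcomp hdim hY hB hmv)

end Pf72953.PF
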