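import Mathlib
import Pool.Agent.Lib.Pf72953u.Main
import Pool.Agent.Lib.Pf72953t.Defs
import Pool.Agent.Lib.Pf72953k.Prod

/-!
The product of finitely many smooth complete varieties, and the box product of line bundles.
-/

set_option autoImplicit false
set_option linter.style.haveILetI false

open scoped WithZero
open Pf72953 Pf72953.Mov Pf72953.Up

namespace Pf72953.PF

section alg

variable {k Z ι : Type*} {Y : ι → Type*} [Field k] [∀ i, Field (Y i)] [Field Z]
  [∀ i, Algebra k (Y i)] [Algebra k Z] [∀ i, Algebra (Y i) Z]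

/-- the coordinate ring of the product of affine varieties -/
def nA (Z : Type*) [Field Z] [Algebra k Z] [∀ i, Algebra (Y i) Z] (A : ∀ i, Subalgebra k (Y i)) :
    Subalgebra k Z :=
  Algebra.adjoin k (⋃ i, algebraMap (Y i) Z '' A i)

theorem nA_mem {A : ∀ i, Subalgebra k (Y i)} {i : ι} {f : Y i} (hf : f ∈ A i) :
    algebraMap (Y i) Z f ∈ nA Z A :=
  Algebra.subset_adjoin (Set.mem_iUnion.2 ⟨i, f, hf, rfl⟩)

/-- `Z` is the compositum of the `Y i` -/
def IsComp (k : Type*) {ι : Type*} (Y : ι → Type*) (Z : Type*) [Field k] [∀ i, Field (Y i)] [Field Z]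
    [Algebra k Z] [∀ i, Algebra (Y i) Z] : Prop :=
  ∀ z : Z, z ∈ IntermediateField.adjoin k (⋃ i, Set.range (algebraMap (Y i) Z))

variable [∀ i, IsScalarTower k (Y i) Z]

theorem nA_fg [Finite ι] {A : ∀ i, Subalgebra k (Y i)} (hA : ∀ i, (A i).FG) : (nA Z A).FG := by
  classical
  choose s hs using hA
  have hfin : (⋃ i, algebraMap (Y i) Z '' (s i : Set (Y i))).Finite :=
    Set.finite_iUnion fun i => (Finset.finite_toSet _).image _
  rw [Subalgebra.fg_def]
  refine ⟨_, hfin, le_antisymm (Algebra.adjoin_le ?_) (Algebra.adjoin_le ?_)⟩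
  · intro z hz
    obtain ⟨i, f, hf, rfl⟩ := Set.mem_iUnion.1 hz
    refine nA_mem ?_
    rw [← hs i]
    exact Algebra.subset_adjoin hf
  · intro z hz
    obtain ⟨i, f, hf, rfl⟩ := Set.mem_iUnion.1 hz
    have h1 : A i ≤ (Algebra.adjoin k (⋃ i, algebraMap (Y i) Z '' (s i : Set (Y i)))).comap
        (IsScalarTower.toAlgHom k (Y i) Z) := by
      rw [← hs i]
      refine Algebra.adjoin_le ?_
      intro f hf
      exact Algebra.subset_adjoin (Set.mem_iUnion.2 ⟨i, f, hf, rfl⟩)
    exact h1 hf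

theorem nA_frac {A : ∀ i, Subalgebra k (Y i)}
    (hA : ∀ i (f : Y i), ∃ g ∈ A i, ∃ h ∈ A i, h ≠ 0 ∧ f = g / h)
    (hcomp : IsComp k Y Z) (f : Z) :
    ∃ g ∈ nA Z A, ∃ h ∈ nA Z A, h ≠ 0 ∧ f = g / h := by
  have hf := hcomp f
  induction hf using IntermediateField.adjoin_induction with
  | mem x hx =>
    obtain ⟨i, y, rfl⟩ := Set.mem_iUnion.1 hx
    obtain ⟨g, hg, h', hh, hne, rfl⟩ := hA i y
    refine ⟨_, nA_mem hg, _, nA_mem hh, ?_, by rw [map_div₀]⟩
    rw [Ne, map_eq_zero]
    exact hne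
  | algebraMap r =>
    exact ⟨algebraMap k Z r, Subalgebra.algebraMap_mem _ _, 1, Subalgebra.one_mem _,
      one_ne_zero, by rw [div_one]⟩
  | add x y _ _ hx hy =>
    obtain ⟨a, ha, c, hc, hc0, rfl⟩ := hx
    obtain ⟨a', ha', c', hc', hc0', rfl⟩ := hy
    exact ⟨a * c' + c * a', Subalgebra.add_mem _ (Subalgebra.mul_mem _ ha hc')
      (Subalgebra.mul_mem _ hc ha'), c * c', Subalgebra.mul_mem _ hc hc',
      mul_ne_zero hc0 hc0', by rw [div_add_div _ _ hc0 hc0']⟩
  | inv x _ hx =>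
    obtain ⟨a, ha, c, hc, hc0, rfl⟩ := hx
    by_cases ha0 : a = 0
    · exact ⟨0, Subalgebra.zero_mem _, 1, Subalgebra.one_mem _, one_ne_zero, by
        rw [ha0, zero_div, inv_zero, zero_div]⟩
    · exact ⟨c, hc, a, ha, ha0, by rw [inv_div]⟩
  | mul x y _ _ hx hy =>
    obtain ⟨a, ha, c, hc, hc0, rfl⟩ := hx
    obtain ⟨a', ha', c', hc', hc0', rfl⟩ := hy
    exact ⟨a * a', Subalgebra.mul_mem _ ha ha', c * c', Subalgebra.mul_mem _ hc hc',
      mul_ne_zero hc0 hc0', by rw [div_mul_div_comm]⟩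

omit [∀ i, Algebra k (Y i)] [∀ i, IsScalarTower k (Y i) Z] in
theorem adj_val {S : Set Z}
    {v : Valuation Z ℤᵐ⁰} (hk : ∀ c : k, c ≠ 0 → v (algebraMap k Z c) = 1)
    (hA : ∀ f ∈ S, v f ≤ 1) : ∀ f ∈ Algebra.adjoin k S, v f ≤ 1 := by
  intro f hf
  induction hf using Algebra.adjoin_induction with
  | mem x hx => exact hA x hx
  | algebraMap r =>
    rcases eq_or_ne r 0 with rfl | hr
    · simp
    · exact (hk r hr).le
  | add x y _ _ hx hy =>
    exact (Valuation.map_add _ _ _).trans (max_le hx hy)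
  | mul x y _ _ hx hy =>
    rw [map_mul]
    exact mul_le_one' hx hy

theorem nA_val {A : ∀ i, Subalgebra k (Y i)}
    {v : Valuation Z ℤᵐ⁰} (hk : ∀ c : k, c ≠ 0 → v (algebraMap k Z c) = 1)
    (hA : ∀ i, ∀ f ∈ A i, v (algebraMap (Y i) Z f) ≤ 1) :
    ∀ f ∈ nA Z A, v f ≤ 1 := by
  refine adj_val hk ?_
  intro f hf
  obtain ⟨i, g, hg, rfl⟩ := Set.mem_iUnion.1 hf
  exact hA i g hg

end alg

section tb

variable {k Z ι : Type*} {Y : ι → Type*} [Field k] [∀ i, Field (Y i)] [Field Z]
  [∀ i, Algebra k (Y i)] [Algebra k Z] [∀ i, Algebra (Y i) Z] [∀ i, IsScalarTower k (Y i) Z]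
  {κ : ι → Type*}

/-- a family of elements of the `Y i` as a family of elements of `Z` -/
def sfam (Z : Type*) [Field Z] [∀ i, Algebra (Y i) Z] (x : ∀ i, κ i → Y i) : (Σ i, κ i) → Z :=
  fun p => algebraMap (Y p.1) Z (x p.1 p.2)

theorem tb_sigma [FinTrdeg k Z] [Fintype ι] [∀ i, Fintype (κ i)]
    (halg : ∀ a : Z, IsAlgebraic (Algebra.adjoin k (⋃ i, Set.range (algebraMap (Y i) Z))) a)
    (hdim : ∑ i, dimension k (Y i) = dimension k Z) {x : ∀ i, κ i → Y i}
    (hx : ∀ i, IsTranscendenceBasis k (x i)) : IsTranscendenceBasis k (sfam Z x) := by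
  haveI : Algebra.IsAlgebraic (Algebra.adjoin k (Set.range (sfam Z x))) Z := by
    refine ⟨fun a => (halg a).adjoin_of_forall_isAlgebraic ?_⟩
    rintro _ ⟨h, _⟩
    obtain ⟨i, b, rfl⟩ := Set.mem_iUnion.1 h
    exact isAlgebraic_transport (hx i) (Set.range (sfam Z x)) (fun j => ⟨⟨i, j⟩, rfl⟩) b
  refine Algebra.IsAlgebraic.isTranscendenceBasis_of_lift_le_trdeg_of_finite k (sfam Z x) ?_
  rw [← trdeg_eq_dimension, Cardinal.mk_fintype, Fintype.card_sigma, ← hdim]
  rw [Cardinal.lift_natCast, Cardinal.lift_natCast, Nat.cast_le]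
  exact Finset.sum_le_sum fun i _ => (card_eq_of_isTranscendenceBasis (hx i)).le

theorem alg_of_comp (hcomp : IsComp k Y Z) (a : Z) :
    IsAlgebraic (Algebra.adjoin k (⋃ i, Set.range (algebraMap (Y i) Z))) a := by
  rw [← IntermediateField.isAlgebraic_adjoin_iff]
  exact isAlgebraic_algebraMap (⟨a, hcomp a⟩ : IntermediateField.adjoin k
    (⋃ i, Set.range (algebraMap (Y i) Z)))

theorem det_blocks {R : Type*} [CommRing R] [Fintype ι] [DecidableEq ι] [∀ i, Fintype (κ i)]
    [∀ i, DecidableEq (κ i)] (M : ∀ i, Matrix (κ i) (κ i) R) (N : Matrix (Σ i, κ i) (Σ i, κ i) R)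
    (h1 : ∀ i a b, N ⟨i, a⟩ ⟨i, b⟩ = M i a b)
    (h2 : ∀ p q : Σ i, κ i, p.1 ≠ q.1 → N p q = 0) : N.det = ∏ i, (M i).det := by
  classical
  letI : LinearOrder ι := LinearOrder.lift' (Fintype.equivFin ι) (Fintype.equivFin ι).injective
  have hN : N.BlockTriangular Sigma.fst := fun p q hpq => h2 p q (ne_of_gt hpq)
  rw [hN.det_fintype]
  refine Finset.prod_congr rfl fun i _ => ?_
  rw [← Matrix.det_submatrix_equiv_self (Equiv.sigmaSubtype i).symm]
  congr 1
  ext a b
  exact h1 i a b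

variable [CharZero k] [Fintype ι] [DecidableEq ι] [∀ i, Fintype (κ i)] [∀ i, DecidableEq (κ i)]

theorem jac_sigma {x : ∀ i, κ i → Y i} (hx : ∀ i, IsTranscendenceBasis k (x i))
    (hz : IsTranscendenceBasis k (sfam Z x)) (a : ∀ i, κ i → Y i) :
    jac hz (sfam Z a) = ∏ i, algebraMap (Y i) Z (jac (hx i) (a i)) := by
  rw [jac_eq_det, det_blocks (fun i => (algebraMap (Y i) Z).mapMatrix
    (Matrix.of fun b c => pd (hx i) b (a i c)))]
  · refine Finset.prod_congr rfl fun i _ => ?_
    rw [← RingHom.map_det, jac_eq_det]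
  · intro i b c
    simp only [Matrix.of_apply, RingHom.mapMatrix_apply, Matrix.map_apply]
    exact pd_algebraMap (hx i) hz (fun b => (⟨i, b⟩ : Σ i, κ i)) sigma_mk_injective
      (fun _ => rfl) b (a i c)
  · rintro ⟨i, b⟩ ⟨j, c⟩ hij
    simp only [Matrix.of_apply]
    refine pd_algebraMap_of_notMem (hx j) hz (fun b => (⟨j, b⟩ : Σ i, κ i)) (fun _ => rfl) ⟨i, b⟩
      (fun l hl => hij ?_) (a j c)
    exact (congrArg Sigma.fst hl).symm

end tb

section model

variable {k Z : Type*} {ι : Type} {Y : ι → Type*} [Field k] [CharZero k] [∀ i, Field (Y i)] [Field Z]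
  [∀ i, Algebra k (Y i)] [Algebra k Z] [∀ i, Algebra (Y i) Z] [∀ i, IsScalarTower k (Y i) Z]
  [Algebra.EssFiniteType k Z] [Fintype ι]

/-- the enumeration of the coordinates of a product -/
noncomputable def nE {k Z ι : Type*} {Y : ι → Type*} [Field k] [∀ i, Field (Y i)] [Field Z]
    [∀ i, Algebra k (Y i)] [Algebra k Z] [Fintype ι]
    (hdim : ∑ i, dimension k (Y i) = dimension k Z) :
    (Σ i, Fin (dimension k (Y i))) ≃ Fin (dimension k Z) :=
  Fintype.equivFinOfCardEq (by rw [Fintype.card_sigma, ← hdim]; simp)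

/-- the coordinates of a product of charts -/
noncomputable def nX (hdim : ∑ i, dimension k (Y i) = dimension k Z)
    (x : ∀ i, Fin (dimension k (Y i)) → Y i) : Fin (dimension k Z) → Z :=
  sfam Z x ∘ (nE hdim).symm

theorem tb_nX (hcomp : IsComp k Y Z) (hdim : ∑ i, dimension k (Y i) = dimension k Z)
    {x : ∀ i, Fin (dimension k (Y i)) → Y i} (hx : ∀ i, IsTranscendenceBasis k (x i)) :
    IsTranscendenceBasis k (nX hdim x) :=
  (tb_sigma (alg_of_comp hcomp) hdim hx).comp_equiv _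

theorem nX_apply (hdim : ∑ i, dimension k (Y i) = dimension k Z)
    (x : ∀ i, Fin (dimension k (Y i)) → Y i) (i : ι) (b : Fin (dimension k (Y i))) :
    nX (Z := Z) hdim x (nE hdim ⟨i, b⟩) = algebraMap (Y i) Z (x i b) := by
  rw [nX, Function.comp_apply, Equiv.symm_apply_apply]
  rfl

/-- The product of finitely many smooth complete varieties `M i` (with function fields `Y i`): the charts are the
products of charts of the `M i`. -/
noncomputable def prodN (M : ∀ i, SmoothModel k (Y i)) (hcomp : IsComp k Y Z)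
    (hdim : ∑ i, dimension k (Y i) = dimension k Z) :
    SmoothModel k Z where
  I := ∀ i, (M i).I
  finite := by
    classical
    haveI := fun i => (M i).finite
    infer_instance
  A := fun c => nA Z fun i => (M i).A (c i)
  x := fun c => nX hdim fun i => (M i).x (c i)
  fg := fun c => nA_fg fun i => (M i).fg _
  frac := fun c f => nA_frac (fun i => (M i).frac _) hcomp f
  tb := fun c => tb_nX hcomp hdim fun i => (M i).tb _
  mem := fun c a => by
    rw [nX, Function.comp_apply]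
    exact nA_mem ((M _).mem _ _)
  der := fun c D hD f hf => by
    have hl : ∀ i b, D (algebraMap (Y i) Z ((M i).x (c i) b)) ∈
        nA Z fun i => (M i).A (c i) := fun i b => by
      have h := hD (nE hdim ⟨i, b⟩)
      rwa [nX_apply] at h
    induction hf using Algebra.adjoin_induction with
    | mem z hz =>
      obtain ⟨i, y, hy, rfl⟩ := Set.mem_iUnion.1 hz
      rw [der_sum ((M i).tb (c i)) D y]
      exact Subalgebra.sum_mem _ fun a _ => Subalgebra.mul_mem _
        (nA_mem ((M i).pd_mem _ a y hy)) (hl i a)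
    | algebraMap r =>
      rw [Derivation.map_algebraMap]
      exact Subalgebra.zero_mem _
    | add y y' _ _ hy hy' =>
      rw [map_add]
      exact Subalgebra.add_mem _ hy hy'
    | mul y y' hym hym' hy hy' =>
      rw [Derivation.leibniz, smul_eq_mul, smul_eq_mul]
      exact Subalgebra.add_mem _ (Subalgebra.mul_mem _ hym hy') (Subalgebra.mul_mem _ hym' hy)
  cover := fun v hv => by
    have h : ∀ i, ∃ j, ∀ f ∈ (M i).A j, v (algebraMap (Y i) Z f) ≤ 1 := fun i => by
      obtain ⟨j, hj⟩ := (M i).cover (v.comap (algebraMap (Y i) Z)) (fun c hc => by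
        rw [Valuation.comap_apply, ← IsScalarTower.algebraMap_apply]
        exact hv c hc)
      exact ⟨j, hj⟩
    choose j hj using h
    exact ⟨j, fun f hf => nA_val (A := fun i => (M i).A (j i)) hv hj f hf⟩

/-- the box product of line bundles -/
noncomputable def boxN {M : ∀ i, SmoothModel k (Y i)} (S : ∀ i, LineBundle (M i))
    (hcomp : IsComp k Y Z) (hdim : ∑ i, dimension k (Y i) = dimension k Z) :
    LineBundle (prodN M hcomp hdim) where
  gen := fun c => ∏ i, algebraMap (Y i) Z ((S i).gen (c i))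
  ne := fun c => Finset.prod_ne_zero_iff.mpr fun i _ => by
    rw [Ne, map_eq_zero]; exact (S i).ne _
  compat := fun c d v hc hd => by
    rw [map_prod, map_prod]
    refine Finset.prod_congr rfl fun i _ => ?_
    exact (S i).compat (c i) (d i) (v.comap (algebraMap (Y i) Z)) (fun f hf => hc _ (nA_mem hf))
      (fun f hf => hd _ (nA_mem hf))

end model

end Pf72953.PF
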