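import Mathlib
import Pool.Agent.Lib.Pf72953k.Loc
import Pool.Agent.Lib.Pf72953k.NProd
import Pool.Agent.Lib.Pf72953k.Bad
import Pool.Agent.Lib.Pf72953b.FinBad

/-!
A branch divisor of `Q` over the generic fibre of one of the projections of a product is a branch divisor over the product.
-/

set_option autoImplicit false
set_option linter.style.haveILetI false

open scoped WithZero
open Pf72953 Pf72953.Mov Pf72953.Up Pf72953.Br

namespace Pf72953.PF

section der

variable {k B Y Z Q : Type*} [Field k] [CharZero k] [Field B] [Field Y] [Field Z] [Field Q]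
  [Algebra k B] [Algebra k Y] [Algebra k Z] [Algebra k Q] [Algebra B Z] [Algebra B Q]
  [Algebra Y Z] [Algebra Y Q] [Algebra Z Q]
  [IsScalarTower k B Z] [IsScalarTower k B Q] [IsScalarTower k Y Z] [IsScalarTower k Y Q]
  [IsScalarTower k Z Q] [IsScalarTower B Z Q] [IsScalarTower Y Z Q]
  [Algebra.EssFiniteType k B] [Algebra.EssFiniteType k Z] [FiniteDimensional Z Q]

/-- vector fields over `k` at a branch divisor over `B` -/
theorem bad_der' (hcomp : Twr.IsCompositum k B Y Z)
    (hdim : dimension k B + dimension k Y = dimension k Z) {M : SmoothModel k Y} {i : M.I}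
    {w : Valuation Q ℤᵐ⁰} (h : Bad k M B Z i w) (D : Derivation k Z Z)
    (h1 : ∀ a, w (algebraMap Z Q (D (algebraMap Y Z (M.x i a)))) ≤ 1)
    (h2 : ∀ b : B, w (algebraMap Z Q (D (algebraMap B Z b))) ≤ 1) {z : Z}
    (hz : w (algebraMap Z Q z) ≤ 1) : w (algebraMap Z Q (D z)) ≤ 1 := by
  obtain ⟨y, hy⟩ := exists_tb k B
  exact bad_der hcomp hdim h hy D h1 (fun a => h2 _) hz

/-- a derivation which is bounded on generators of a field on which the valuation is trivial is bounded -/
theorem der_bound {S : Set Z} {w : Valuation Z ℤᵐ⁰}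
    (htriv : ∀ z ∈ IntermediateField.adjoin k S, z ≠ 0 → w z = 1) (D : Derivation k Z Z)
    (hD : ∀ z ∈ S, w (D z) ≤ 1) : ∀ z ∈ IntermediateField.adjoin k S, w (D z) ≤ 1 := by
  intro z hz
  have hle : ∀ z ∈ IntermediateField.adjoin k S, w z ≤ 1 := fun z hz => by
    rcases eq_or_ne z 0 with rfl | h0
    · simp
    · exact (htriv z hz h0).le
  induction hz using IntermediateField.adjoin_induction with
  | mem x hx => exact hD x hx
  | algebraMap r =>
    rw [Derivation.map_algebraMap, map_zero]
    exact zero_le_one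
  | add x y _ _ hx hy =>
    rw [map_add]
    exact (Valuation.map_add _ _ _).trans (max_le hx hy)
  | inv x hx' hx =>
    rcases eq_or_ne x 0 with rfl | h0
    · simp
    · have h1 : D x⁻¹ = -(D x) * (x⁻¹ * x⁻¹) := by
        have h2 : D (x * x⁻¹) = 0 := by
          rw [mul_inv_cancel₀ h0]
          exact Derivation.map_one_eq_zero D
        rw [Derivation.leibniz, smul_eq_mul, smul_eq_mul] at h2
        have h3 : x * D x⁻¹ = -(x⁻¹ * D x) := by linear_combination h2
        have h4 : D x⁻¹ = x⁻¹ * (x * D x⁻¹) := by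
          rw [← mul_assoc, inv_mul_cancel₀ h0, one_mul]
        rw [h4, h3]
        ring
      rw [h1, map_mul, map_mul, Valuation.map_neg, map_inv₀, htriv x hx' h0]
      simpa using hx
  | mul x y hx' hy' hx hy =>
    rw [Derivation.leibniz, smul_eq_mul, smul_eq_mul]
    refine (Valuation.map_add _ _ _).trans (max_le ?_ ?_)
    · rw [map_mul]
      exact mul_le_one' (hle _ hx') hy
    · rw [map_mul]
      exact mul_le_one' (hle _ hy') hx

end der

section

variable {k V Z Q : Type*} {ι : Type} {Y : ι → Type*} [Field k] [CharZero k] [Field V]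
  [∀ i, Field (Y i)] [Field Z] [Field Q] [Algebra k V] [∀ i, Algebra k (Y i)] [Algebra k Z]
  [Algebra k Q] [Algebra V Z] [Algebra V Q] [∀ i, Algebra (Y i) Z] [∀ i, Algebra (Y i) Q]
  [Algebra Z Q] [IsScalarTower k V Z] [IsScalarTower k V Q] [∀ i, IsScalarTower k (Y i) Z]
  [∀ i, IsScalarTower k (Y i) Q] [IsScalarTower k Z Q] [IsScalarTower V Z Q]
  [∀ i, IsScalarTower (Y i) Z Q] [Algebra.EssFiniteType k V] [Algebra.EssFiniteType k Z]
  [FiniteDimensional Z Q] [Fintype ι]

/-- a branch divisor over the generic point of the product of the other factors is a branch divisor of the product -/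
theorem bad_N (M : ∀ i, SmoothModel k (Y i)) (hcomp : IsComp k Y Z)
    (hdim : ∑ i, dimension k (Y i) = dimension k Z) (i : ι)
    (hcompV : Twr.IsCompositum k V (Y i) Z)
    (hdimV : dimension k V + dimension k (Y i) = dimension k Z)
    (hV1 : ∀ j, j ≠ i → ∀ y : Y j, ∃ b : V, algebraMap V Z b = algebraMap (Y j) Z y)
    (hV2 : ∀ b : V, algebraMap V Z b ∈
      IntermediateField.adjoin k (⋃ (j) (_ : j ≠ i), Set.range (algebraMap (Y j) Z)))
    (hV3 : ∀ z ∈ IntermediateField.adjoin k (⋃ (j) (_ : j ≠ i), Set.range (algebraMap (Y j) Z)),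
      ∃ b : V, algebraMap V Z b = z)
    {c : ∀ i, (M i).I} {w : Valuation Q ℤᵐ⁰} (h : Bad k (M i) V Z (c i) w) :
    Bad k (prodN M hcomp hdim) k Z c w := by
  have hk : ∀ c : k, c ≠ 0 → w (algebraMap k Q c) = 1 := fun c hc => by
    rw [IsScalarTower.algebraMap_apply k V Q]
    exact h.triv _ (by simpa using hc)
  have hle : ∀ f : V, w (algebraMap V Q f) ≤ 1 := fun f => by
    rcases eq_or_ne f 0 with rfl | hf
    · simp
    · exact (h.triv f hf).le
  have hcen : ∀ j, ∀ f ∈ (M j).A (c j), w (algebraMap Z Q (algebraMap (Y j) Z f)) ≤ 1 := by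
    intro j f hf
    by_cases hj : j = i
    · subst hj
      rw [← IsScalarTower.algebraMap_apply (Y j) Z Q]
      exact h.prime.center f hf
    · obtain ⟨b, hb⟩ := hV1 j hj f
      rw [← hb, ← IsScalarTower.algebraMap_apply V Z Q]
      exact hle b
  refine ⟨h.div, hk, ⟨fun f hf => ?_, fun D hD z hz => ?_⟩, h.ram⟩
  · exact nA_val (v := w.comap (algebraMap Z Q)) (fun c hc => by
      rw [Valuation.comap_apply, ← IsScalarTower.algebraMap_apply k Z Q]
      exact hk c hc) hcen f hf
  · have hD' : ∀ j b, w (algebraMap Z Q (D (algebraMap (Y j) Z ((M j).x (c j) b)))) ≤ 1 := by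
      intro j b
      have h1 := hD (nE hdim ⟨j, b⟩)
      change w (algebraMap Z Q (D (nX hdim (fun i => (M i).x (c i)) _))) ≤ 1 at h1
      rwa [nX_apply] at h1
    refine bad_der' hcompV hdimV h D (hD' i) (fun b => ?_) hz
    have htriv : ∀ z ∈ IntermediateField.adjoin k
        (⋃ (j) (_ : j ≠ i), Set.range (algebraMap (Y j) Z)), z ≠ 0 →
        w.comap (algebraMap Z Q) z = 1 := by
      intro z hz hz0
      obtain ⟨b, rfl⟩ := hV3 z hz
      rw [Valuation.comap_apply, ← IsScalarTower.algebraMap_apply V Z Q]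
      exact h.triv b (by rintro rfl; simp at hz0)
    refine der_bound (w := w.comap (algebraMap Z Q)) htriv D ?_ _ (hV2 b)
    intro z hz'
    obtain ⟨j, hj, y, rfl⟩ := Set.mem_iUnion₂.1 hz'
    rw [der_sum ((M j).tb (c j)) D y, Valuation.comap_apply, map_sum]
    refine Valuation.map_sum_le _ fun a _ => ?_
    rw [map_mul, map_mul]
    refine mul_le_one' ?_ (hD' j a)
    obtain ⟨b, hb⟩ := hV1 j hj (pd ((M j).tb (c j)) a y)
    rw [← hb, ← IsScalarTower.algebraMap_apply V Z Q]
    exact hle b

end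

end Pf72953.PF
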