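import Mathlib
import Pool.Agent.Lib.Pf72953k.NProd
import Pool.Agent.Lib.Pf72953t.Main
import Pool.Agent.Lib.Pf72953b.PosKod

/-!
The Kodaira dimension of a log pair which is a product of finitely many log pairs.
-/

set_option autoImplicit false
set_option linter.style.haveILetI false

open scoped WithZero
open Pf72953 Pf72953.Mov Pf72953.Up

namespace Pf72953.PF

section indep

variable {k Z ι : Type*} {Y : ι → Type*} [Field k] [∀ i, Field (Y i)] [Field Z]
  [∀ i, Algebra k (Y i)] [Algebra k Z] [∀ i, Algebra (Y i) Z] [∀ i, IsScalarTower k (Y i) Z]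

theorem finTrdeg_of (k B Z : Type*) [Field k] [Field B] [Field Z] [Algebra k B] [Algebra k Z]
    [Algebra B Z] [IsScalarTower k B Z] [FinTrdeg k Z] : FinTrdeg k B := by
  have hfin : Algebra.trdeg k Z < Cardinal.aleph0 := trdeg_lt_aleph0 k Z
  have hsum := lift_trdeg_add_eq k B Z
  obtain ⟨n, hn⟩ := Cardinal.lt_aleph0.mp hfin
  rw [hn, Cardinal.lift_natCast] at hsum
  have hfin2 := hsum.trans_lt (Cardinal.natCast_lt_aleph0 (n := n))
  rw [Cardinal.add_lt_aleph0_iff, Cardinal.lift_lt_aleph0, Cardinal.lift_lt_aleph0] at hfin2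
  exact FinTrdeg.of_trdeg hfin2.1

theorem indep_sigma [FinTrdeg k Z] [Fintype ι]
    (halg : ∀ a : Z, IsAlgebraic (Algebra.adjoin k (⋃ i, Set.range (algebraMap (Y i) Z))) a)
    (hdim : ∑ i, dimension k (Y i) = dimension k Z) {κ : ι → Type*} {f : ∀ i, κ i → Y i}
    (hf : ∀ i, AlgebraicIndependent k (f i)) : AlgebraicIndependent k (sfam Z f) := by
  have h : ∀ i, ∃ s : Set (Y i), Set.range (f i) ⊆ s ∧
      IsTranscendenceBasis k ((↑) : s → Y i) := fun i => by
    obtain ⟨s, hs, hs'⟩ := exists_isTranscendenceBasis_superset (R := k) (s := Set.range (f i))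
      (hf i).to_subtype_range
    exact ⟨s, hs, hs'⟩
  choose s hs hs' using h
  haveI : ∀ i, FinTrdeg k (Y i) := fun i => finTrdeg_of k (Y i) Z
  haveI : ∀ i, Finite (s i) := fun i => finite_of_isTranscendenceBasis (hs' i)
  haveI : ∀ i, Fintype (s i) := fun i => Fintype.ofFinite (s i)
  have h1 := (tb_sigma halg hdim hs').1
  let e : (Σ i, κ i) → (Σ i, s i) := fun p => ⟨p.1, ⟨f p.1 p.2, hs p.1 ⟨p.2, rfl⟩⟩⟩
  have he : Function.Injective e := by
    rintro ⟨i, a⟩ ⟨j, b⟩ hab
    obtain rfl : i = j := congrArg Sigma.fst hab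
    have h2 : (⟨f i a, hs i ⟨a, rfl⟩⟩ : s i) = ⟨f i b, hs i ⟨b, rfl⟩⟩ := by
      have h3 := Sigma.mk.inj_iff.1 hab
      exact eq_of_heq h3.2
    have h4 : a = b := (hf i).injective (congrArg Subtype.val h2)
    rw [h4]
  exact h1.comp e he

end indep

section

variable {k Z : Type*} {ι : Type} {J : Type*} {Y : ι → Type*} [Field k] [CharZero k] [∀ i, Field (Y i)]
  [Field Z]
  [∀ i, Algebra k (Y i)] [Algebra k Z] [∀ i, Algebra (Y i) Z] [∀ i, IsScalarTower k (Y i) Z]
  [Algebra.EssFiniteType k Z] [Fintype ι] [Fintype J] {M : ∀ i, SmoothModel k (Y i)}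

theorem jac_nX (hcomp : IsComp k Y Z) (hdim : ∑ i, dimension k (Y i) = dimension k Z)
    {x y : ∀ i, Fin (dimension k (Y i)) → Y i} (hx : ∀ i, IsTranscendenceBasis k (x i)) :
    jac (tb_nX hcomp hdim hx) (nX hdim y) = ∏ i, algebraMap (Y i) Z (jac (hx i) (y i)) := by
  classical
  have h1 := tb_sigma (alg_of_comp hcomp) hdim hx
  rw [← jac_sigma hx h1 y]
  exact jac_reindex (nE hdim).symm h1 (tb_nX hcomp hdim hx) _

theorem coefSec_N (hcomp : IsComp k Y Z) (hdim : ∑ i, dimension k (Y i) = dimension k Z)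
    {S : J → ∀ i, LineBundle (M i)} {y : ∀ i, Fin (dimension k (Y i)) → Y i} {m : ℕ} {q : J → ℕ}
    {g : ∀ i, Y i} (hg : ∀ i, g i ∈ CoefSec (M i) (fun j => S j i) (y i) m q) :
    ∏ i, algebraMap (Y i) Z (g i) ∈ CoefSec (prodN M hcomp hdim)
      (fun j => boxN (S j) hcomp hdim) (nX hdim y) m q := by
  intro c
  choose f hf hf' using fun i => hg i (c i)
  refine ⟨∏ i, algebraMap (Y i) Z (f i), Subalgebra.prod_mem _ fun i _ => nA_mem (hf i), ?_⟩
  have h1 : jac ((prodN M hcomp hdim).tb c) (nX hdim y) =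
      ∏ i, algebraMap (Y i) Z (jac ((M i).tb (c i)) (y i)) :=
    jac_nX hcomp hdim fun i => (M i).tb (c i)
  have h2 : ∏ j, (boxN (S j) hcomp hdim).gen c ^ q j =
      ∏ i, algebraMap (Y i) Z (∏ j, (S j i).gen (c i) ^ q j) := by
    change ∏ j, (∏ i, algebraMap (Y i) Z ((S j i).gen (c i))) ^ q j = _
    simp only [← Finset.prod_pow, map_prod, map_pow]
    exact Finset.prod_comm
  rw [h1, h2, ← Finset.prod_pow, ← Finset.prod_mul_distrib, ← Finset.prod_mul_distrib]
  refine Finset.prod_congr rfl fun i _ => ?_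
  rw [← map_pow, ← map_mul, hf' i, map_mul]

theorem coefSec_pow {k Y J : Type*} [Field k] [CharZero k] [Field Y] [Algebra k Y] [Fintype J]
    {M : SmoothModel k Y} {S : J → LineBundle M} {y : Fin (dimension k Y) → Y} {m p n : ℕ}
    (hn : (p + 1) * m = n) {u g : Y} (hg : g ∈ CoefSec M S y m (fun _ => m))
    (hu : u * g ∈ CoefSec M S y m (fun _ => m)) :
    u * g ^ (p + 1) ∈ CoefSec M S y n (fun _ => n) := by
  have h2 := CoefSec.mul hu (CoefSec.pow hg p)
  have h4 : m + p * m = n := by rw [← hn]; ring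
  rw [h4] at h2
  have h5 : u * g * g ^ p = u * g ^ (p + 1) := by ring
  rwa [h5] at h2

theorem logKodairaGE_N (hcomp : IsComp k Y Z) (hdim : ∑ i, dimension k (Y i) = dimension k Z)
    {S : J → ∀ i, LineBundle (M i)} {a : ι → ℕ}
    (ha : ∀ i, LogKodairaGE (M i) (fun j => S j i) (a i)) :
    LogKodairaGE (prodN M hcomp hdim) (fun j => boxN (S j) hcomp hdim) (∑ i, a i) := by
  classical
  haveI : ∀ i, FinTrdeg k (Y i) := fun i => finTrdeg_of k (Y i) Z
  have hyx : ∀ i, ∃ y : Fin (dimension k (Y i)) → Y i, IsTranscendenceBasis k y := fun i => by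
    obtain ⟨x, hx0⟩ := exists_algebraicIndependent_of_le_trdeg (k := k) (K := Y i)
      (n := dimension k (Y i)) trdeg_eq_dimension.le
    exact ⟨x, isTranscendenceBasis_of_card (Fintype.card_fin _) hx0⟩
  choose y hy using hyx
  choose m hm ω hω hω0 f hf hff using ha
  have hX := tb_nX hcomp hdim hy
  have hg0 : ∀ i, coef (hy i) (m i) (ω i) ≠ 0 := fun i h0 => hω0 i (by
    rw [eq_coef_smul (hy i) (m i) (ω i), h0, zero_smul])
  set g : ∀ i, Y i := fun i => coef (hy i) (m i) (ω i) with hg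
  have hgm : ∀ i, g i ∈ CoefSec (M i) (fun j => S j i) (y i) (m i) (fun _ => m i) := fun i =>
    (mem_pluriSections_iff (hy i) _).1 (hω i)
  set n := ∏ i, m i with hn
  have hn1 : 1 ≤ n := Nat.one_le_iff_ne_zero.2 (Finset.prod_ne_zero_iff.2 fun i _ => by
    have := hm i
    omega)
  have hp : ∀ i, ∃ p, (p + 1) * m i = n := fun i => by
    obtain ⟨c, hc⟩ : m i ∣ n := Finset.dvd_prod_of_mem m (Finset.mem_univ i)
    have hc0 : c ≠ 0 := by rintro rfl; rw [mul_zero] at hc; omega
    obtain ⟨p, rfl⟩ := Nat.exists_eq_succ_of_ne_zero hc0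
    exact ⟨p, by rw [hc, mul_comm]⟩
  choose p hp using hp
  have hG : ∀ i, g i ^ (p i + 1) ∈ CoefSec (M i) (fun j => S j i) (y i) n (fun _ => n) := fun i => by
    have := coefSec_pow (hp i) (hgm i) (u := 1) (by rw [one_mul]; exact hgm i)
    rwa [one_mul] at this
  set v : Z := ∏ i, algebraMap (Y i) Z (g i ^ (p i + 1)) with hv
  have hv0 : v ≠ 0 := Finset.prod_ne_zero_iff.2 fun i _ => by
    rw [Ne, map_eq_zero]
    exact pow_ne_zero _ (hg0 i)
  have hvm : v ∈ CoefSec (prodN M hcomp hdim) (fun j => boxN (S j) hcomp hdim)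
      (nX hdim y) n (fun _ => n) := coefSec_N hcomp hdim hG
  have hind : AlgebraicIndependent k (sfam Z f) := indep_sigma (alg_of_comp hcomp) hdim hf
  let e : Fin (∑ i, a i) ≃ Σ i, Fin (a i) :=
    (Fintype.equivFinOfCardEq (by rw [Fintype.card_sigma]; simp)).symm
  refine ⟨n, hn1, v • pureForm k (fun _ => nX hdim y), ?_, ?_,
    sfam Z f ∘ e, hind.comp _ e.injective, fun l => ?_⟩
  · rw [mem_pluriSections_iff hX, map_smul, coef_self, smul_eq_mul, mul_one]
    exact hvm
  · intro h0
    have := congrArg (coef hX _) h0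
    rw [map_smul, coef_self, smul_eq_mul, mul_one, map_zero] at this
    exact hv0 this
  · rw [mem_pluriSections_iff hX, map_smul, map_smul, coef_self, smul_eq_mul, smul_eq_mul,
      mul_one, Function.comp_apply]
    obtain ⟨i, b⟩ := e l
    -- the form with one factor changed
    set G' : ∀ j, Y j := Function.update (fun j => g j ^ (p j + 1)) i (f i b * g i ^ (p i + 1))
      with hG'
    have h1 : ∀ j, G' j ∈ CoefSec (M j) (fun l => S l j) (y j) n (fun _ => n) := by
      intro j
      rcases eq_or_ne j i with rfl | hj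
      · rw [hG', Function.update_self]
        refine coefSec_pow (hp j) (hgm j) ?_
        have h2 := hff j b
        rwa [mem_pluriSections_iff (hy j), map_smul, smul_eq_mul] at h2
      · rw [hG', Function.update_of_ne hj]
        exact hG j
    have h3 := coefSec_N (Z := Z) hcomp hdim h1
    have h4 : ∏ j, algebraMap (Y j) Z (G' j) = sfam Z f ⟨i, b⟩ * v := by
      rw [hv, ← Finset.mul_prod_erase _ _ (Finset.mem_univ i),
        ← Finset.mul_prod_erase Finset.univ (fun j => algebraMap (Y j) Z (g j ^ (p j + 1)))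
          (Finset.mem_univ i), ← mul_assoc]
      congr 1
      · rw [hG', Function.update_self, map_mul]
        rfl
      · refine Finset.prod_congr rfl fun j hj => ?_
        rw [hG', Function.update_of_ne (Finset.ne_of_mem_erase hj)]
    rw [← h4]
    exact h3

theorem logKodairaDim_N (hcomp : IsComp k Y Z) (hdim : ∑ i, dimension k (Y i) = dimension k Z)
    [∀ i, Algebra.EssFiniteType k (Y i)] (S : J → ∀ i, LineBundle (M i)) :
    ∑ i, logKodairaDim (M i) (fun j => S j i) ≤
      logKodairaDim (prodN M hcomp hdim) (fun j => boxN (S j) hcomp hdim) := by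
  classical
  by_cases hbot : ∃ i, logKodairaDim (M i) (fun j => S j i) = ⊥
  · obtain ⟨i, hi⟩ := hbot
    have h1 : ∑ i, logKodairaDim (M i) (fun j => S j i) = ⊥ := by
      rw [← Finset.add_sum_erase _ _ (Finset.mem_univ i), hi, WithBot.bot_add]
    rw [h1]
    exact bot_le
  · push Not at hbot
    have h : ∀ i, ∃ a : ℕ, LogKodairaGE (M i) (fun j => S j i) a ∧
        logKodairaDim (M i) (fun j => S j i) = ((a : ℕ∞) : WithBot ℕ∞) := fun i => by
      rcases Twr.logKodairaDim_eq (M := M i) (fun j => S j i) with h | ⟨a, h, h'⟩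
      · exact absurd h (hbot i)
      · exact ⟨a, h, h'⟩
    choose a ha ha' using h
    have hsum : ∑ i, logKodairaDim (M i) (fun j => S j i) =
        (((∑ i, a i : ℕ) : ℕ∞) : WithBot ℕ∞) := by
      rw [Finset.sum_congr rfl fun i _ => ha' i]
      induction (Finset.univ : Finset ι) using Finset.induction_on with
      | empty => simp
      | insert i s hi ih =>
        rw [Finset.sum_insert hi, Finset.sum_insert hi, ih]
        push_cast
        rfl
    rw [hsum]
    exact le_iSup₂_of_le _ (logKodairaGE_N hcomp hdim ha) le_rfl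

/-- forms of nonnegative Kodaira dimension on the product -/
theorem pos_N (hcomp : IsComp k Y Z) (hdim : ∑ i, dimension k (Y i) = dimension k Z)
    [∀ i, Algebra.EssFiniteType k (Y i)] (S : J → ∀ i, LineBundle (M i))
    (hY : ∀ i, KodairaGE k (Y i) 0) :
    ∃ m : ℕ, 1 ≤ m ∧ ∃ ω ∈ pluriSections (prodN M hcomp hdim)
      (fun j => boxN (S j) hcomp hdim) m (fun _ => 0), ω ≠ 0 := by
  classical
  choose y hy using fun i => exists_tb k (Y i)
  choose m hm ω hω hω0 using fun i => Br.pos_of_kodaira (M i) (fun j => S j i) (hY i)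
  have hX := tb_nX hcomp hdim hy
  have hg0 : ∀ i, coef (hy i) (m i) (ω i) ≠ 0 := fun i h0 => hω0 i (by
    rw [eq_coef_smul (hy i) (m i) (ω i), h0, zero_smul])
  set g : ∀ i, Y i := fun i => coef (hy i) (m i) (ω i) with hg
  have hgm : ∀ i, g i ∈ CoefSec (M i) (fun j => S j i) (y i) (m i) (fun _ => 0) := fun i =>
    (mem_pluriSections_iff (hy i) _).1 (hω i)
  set n := ∏ i, m i with hn
  have hn1 : 1 ≤ n := Nat.one_le_iff_ne_zero.2 (Finset.prod_ne_zero_iff.2 fun i _ => by
    have := hm i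
    omega)
  have hp : ∀ i, ∃ p, p * m i = n := fun i => by
    obtain ⟨c, hc⟩ : m i ∣ n := Finset.dvd_prod_of_mem m (Finset.mem_univ i)
    exact ⟨c, by rw [hc, mul_comm]⟩
  choose p hp using hp
  have hG : ∀ i, g i ^ p i ∈ CoefSec (M i) (fun j => S j i) (y i) n (fun _ => 0) := fun i => by
    have h1 := CoefSec.pow (hgm i) (p i)
    rw [hp i] at h1
    simpa only [mul_zero] using h1
  have hvm := coefSec_N (Z := Z) hcomp hdim hG
  refine ⟨n, hn1, (∏ i, algebraMap (Y i) Z (g i ^ p i)) • pureForm k (fun _ => nX hdim y), ?_, ?_⟩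
  · rw [mem_pluriSections_iff hX, map_smul, coef_self, smul_eq_mul, mul_one]
    exact hvm
  · intro h0
    have := congrArg (coef hX _) h0
    rw [map_smul, coef_self, smul_eq_mul, mul_one, map_zero] at this
    refine absurd this (Finset.prod_ne_zero_iff.2 fun i _ => ?_)
    rw [Ne, map_eq_zero]
    exact pow_ne_zero _ (hg0 i)

end

end Pf72953.PF
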