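import Mathlib
import Pool.Agent.Lib.Pf72953k.NBad
import Pool.Agent.Lib.Pf72953k.NKun
import Pool.Agent.Lib.Pf72953k.Main

/-!
The product formula for the Kodaira dimension of a finite cover of a product of finitely many varieties: lower bound.
-/

set_option autoImplicit false
set_option linter.style.haveILetI false

open scoped WithZero
open Pf72953 Pf72953.Mov Pf72953.Up Pf72953.Br

namespace Pf72953.PF

section moving

variable {k Y : Type*} [Field k] [Field Y] [Algebra k Y] {M : SmoothModel k Y}

/-- the vector space of sections of a line bundle -/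
def secSub (S : LineBundle M) : Submodule k Y where
  carrier := S.sections
  add_mem' := fun {a b} ha hb i => by
    obtain ⟨f, hf, rfl⟩ := ha i
    obtain ⟨g, hg, h⟩ := hb i
    exact ⟨f + g, (M.A i).add_mem hf hg, by rw [h, add_mul]⟩
  zero_mem' := fun i => ⟨0, (M.A i).zero_mem, by rw [zero_mul]⟩
  smul_mem' := fun c a ha i => by
    obtain ⟨f, hf, h⟩ := ha i
    exact ⟨c • f, (M.A i).smul_mem hf c, by rw [h, smul_mul_assoc]⟩

theorem exists_moving (S : LineBundle M) {V Z Q β : Type*} [Field V] [Field Z] [Field Q]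
    [Algebra k V] [Algebra k Z] [Algebra V Z] [Algebra V Q] [Algebra Y Z] [Algebra Y Q] [Algebra Z Q]
    [IsScalarTower k V Z] [IsScalarTower k Y Z]
    [IsScalarTower V Z Q] [IsScalarTower Y Z Q] (b : β → V) (p : β →₀ Y)
    (hp : ∀ g, p g ∈ S.sections)
    (hne : (p.sum fun g y => algebraMap V Z (b g) * algebraMap Y Z y) ≠ 0) :
    ∃ E : MovingDivisor M V Q, E.S = S ∧
      E.sec = algebraMap Z Q (p.sum fun g y => algebraMap V Z (b g) * algebraMap Y Z y) := by
  classical
  set U : Submodule k Y := Submodule.span k (p '' (p.support : Set β)) with hU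
  have hUS : U ≤ secSub S := by
    rw [hU, Submodule.span_le]
    rintro _ ⟨g, -, rfl⟩
    exact hp g
  haveI : FiniteDimensional k U :=
    FiniteDimensional.span_of_finite k ((Finset.finite_toSet _).image _)
  have hpU : ∀ g, p g ∈ U := fun g => by
    by_cases hg : g ∈ p.support
    · exact Submodule.subset_span ⟨g, hg, rfl⟩
    · rw [Finsupp.notMem_support_iff.1 hg]
      exact U.zero_mem
  let e := Module.finBasis k U
  -- the coefficients
  let a : Fin (Module.finrank k U) → V := fun l =>
    ∑ g ∈ p.support, e.repr ⟨p g, hpU g⟩ l • b g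
  have hsum : (p.sum fun g y => algebraMap V Z (b g) * algebraMap Y Z y) =
      ∑ l, algebraMap V Z (a l) * algebraMap Y Z (e l : Y) := by
    have h1 : ∀ g, p g = ∑ l, e.repr ⟨p g, hpU g⟩ l • (e l : Y) := fun g => by
      have h2 := congrArg U.subtype (e.sum_repr ⟨p g, hpU g⟩)
      rw [map_sum] at h2
      exact h2.symm
    rw [Finsupp.sum]
    calc ∑ g ∈ p.support, algebraMap V Z (b g) * algebraMap Y Z (p g)
        = ∑ g ∈ p.support, ∑ l, algebraMap V Z (e.repr ⟨p g, hpU g⟩ l • b g) *
            algebraMap Y Z (e l : Y) := by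
          refine Finset.sum_congr rfl fun g _ => ?_
          conv_lhs => rw [h1 g]
          rw [map_sum, Finset.mul_sum]
          refine Finset.sum_congr rfl fun l _ => ?_
          rw [Algebra.smul_def, Algebra.smul_def, map_mul, map_mul,
            ← IsScalarTower.algebraMap_apply k Y Z, ← IsScalarTower.algebraMap_apply k V Z]
          ring
      _ = _ := by
          rw [Finset.sum_comm]
          refine Finset.sum_congr rfl fun l _ => ?_
          rw [map_sum, Finset.sum_mul]
  have hr : Module.finrank k U ≠ 0 := by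
    intro h0
    apply hne
    rw [hsum]
    refine Finset.sum_eq_zero fun l _ => ?_
    exact absurd l.2 (by omega)
  obtain ⟨r, hr'⟩ := Nat.exists_eq_succ_of_ne_zero hr
  let f : Fin (r + 1) ≃ Fin (Module.finrank k U) := finCongr hr'.symm
  have hsum' : (p.sum fun g y => algebraMap V Z (b g) * algebraMap Y Z y) =
      ∑ l, algebraMap V Z (a (f l)) * algebraMap Y Z (e (f l) : Y) := by
    rw [hsum, ← Equiv.sum_comp f]
  refine ⟨⟨S, r, fun l => (e (f l) : Y), fun l => algebraMap V Q (a (f l)), fun l =>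
    hUS (e (f l)).2, ?_, fun l => isAlgebraic_algebraMap _, ?_⟩, rfl, ?_⟩
  · have h1 : LinearIndependent k (fun l => (e l : Y)) :=
      e.linearIndependent.map' U.subtype (Submodule.ker_subtype _)
    exact h1.comp f f.injective
  · by_contra hcon
    push Not at hcon
    apply hne
    rw [hsum']
    refine Finset.sum_eq_zero fun l _ => ?_
    have h1 : a (f l) = 0 := by simpa using hcon l
    rw [h1, map_zero, zero_mul]
  · change ∑ l, algebraMap V Q (a (f l)) * algebraMap Y Q (e (f l) : Y) = _
    rw [hsum', map_sum]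
    refine Finset.sum_congr rfl fun l _ => ?_
    rw [map_mul, ← IsScalarTower.algebraMap_apply V Z Q, ← IsScalarTower.algebraMap_apply Y Z Q]

end moving

section defs

variable {k Z : Type*} {ι : Type} {Y : ι → Type*} [Field k] [CharZero k] [∀ i, Field (Y i)]
  [Field Z] [∀ i, Algebra k (Y i)] [Algebra k Z] [∀ i, Algebra (Y i) Z]
  [∀ i, IsScalarTower k (Y i) Z] [Algebra.EssFiniteType k Z] [Fintype ι]

/-- a nonzero section of a line bundle `S₁ ⊠ ⋯ ⊠ Sₙ` on the product of the varieties `M i` -/
structure BoxSection (M : ∀ i, SmoothModel k (Y i)) (hcomp : IsComp k Y Z)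
    (hdim : ∑ i, dimension k (Y i) = dimension k Z) where
  /-- the line bundles on the factors -/
  S : ∀ i, LineBundle (M i)
  /-- the section -/
  σ : Z
  mem : σ ∈ (boxN S hcomp hdim).sections
  ne : σ ≠ 0

/-- Every prime divisor of the product of the varieties `M i` over which `Q` is ramified is the support of the divisor of
a section of a line bundle of the form `S₁ ⊠ ⋯ ⊠ Sₙ`.  (This is automatic if `q(M i) = 0` for all `i` except possibly
one, since then all line bundles on the product are of this form.)  Precisely: for every divisorial valuation `w` of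
`Q/k` over a prime divisor of the chart `c` of the product (`Br.PrimeAt`) at which `Q/Z` is ramified, there is such a section
which vanishes at `w`, and every divisorial valuation `w'` over a prime divisor of the product at which it
vanishes has the same restriction to `Z` as `w`. -/
def NMoves (M : ∀ i, SmoothModel k (Y i)) (Q : Type*) [Field Q] [Algebra k Q] [Algebra Z Q]
    (hcomp : IsComp k Y Z) (hdim : ∑ i, dimension k (Y i) = dimension k Z) : Prop :=
  ∀ (c : ∀ i, (M i).I) (w : Valuation Q ℤᵐ⁰), Bad k (prodN M hcomp hdim) k Z c w →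
    ∃ D : BoxSection M hcomp hdim,
      w (algebraMap Z Q D.σ) < w (algebraMap Z Q ((boxN D.S hcomp hdim).gen c)) ∧
      ∀ (w' : Valuation Q ℤᵐ⁰) (c' : ∀ i, (M i).I), IsDivisorial k Q w' →
        PrimeAt (prodN M hcomp hdim) k Z c' w' →
        w' (algebraMap Z Q D.σ) < w' (algebraMap Z Q ((boxN D.S hcomp hdim).gen c')) →
        ∀ z : Z, w' (algebraMap Z Q z) ≤ 1 ↔ w (algebraMap Z Q z) ≤ 1

end defs

section main

variable {k Z Q : Type*} {ι : Type} {Y V : ι → Type*} [Field k] [CharZero k]
  [∀ i, Field (Y i)] [∀ i, Field (V i)] [Field Z] [Field Q]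
  [∀ i, Algebra k (V i)] [∀ i, Algebra k (Y i)] [Algebra k Z]
  [Algebra k Q] [∀ i, Algebra (V i) Z] [∀ i, Algebra (V i) Q] [∀ i, Algebra (Y i) Z]
  [∀ i, Algebra (Y i) Q]
  [Algebra Z Q] [∀ i, IsScalarTower k (V i) Z] [∀ i, IsScalarTower k (V i) Q]
  [∀ i, IsScalarTower k (Y i) Z]
  [∀ i, IsScalarTower k (Y i) Q] [IsScalarTower k Z Q] [∀ i, IsScalarTower (V i) Z Q]
  [∀ i, IsScalarTower (Y i) Z Q] [∀ i, Algebra.EssFiniteType k (V i)]
  [∀ i, Algebra.EssFiniteType k (Y i)] [Algebra.EssFiniteType k Z]
  [FiniteDimensional Z Q] [Fintype ι] {M : ∀ i, SmoothModel k (Y i)}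

/-- the data of the product of the varieties `M j`, `j ≠ i` -/
structure IsRest (k Z : Type*) {ι : Type} (Y : ι → Type*) (V : Type*) [Field k] [∀ i, Field (Y i)]
    [Field V] [Field Z] [∀ i, Algebra k (Y i)] [Algebra k V] [Algebra k Z] [Algebra V Z]
    [∀ i, Algebra (Y i) Z] (i : ι) : Prop where
  comp : Twr.IsCompositum k V (Y i) Z
  dim : dimension k V + dimension k (Y i) = dimension k Z
  left : ∀ j, j ≠ i → ∀ y : Y j, ∃ b : V, algebraMap V Z b = algebraMap (Y j) Z y
  mem : ∀ b : V, algebraMap V Z b ∈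
    IntermediateField.adjoin k (⋃ (j) (_ : j ≠ i), Set.range (algebraMap (Y j) Z))
  gen : ∀ z ∈ IntermediateField.adjoin k (⋃ (j) (_ : j ≠ i), Set.range (algebraMap (Y j) Z)),
    ∃ b : V, algebraMap V Z b = z

omit [∀ i, Algebra k (V i)] [∀ i, Algebra (V i) Z] [∀ i, Algebra (V i) Q]
  [∀ i, IsScalarTower k (V i) Z] [∀ i, IsScalarTower k (V i) Q]
  [∀ i, IsScalarTower (V i) Z Q] [∀ i, Field (V i)] [∀ i, Algebra.EssFiniteType k (V i)]
  [∀ i, Algebra.EssFiniteType k (Y i)] in
theorem exists_nCover [IsGalois Z Q]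
    (hcomp : IsComp k Y Z) (hdim : ∑ i, dimension k (Y i) = dimension k Z)
    (hmv : NMoves M Q hcomp hdim) :
    ∃ (n : ℕ) (D : Fin n → BoxSection M hcomp hdim),
      (∀ j, ∃ (c : ∀ i, (M i).I) (w : Valuation Q ℤᵐ⁰), Bad k (prodN M hcomp hdim) k Z c w ∧
        w (algebraMap Z Q (D j).σ) < w (algebraMap Z Q ((boxN (D j).S hcomp hdim).gen c)) ∧
        ∀ (w' : Valuation Q ℤᵐ⁰) (c' : ∀ i, (M i).I), IsDivisorial k Q w' →
          PrimeAt (prodN M hcomp hdim) k Z c' w' →
          w' (algebraMap Z Q (D j).σ) < w' (algebraMap Z Q ((boxN (D j).S hcomp hdim).gen c')) →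
          ∀ z : Z, w' (algebraMap Z Q z) ≤ 1 ↔ w (algebraMap Z Q z) ≤ 1) ∧
      ∀ (c : ∀ i, (M i).I) (w : Valuation Q ℤᵐ⁰), Bad k (prodN M hcomp hdim) k Z c w →
        ∃ j, w (algebraMap Z Q (D j).σ) <
          w (algebraMap Z Q ((boxN (D j).S hcomp hdim).gen c)) := by
  obtain ⟨n, T, I, hT, hfin⟩ := exists_finite_conj (k := k) (B := k) (Z := Z) (P := Q)
    (prodN M hcomp hdim) (fun i => (prodN M hcomp hdim).tb i)
    (fun z => IntermediateField.subset_adjoin k _ ⟨z, rfl⟩)
  choose D hD1 hD2 using fun j => hmv (I j) (T j) (hT j)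
  refine ⟨n, D, fun j => ⟨I j, T j, hT j, hD1 j, hD2 j⟩, ?_⟩
  intro i w hw
  obtain ⟨j, hj⟩ := hfin i w hw
  have heq : w.IsEquiv (T j) := by
    rw [Valuation.isEquiv_iff_val_le_one]
    intro x
    exact hj x
  refine ⟨j, ?_⟩
  have h1 : w (algebraMap Z Q ((boxN (D j).S hcomp hdim).gen (I j))) =
      w (algebraMap Z Q ((boxN (D j).S hcomp hdim).gen i)) :=
    (boxN (D j).S hcomp hdim).compat (I j) i (w.comap (algebraMap Z Q))
      (fun f hf => (hj _).2 ((hT j).prime.center f hf)) (fun f hf => hw.prime.center f hf)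
  rw [← h1, ← not_le]
  intro hcon
  exact absurd (hD1 j) (not_lt.2 ((heq _ _).1 hcon))

variable [IsAlgClosed k]

/-- a section of a box product as a moving divisor on one of the factors -/
theorem exists_factor (hcomp : IsComp k Y Z) (hdim : ∑ i, dimension k (Y i) = dimension k Z)
    (D : BoxSection M hcomp hdim) (i : ι) (hV : IsRest k Z Y (V i) i) :
    ∃ E : MovingDivisor (M i) (V i) Q, E.S = D.S i ∧ E.sec = algebraMap Z Q D.σ := by
  classical
  haveI : CharZero (V i) := charZero_of_injective_algebraMap (algebraMap k (V i)).injective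
  have hex : ∀ j, ∃ _ : (M j).I, True := fun j => by
    obtain ⟨i, -⟩ := (M j).cover 1
      (fun c hc => Valuation.one_apply_of_ne_zero (by simpa using hc))
    exact ⟨i, trivial⟩
  choose c₀ _ using hex
  haveI : Nonempty (M i).I := ⟨c₀ i⟩
  set b := Module.Basis.ofVectorSpace k (V i) with hb
  have hxV := tb_over hV.dim (alg_of_compositum hV.comp) ((M i).tb (c₀ i))
  have hlin := linearIndependent_const ((M i).tb (c₀ i)) hxV b.linearIndependent
  have hP : ∀ c : (M i).I, ∃ f ∈ bc (V i) Z ((M i).A c),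
      D.σ = f * algebraMap (Y i) Z ((D.S i).gen c) := by
    intro c
    set c' : ∀ j, (M j).I := Function.update c₀ i c with hc'
    obtain ⟨f, hf, hσ⟩ := D.mem c'
    have hgen : (boxN D.S hcomp hdim).gen c' =
        (∏ j ∈ Finset.univ.erase i, algebraMap (Y j) Z ((D.S j).gen (c' j))) *
          algebraMap (Y i) Z ((D.S i).gen c) := by
      change ∏ j, algebraMap (Y j) Z ((D.S j).gen (c' j)) = _
      rw [← Finset.prod_erase_mul _ _ (Finset.mem_univ i)]
      congr 3
      rw [hc', Function.update_self]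
    refine ⟨f * ∏ j ∈ Finset.univ.erase i, algebraMap (Y j) Z ((D.S j).gen (c' j)),
      Subalgebra.mul_mem _ ?_ (Subalgebra.prod_mem _ fun j hj => ?_), ?_⟩
    · -- the chart of the product is contained in the base change of the chart of the factor
      have h1 : (nA Z fun j => (M j).A (c' j)) ≤
          (bc (V i) Z ((M i).A c)).restrictScalars k := by
        refine Algebra.adjoin_le ?_
        intro z hz
        obtain ⟨j, y, hy, rfl⟩ := Set.mem_iUnion.1 hz
        by_cases hj : j = i
        · subst hj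
          refine Algebra.subset_adjoin ⟨y, ?_, rfl⟩
          rw [hc'] at hy
          change y ∈ (M j).A (Function.update c₀ j c j) at hy
          rwa [Function.update_self] at hy
        · obtain ⟨v, hv⟩ := hV.left j hj y
          rw [← hv]
          exact Subalgebra.algebraMap_mem (bc (V i) Z ((M i).A c)) v
      exact h1 hf
    · obtain ⟨v, hv⟩ := hV.left j (Finset.ne_of_mem_erase hj) ((D.S j).gen (c' j))
      rw [← hv]
      exact Subalgebra.algebraMap_mem (bc (V i) Z ((M i).A c)) v
    · rw [hσ, hgen, mul_assoc]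
  obtain ⟨p, hp, hpS⟩ := descent b hlin (fun c => (M i).A c) (fun c => (D.S i).gen c) hP
  have hne : (p.sum fun g y => algebraMap (V i) Z (b g) * algebraMap (Y i) Z y) ≠ 0 := by
    rw [← hp]
    exact D.ne
  obtain ⟨E, hE, hE'⟩ := exists_moving (Q := Q) (D.S i) (fun g => b g) p
    (fun g c => hpS c g) hne
  exact ⟨E, hE, by rw [hE', ← hp]⟩

/-- **The product formula**, lower bound. -/
theorem main_N [IsGalois Z Q] (hcomp : IsComp k Y Z)
    (hdim : ∑ i, dimension k (Y i) = dimension k Z) (hV : ∀ i, IsRest k Z Y (V i) i)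
    (hY : ∀ i, kodairaDim k (Y i) ≠ ⊥) (hmv : NMoves M Q hcomp hdim) :
    ∑ i, kodairaDim (V i) Q ≤ kodairaDim k Q := by
  classical
  obtain ⟨n, D, hbr, hcov⟩ := exists_nCover hcomp hdim hmv
  have hex : ∀ j, ∃ _ : (M j).I, True := fun j => by
    obtain ⟨i, -⟩ := (M j).cover 1
      (fun c hc => Valuation.one_apply_of_ne_zero (by simpa using hc))
    exact ⟨i, trivial⟩
  choose c₀ _ using hex
  -- over `V i`
  have hup : ∀ i, kodairaDim (V i) Q ≤ logKodairaDim (M i) (fun j => (D j).S i) := by
    intro i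
    choose E hES hE using fun j => exists_factor (Q := Q) hcomp hdim (D j) i (hV i)
    have h1 : (fun j => (D j).S i) = fun j => (E j).S := funext fun j => (hES j).symm
    rw [h1]
    refine upper_cover (hV i).comp (hV i).dim E fun c w hw => ?_
    set c' : ∀ j, (M j).I := Function.update c₀ i c with hc'
    have hci : c' i = c := by rw [hc', Function.update_self]
    obtain ⟨j, hj⟩ := hcov c' w (bad_N M hcomp hdim i (hV i).comp (hV i).dim (hV i).left
      (hV i).mem (hV i).gen (by rw [hci]; exact hw))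
    refine ⟨j, ?_⟩
    rw [hE j]
    refine hj.trans_le (le_of_eq ?_)
    change w (algebraMap Z Q (∏ l, algebraMap (Y l) Z (((D j).S l).gen (c' l)))) = _
    rw [map_prod, map_prod, ← Finset.mul_prod_erase _ _ (Finset.mem_univ i),
      Finset.prod_eq_one, mul_one, hci, ← IsScalarTower.algebraMap_apply (Y i) Z Q, hES j]
    intro l hl
    obtain ⟨v, hv⟩ := (hV i).left l (Finset.ne_of_mem_erase hl) (((D j).S l).gen (c' l))
    rw [← hv, ← IsScalarTower.algebraMap_apply (V i) Z Q]
    refine hw.triv v ?_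
    rintro rfl
    rw [map_zero] at hv
    have h2 := ((D j).S l).ne (c' l)
    exact h2 ((map_eq_zero (algebraMap (Y l) Z)).1 hv.symm)
  -- over `k`
  have hk : logKodairaDim (prodN M hcomp hdim)
      (fun j => boxN (D j).S hcomp hdim) ≤ kodairaDim k Q := by
    let E : Fin n → MovingDivisor (prodN M hcomp hdim) k Q := fun j =>
      { S := boxN (D j).S hcomp hdim
        r := 0
        s := fun _ => (D j).σ
        a := fun _ => 1
        s_mem := fun _ => (D j).mem
        s_indep := by
          haveI : Subsingleton (Fin (0 + 1)) := inferInstanceAs (Subsingleton (Fin 1))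
          exact LinearIndependent.of_subsingleton (0 : Fin 1) (D j).ne
        a_alg := fun _ => isAlgebraic_one
        a_ne := ⟨0, one_ne_zero⟩ }
    have hsec : ∀ j, (E j).sec = algebraMap Z Q (D j).σ := fun j => by
      change ∑ _l : Fin (0 + 1), (1 : Q) * algebraMap Z Q (D j).σ = _
      rw [Finset.sum_const, Finset.card_univ, Fintype.card_fin, one_mul, zero_add, one_smul]
    refine lower_cover E (fun j => ?_)
      (pos_N hcomp hdim (fun j => (D j).S) (fun i => ge_zero (hY i)))
    obtain ⟨i, w, hw, hlt, hsupp⟩ := hbr j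
    refine ⟨i, w, hw, ?_, fun w' i' hw' _ hp hlt' z => ?_⟩
    · rw [hsec]
      exact hlt
    · rw [hsec] at hlt'
      exact hsupp w' i' hw' hp hlt' z
  calc ∑ i, kodairaDim (V i) Q
      ≤ ∑ i, logKodairaDim (M i) (fun j => (D j).S i) := Finset.sum_le_sum fun i _ => hup i
    _ ≤ _ := logKodairaDim_N hcomp hdim (fun j => (D j).S)
    _ ≤ kodairaDim k Q := hk

end main

end Pf72953.PF
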