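import Mathlib
import Pool.Agent.Lib.Pf72953j.Glue
import Pool.Agent.Lib.Pf72953k.NMain
import Pool.Agent.Lib.Pf72953r.SubFG

/-!
Finite covers of products of varieties, for subfields of a field `Q`.
-/

set_option autoImplicit false
set_option linter.style.haveILetI false

open scoped WithZero
open Pf72953 Pf72953.Mov Pf72953.Br

namespace Pf72953.PF

section defs

variable {k Q : Type*} [Field k] [Field Q] [Algebra k Q] {ι : Type}

theorem tower_incl {A B : IntermediateField k Q} (h : A ≤ B) :
    letI : Algebra A B := (IntermediateField.inclusion h).toRingHom.toAlgebra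
    IsScalarTower k A B :=
  letI : Algebra A B := (IntermediateField.inclusion h).toRingHom.toAlgebra
  IsScalarTower.of_algebraMap_eq fun _ => rfl

theorem tower_incl' {A B : IntermediateField k Q} (h : A ≤ B) :
    letI : Algebra A B := (IntermediateField.inclusion h).toRingHom.toAlgebra
    IsScalarTower A B Q :=
  letI : Algebra A B := (IntermediateField.inclusion h).toRingHom.toAlgebra
  IsScalarTower.of_algebraMap_eq fun _ => rfl

theorem coe_incl {A B : IntermediateField k Q} (h : A ≤ B) (y : A) :
    letI : Algebra A B := (IntermediateField.inclusion h).toRingHom.toAlgebra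
    ((algebraMap A B y : B) : Q) = y := rfl

/-- the compositum of the fields `Y i` -/
def total (Y : ι → IntermediateField k Q) : IntermediateField k Q := ⨆ i, Y i

/-- the compositum of the fields `Y j`, `j ≠ i` -/
def others (Y : ι → IntermediateField k Q) (i : ι) : IntermediateField k Q :=
  ⨆ (j) (_ : j ≠ i), Y j

variable (Y T : ι → IntermediateField k Q)

theorem le_total (i : ι) : Y i ≤ total Y := le_iSup Y i

theorem others_le (i : ι) : others Y i ≤ total Y := iSup₂_le fun j _ => le_iSup Y j

variable {Y} in
theorem le_others {i j : ι} (h : j ≠ i) : Y j ≤ others Y i := le_iSup₂_of_le j h le_rfl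

theorem total_eq (i : ι) : total Y = Y i ⊔ others Y i := iSup_split_single Y i

variable {Y T} in
theorem others_congr {i : ι} (h : ∀ j, j ≠ i → Y j = T j) : others Y i = others T i :=
  iSup_congr fun j => iSup_congr fun hj => h j hj

variable {Y} in
theorem total_le {A : IntermediateField k Q} (h : ∀ i, Y i ≤ A) : total Y ≤ A := iSup_le h

variable {Y} in
theorem others_le' {A : IntermediateField k Q} {i : ι} (h : ∀ j, j ≠ i → Y j ≤ A) :
    others Y i ≤ A := iSup₂_le h

attribute [irreducible] total others

noncomputable instance algTotal (i : ι) : Algebra (Y i) (total Y) :=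
  (IntermediateField.inclusion (le_total Y i)).toRingHom.toAlgebra

noncomputable instance algOthers (i : ι) : Algebra (others Y i) (total Y) :=
  (IntermediateField.inclusion (others_le Y i)).toRingHom.toAlgebra

theorem coe_total (i : ι) (y : Y i) : ((algebraMap (Y i) (total Y) y : total Y) : Q) = y :=
  coe_incl (le_total Y i) y

theorem coe_others (i : ι) (y : others Y i) :
    ((algebraMap (others Y i) (total Y) y : total Y) : Q) = y :=
  coe_incl (others_le Y i) y

instance towerTotal (i : ι) : IsScalarTower k (Y i) (total Y) := tower_incl (le_total Y i)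

instance towerTotalQ (i : ι) : IsScalarTower (Y i) (total Y) Q := tower_incl' (le_total Y i)

instance towerOthers (i : ι) : IsScalarTower k (others Y i) (total Y) :=
  tower_incl (others_le Y i)

instance towerOthersQ (i : ι) : IsScalarTower (others Y i) (total Y) Q :=
  tower_incl' (others_le Y i)

instance fgSub [Algebra.EssFiniteType k Q] (A : IntermediateField k Q) : Algebra.EssFiniteType k A :=
  Red.essFiniteType_sub k A Q

variable {Y} in
/-- elements of the compositum of subfields of `Z` -/
theorem mem_adjoin_of {Z : IntermediateField k Q} {S : Set Z} {A : IntermediateField k Q}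
    (hA : A ≤ (IntermediateField.adjoin k S).map Z.val) {z : Z} (hz : (z : Q) ∈ A) :
    z ∈ IntermediateField.adjoin k S := by
  obtain ⟨y, hy, hyz⟩ := hA hz
  have : y = z := Subtype.ext hyz
  rwa [← this]

/-- the compositum of the `Y i` -/
theorem isComp_total : IsComp k (fun i => Y i) (total Y) := by
  intro z
  refine mem_adjoin_of (A := total Y) (total_le fun i y hy => ?_) z.2
  exact ⟨algebraMap (Y i) (total Y) ⟨y, hy⟩, IntermediateField.subset_adjoin _ _
    (Set.mem_iUnion.2 ⟨i, _, rfl⟩), rfl⟩

end defs

section dims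

variable {k Q : Type*} [Field k] [Field Q] [Algebra k Q] [Algebra.EssFiniteType k Q] {ι : Type}
  [Fintype ι] {Y T : ι → IntermediateField k Q}

/-- the dimension of a subfield -/
noncomputable def dm (A : IntermediateField k Q) : ℕ := dimension k A

theorem dm_sup_le (A B : IntermediateField k Q) : dm (A ⊔ B) ≤ dm A + dm B :=
  Tow.dim_sup_le (fgSub A) (fgSub B)

theorem dm_submod {A A' : IntermediateField k Q} (B : IntermediateField k Q) (h : A' ≤ A) :
    dm (A ⊔ B) + dm A' ≤ dm A + dm (A' ⊔ B) :=
  Tow.dim_submod (fgSub A) (fgSub B) h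

omit [Algebra.EssFiniteType k Q] in
theorem dm_bot : dm (⊥ : IntermediateField k Q) = 0 := Tow.dim_bot

/-- change some of the members of a family -/
def mix [DecidableEq ι] (Y T : ι → IntermediateField k Q) (s : Finset ι) :
    ι → IntermediateField k Q := fun j => if j ∈ s then T j else Y j

omit [Algebra.EssFiniteType k Q] [Fintype ι] in
theorem mix_mem [DecidableEq ι] {s : Finset ι} {j : ι} (h : j ∈ s) : mix Y T s j = T j := if_pos h

omit [Algebra.EssFiniteType k Q] [Fintype ι] in
theorem mix_not [DecidableEq ι] {s : Finset ι} {j : ι} (h : j ∉ s) : mix Y T s j = Y j := if_neg h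

omit [Algebra.EssFiniteType k Q] [Fintype ι] in
theorem mix_le [DecidableEq ι] (hT : ∀ i, T i ≤ Y i) (s : Finset ι) (j : ι) : mix Y T s j ≤ Y j := by
  by_cases h : j ∈ s
  · rw [mix_mem h]
    exact hT j
  · rw [mix_not h]

omit [Algebra.EssFiniteType k Q] [Fintype ι] in
theorem mix_empty [DecidableEq ι] : mix Y T ∅ = Y := funext fun j => mix_not (Finset.notMem_empty j)

omit [Algebra.EssFiniteType k Q] in
theorem mix_univ [DecidableEq ι] : mix Y T Finset.univ = T := funext fun j => mix_mem (Finset.mem_univ j)

omit [Algebra.EssFiniteType k Q] [Fintype ι] in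
theorem total_mix_insert [DecidableEq ι] {s : Finset ι} (a : ι) :
    total (mix Y T (insert a s)) = T a ⊔ others (mix Y T s) a := by
  rw [total_eq _ a, mix_mem (Finset.mem_insert_self a s)]
  congr 1
  refine others_congr fun j hj => ?_
  by_cases h : j ∈ s
  · rw [mix_mem h, mix_mem (Finset.mem_insert_of_mem h)]
  · rw [mix_not h, mix_not (by simp [hj, h])]

omit [Algebra.EssFiniteType k Q] [Fintype ι] in
theorem total_mix [DecidableEq ι] {s : Finset ι} {a : ι} (h : a ∉ s) :
    total (mix Y T s) = Y a ⊔ others (mix Y T s) a := by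
  rw [total_eq _ a, mix_not h]

theorem dm_total_le (T : ι → IntermediateField k Q) : dm (total T) ≤ ∑ j, dm (T j) := by
  classical
  have key : ∀ s : Finset ι, dm (total (mix (fun _ => ⊥) T s)) ≤ ∑ j ∈ s, dm (T j) := by
    intro s
    induction s using Finset.induction_on with
    | empty =>
      have h : total (mix (fun _ => (⊥ : IntermediateField k Q)) T ∅) = ⊥ := by
        rw [mix_empty, eq_bot_iff]
        exact total_le fun _ => le_rfl
      rw [h, dm_bot]
      exact Nat.zero_le _
    | insert a s ha ih =>
      rw [total_mix_insert, Finset.sum_insert ha]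
      rw [total_mix ha, bot_sup_eq] at ih
      exact (dm_sup_le _ _).trans (Nat.add_le_add_left ih _)
  have h := key Finset.univ
  rwa [mix_univ] at h

/-- subfields of algebraically independent fields are algebraically independent -/
theorem dm_mono (hdim : ∑ i, dm (Y i) = dm (total Y)) (hT : ∀ i, T i ≤ Y i) :
    ∑ i, dm (T i) = dm (total T) := by
  classical
  refine le_antisymm ?_ (dm_total_le T)
  -- change the members one at a time
  have key : ∀ s : Finset ι, dm (total Y) + ∑ j ∈ s, dm (T j) ≤
      ∑ j ∈ s, dm (Y j) + dm (total (mix Y T s)) := by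
    intro s
    induction s using Finset.induction_on with
    | empty => rw [mix_empty]; simp
    | insert a s ha ih =>
      rw [Finset.sum_insert ha, Finset.sum_insert ha, total_mix_insert]
      rw [total_mix ha] at ih
      have h3 := dm_submod (others (mix Y T s) a) (hT a)
      omega
  have h := key Finset.univ
  rw [mix_univ, hdim] at h
  omega

omit [Algebra.EssFiniteType k Q] in
theorem total_bot_mix [DecidableEq ι] (T : ι → IntermediateField k Q) (i : ι) :
    total (mix T (fun _ => ⊥) {i}) = others T i := by
  have h := total_mix_insert (Y := T) (T := fun _ => (⊥ : IntermediateField k Q)) (s := ∅) i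
  rw [mix_empty, bot_sup_eq] at h
  exact h

theorem dm_others (hdim : ∑ i, dm (Y i) = dm (total Y)) (i : ι) :
    dm (others Y i) + dm (Y i) = dm (total Y) := by
  classical
  have h1 := dm_mono (T := mix Y (fun _ => ⊥) {i}) hdim (mix_le (fun _ => bot_le) {i})
  rw [total_bot_mix, ← Finset.sum_erase_add _ _ (Finset.mem_univ i), mix_mem (by simp), dm_bot,
    add_zero] at h1
  rw [← h1, ← hdim, ← Finset.sum_erase_add _ _ (Finset.mem_univ i)]
  congr 1
  refine Finset.sum_congr rfl fun j hj => ?_
  rw [mix_not]
  simpa using Finset.ne_of_mem_erase hj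

omit [Algebra.EssFiniteType k Q] [Fintype ι] in
theorem others_le_adjoin (i : ι) : others Y i ≤ (IntermediateField.adjoin k
    (⋃ (j) (_ : j ≠ i), Set.range (algebraMap (Y j) (total Y)))).map (total Y).val := by
  refine others_le' fun j hj y hy => ?_
  refine ⟨algebraMap (Y j) (total Y) ⟨y, hy⟩, ?_, coe_total Y j ⟨y, hy⟩⟩
  exact IntermediateField.subset_adjoin _ _ (Set.mem_iUnion₂.2 ⟨j, hj, _, rfl⟩)

omit [Algebra.EssFiniteType k Q] [Fintype ι] in
theorem adjoin_le_others (i : ι) (z : total Y) (hz : z ∈ IntermediateField.adjoin k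
    (⋃ (j) (_ : j ≠ i), Set.range (algebraMap (Y j) (total Y)))) : (z : Q) ∈ others Y i := by
  have h1 : IntermediateField.adjoin k (⋃ (j) (_ : j ≠ i), Set.range (algebraMap (Y j) (total Y)))
      ≤ (others Y i).comap (total Y).val := by
    rw [IntermediateField.adjoin_le_iff]
    intro x hx
    obtain ⟨j, hj, y, rfl⟩ := Set.mem_iUnion₂.1 hx
    have h2 : (y : Q) ∈ others Y i := le_others hj y.2
    rw [← coe_total Y j y] at h2
    exact h2
  exact h1 hz

omit [Algebra.EssFiniteType k Q] [Fintype ι] in
theorem isCompositum (i : ι) : Twr.IsCompositum k (others Y i) (Y i) (total Y) := by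
  intro z
  have hz : (z : Q) ∈ Y i ⊔ others Y i := by
    rw [← total_eq]
    exact z.2
  refine mem_adjoin_of (sup_le (fun y hy => ?_) (fun y hy => ?_)) hz
  · exact ⟨algebraMap (Y i) (total Y) ⟨y, hy⟩, IntermediateField.subset_adjoin _ _
      (Or.inr ⟨_, rfl⟩), coe_total Y i ⟨y, hy⟩⟩
  · exact ⟨algebraMap (others Y i) (total Y) ⟨y, hy⟩, IntermediateField.subset_adjoin _ _
      (Or.inl ⟨_, rfl⟩), coe_others Y i ⟨y, hy⟩⟩

/-- the compositum of the `Y j`, `j ≠ i` -/
theorem isRest (hdim : ∑ i, dimension k (Y i) = dimension k (total Y)) (i : ι) :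
    IsRest k (total Y) (fun i => Y i) (others Y i) i where
  comp := isCompositum i
  dim := dm_others hdim i
  left := fun j hj y => by
    refine ⟨⟨y, le_others hj y.2⟩, Subtype.ext ?_⟩
    rw [coe_others, coe_total]
  mem := fun b => by
    refine mem_adjoin_of (others_le_adjoin i) ?_
    rw [coe_others]
    exact b.2
  gen := fun z hz => by
    refine ⟨⟨z, adjoin_le_others i z hz⟩, Subtype.ext ?_⟩
    rw [coe_others]

end dims

section kod

variable {k Q : Type*} [Field k] [CharZero k] [Field Q] [Algebra k Q] [Algebra.EssFiniteType k Q]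

open scoped Pf72953.Tow in
/-- `κ(Q/F) ≤ κ(Q/X) + κ(Q/X')` -/
theorem kod_sub {F X X' : IntermediateField k Q} (hFX : F ≤ X) (hFY : F ≤ X')
    (hdim : dimension k X + dimension k X' =
      dimension k (X ⊔ X' : IntermediateField k Q) + dimension k F) :
    kodairaDim F Q ≤ kodairaDim X Q + kodairaDim X' Q := by
  haveI f1 : Fact (F ≤ X) := ⟨hFX⟩
  haveI f2 : Fact (F ≤ X') := ⟨hFY⟩
  haveI f5 : Fact (X ≤ X ⊔ X') := ⟨le_sup_left⟩
  haveI f6 : Fact (X' ≤ X ⊔ X') := ⟨le_sup_right⟩
  haveI f8 : Fact (F ≤ X ⊔ X') := ⟨hFX.trans le_sup_left⟩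
  haveI : CharZero F := charZero_of_injective_algebraMap (algebraMap k F).injective
  haveI : Algebra.EssFiniteType F Q := Algebra.EssFiniteType.of_comp k F Q
  haveI : Algebra.EssFiniteType F X := Algebra.EssFiniteType.of_comp k F X
  haveI : Algebra.EssFiniteType F X' := Algebra.EssFiniteType.of_comp k F X'
  have e1 := Tow.dim_add (A := F) (B := X) (fgSub X)
  have e2 := Tow.dim_add (A := F) (B := X') (fgSub X')
  have e3 := Tow.dim_add (A := F) (B := X ⊔ X') (fgSub _)
  refine Bi.kodairaDim_le_add (k := F) (B := X) (Y := X')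
    (Z := (X ⊔ X' : IntermediateField k Q)) (E := Q) (by omega) ?_
  intro a
  have h1 := Tow.alg_sup (A := X) (B := X') (Q := (X ⊔ X' : IntermediateField k Q))
    (fun x hx => Tow.alg_of_mem hx) a
  exact Tow.alg_adjoin_up h1

end kod

end Pf72953.PF
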