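import Mathlib
import Pool.Agent.Lib.Pf72953k.NInt
import Pool.Agent.Lib.Pf72953g.Upper

/-!
Finite covers of products of varieties: the product formula and the reduction of Iitaka's inequality to the factors.
-/

set_option autoImplicit false
set_option linter.style.haveILetI false

open scoped WithZero
open Pf72953 Pf72953.Mov Pf72953.Br Pf72953.Fib

namespace Pf72953.PF

variable {k Q : Type*} [Field k] [CharZero k] [Field Q] [Algebra k Q] [Algebra.EssFiniteType k Q]
  {ι : Type} [Fintype ι] {Y T : ι → IntermediateField k Q}

/-- the Kodaira dimension of `Q/A` -/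
noncomputable def kd (A : IntermediateField k Q) : WithBot ℕ∞ := kodairaDim A Q

omit [Algebra.EssFiniteType k Q] [CharZero k] [Fintype ι] in
theorem total_mono (h : ∀ i, T i ≤ Y i) : total T ≤ total Y :=
  total_le fun i => (h i).trans (le_total Y i)

/-- `κ(Q/F) ≤ ∑ κ(Q/VᵢTᵢ)`, `F` the compositum of the `Tᵢ` -/
theorem kd_sum [Nonempty ι] (hdim : ∑ i, dm (Y i) = dm (total Y)) (hT : ∀ i, T i ≤ Y i) :
    kd (total T) ≤ ∑ i, kd (others Y i ⊔ T i) := by
  classical
  have h1 : ∀ i, total (mix Y T {i}) = others Y i ⊔ T i := by
    intro i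
    have h := total_mix_insert (Y := Y) (T := T) (s := ∅) i
    rw [mix_empty, sup_comm] at h
    exact h
  have key : ∀ s : Finset ι, s.Nonempty →
      kd (total (mix Y T s)) ≤ ∑ i ∈ s, kd (others Y i ⊔ T i) := by
    intro s hs
    induction hs using Finset.Nonempty.cons_induction with
    | singleton i => rw [h1, Finset.sum_singleton]
    | cons a s ha hs ih =>
      rw [Finset.sum_cons, add_comm]
      refine le_trans ?_ (add_le_add ih (le_of_eq (congrArg kd (h1 a))))
      refine kod_sub ?_ ?_ ?_
      · -- smaller than the first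
        refine total_mono fun j => ?_
        by_cases hj : j ∈ s
        · rw [mix_mem hj, mix_mem (Finset.mem_cons_of_mem hj)]
        · rw [mix_not hj]
          exact mix_le hT _ j
      · refine total_mono fun j => ?_
        by_cases hj : j ∈ ({a} : Finset ι)
        · rw [mix_mem hj, mix_mem (by rw [Finset.mem_singleton.1 hj]; exact Finset.mem_cons_self a s)]
        · rw [mix_not hj]
          exact mix_le hT _ j
      · have hsup : total (mix Y T s) ⊔ total (mix Y T {a}) = total Y := by
          refine le_antisymm (sup_le (total_mono (mix_le hT _)) (total_mono (mix_le hT _)))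
            (total_le fun j => ?_)
          by_cases hj : j ∈ s
          · have hja : j ∉ ({a} : Finset ι) := by
              rw [Finset.mem_singleton]
              rintro rfl
              exact ha hj
            refine le_trans ?_ le_sup_right
            refine le_trans ?_ (le_total _ j)
            rw [mix_not hja]
          · refine le_trans ?_ le_sup_left
            refine le_trans ?_ (le_total _ j)
            rw [mix_not hj]
        change dm (total (mix Y T s)) + dm (total (mix Y T {a})) =
          dm (total (mix Y T s) ⊔ total (mix Y T {a})) + dm (total (mix Y T (Finset.cons a s ha)))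
        rw [hsup, ← dm_mono hdim (mix_le hT s), ← dm_mono hdim (mix_le hT {a}), ← hdim,
          ← dm_mono hdim (mix_le hT (Finset.cons a s ha)), ← Finset.sum_add_distrib,
          ← Finset.sum_add_distrib]
        refine Finset.sum_congr rfl fun j _ => ?_
        by_cases hj : j ∈ s
        · have hja : j ∉ ({a} : Finset ι) := by
            rw [Finset.mem_singleton]
            rintro rfl
            exact ha hj
          rw [mix_mem hj, mix_not hja, mix_mem (Finset.mem_cons_of_mem hj), add_comm]
        · by_cases hja : j ∈ ({a} : Finset ι)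
          · rw [mix_not hj, mix_mem hja,
              mix_mem (by rw [Finset.mem_singleton.1 hja]; exact Finset.mem_cons_self a s)]
          · rw [mix_not hj, mix_not hja, mix_not]
            rw [Finset.mem_cons, not_or]
            exact ⟨fun h => hja (Finset.mem_singleton.2 h), hj⟩
  have h := key Finset.univ Finset.univ_nonempty
  rwa [mix_univ] at h

/-- `κ(Q/k) ≤ ∑ κ(Q/Vᵢ)` -/
theorem kodairaDim_le_others [Nonempty ι] (hdim : ∑ i, dm (Y i) = dm (total Y)) :
    kodairaDim k Q ≤ ∑ i, kodairaDim (others Y i) Q := by
  have h1 := kd_sum (T := fun _ => ⊥) hdim (fun _ => bot_le)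
  have h2 : total (fun _ : ι => (⊥ : IntermediateField k Q)) = ⊥ :=
    eq_bot_iff.2 (total_le fun _ => le_rfl)
  rw [h2] at h1
  have h3 := Red.easy_addition k (⊥ : IntermediateField k Q) Q
  rw [Tow.dim_bot] at h3
  have h4 : kodairaDim k Q ≤ kd (⊥ : IntermediateField k Q) := by
    refine h3.trans (le_of_eq ?_)
    change ((((0 : ℕ) : ℕ∞)) : WithBot ℕ∞) + kodairaDim (⊥ : IntermediateField k Q) Q = _
    rw [Nat.cast_zero, WithBot.coe_zero, zero_add]
    rfl
  refine (h4.trans h1).trans (Finset.sum_le_sum fun i _ => ?_)
  rw [sup_bot_eq]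
  exact le_rfl

variable [IsAlgClosed k]

/-- **The product formula.** -/
theorem product_formula [Nonempty ι] (M : ∀ i, SmoothModel k (Y i)) [FiniteDimensional (total Y) Q]
    [IsGalois (total Y) Q] (hdim : ∑ i, dimension k (Y i) = dimension k (total Y))
    (hY : ∀ i, kodairaDim k (Y i) ≠ ⊥) (hmv : NMoves M Q (isComp_total Y) hdim) :
    kodairaDim k Q = ∑ i, kodairaDim (others Y i) Q :=
  le_antisymm (kodairaDim_le_others hdim)
    (main_N (V := fun i => others Y i) (isComp_total Y) hdim (isRest hdim) hY hmv)

/-- **Reduction to the factors.** -/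
theorem reduction [Nonempty ι] (M : ∀ i, SmoothModel k (Y i)) [FiniteDimensional (total Y) Q]
    [IsGalois (total Y) Q] (hdim : ∑ i, dimension k (Y i) = dimension k (total Y))
    (hY : ∀ i, kodairaDim k (Y i) ≠ ⊥) (hmv : NMoves M Q (isComp_total Y) hdim)
    (hT : ∀ i, T i ≤ Y i) (c : ι → WithBot ℕ∞)
    (hc : ∀ i, kodairaDim (others Y i ⊔ T i : IntermediateField k Q) Q + c i ≤
      kodairaDim (others Y i) Q) :
    kodairaDim (total T) Q + ∑ i, c i ≤ kodairaDim k Q := by
  rw [product_formula M hdim hY hmv]
  calc kodairaDim (total T) Q + ∑ i, c i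
      ≤ ∑ i, kd (others Y i ⊔ T i) + ∑ i, c i := by
        gcongr
        exact kd_sum hdim hT
    _ = ∑ i, (kd (others Y i ⊔ T i) + c i) := Finset.sum_add_distrib.symm
    _ ≤ _ := Finset.sum_le_sum fun i _ => hc i

end Pf72953.PF
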