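import Mathlib
import Pool.Agent.Lib.Pf72953k.NRed
import Pool.Agent.Lib.Pf72953j.ProdI
import Pool.Agent.Lib.Pf72953c.EasyAdd
import Pool.Agent.Lib.Pf72953r.Up

/-!
Finite covers of products of varieties: Iitaka's inequality.
-/

set_option autoImplicit false
set_option linter.style.haveILetI false

open scoped WithZero
open Pf72953 Pf72953.Mov Pf72953.Br Pf72953.Fib

namespace Pf72953.PF

section two

variable {k Q : Type*} [Field k] [CharZero k] [Field Q] [Algebra k Q] [Algebra.EssFiniteType k Q]

/-- the Kodaira dimension of `A/k` -/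
noncomputable def kk (A : IntermediateField k Q) : WithBot ℕ∞ := kodairaDim k A

open scoped Pf72953.Tow in
theorem kk_sup_le [IsAlgClosed k] {A B : IntermediateField k Q} (h : dm (A ⊔ B) = dm A + dm B) :
    kk (A ⊔ B) ≤ kk A + kk B := by
  haveI : Fact (A ≤ A ⊔ B) := ⟨le_sup_left⟩
  haveI : Fact (B ≤ A ⊔ B) := ⟨le_sup_right⟩
  have hc := Tow.comp_of_indep (A := A) (C := B) h
  have h1 := Dq.kodairaDim_upper (k := k) (B := k) (P := A) (G := B)
    (E := (A ⊔ B : IntermediateField k Q)) (N := (A ⊔ B : IntermediateField k Q)) hc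
    Dq.closedIn_of_isAlgClosed Dq.closedIn_of_isAlgClosed
  rw [add_comm] at h1
  exact h1

omit [CharZero k] in
theorem kk_bot : kk (⊥ : IntermediateField k Q) ≤ 0 := by
  refine iSup₂_le fun c hc => ?_
  have h := hc.le_dimension
  rw [Tow.dim_bot] at h
  obtain rfl : c = 0 := by omega
  simp

/-- `A(B)`, as an extension of `A` -/
def adj (A B : IntermediateField k Q) : IntermediateField A Q :=
  IntermediateField.adjoin A (B : Set Q)

omit [CharZero k] [Algebra.EssFiniteType k Q] in
theorem adj_eq (A B : IntermediateField k Q) : (adj A B).restrictScalars k = A ⊔ B := by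
  unfold adj
  rw [IntermediateField.restrictScalars_adjoin, IntermediateField.adjoin_union,
    IntermediateField.adjoin_self, IntermediateField.adjoin_self]

omit [CharZero k] [Algebra.EssFiniteType k Q] in
theorem mem_adj {A B : IntermediateField k Q} {b : Q} (hb : b ∈ B) : b ∈ adj A B :=
  IntermediateField.subset_adjoin _ _ hb

attribute [irreducible] adj

omit [CharZero k] [Algebra.EssFiniteType k Q] in
theorem dim_adj (A B : IntermediateField k Q) :
    dimension k (adj A B) = dimension k (A ⊔ B : IntermediateField k Q) := by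
  change dm ((adj A B).restrictScalars k) = dm (A ⊔ B)
  rw [adj_eq]

omit [CharZero k] [Algebra.EssFiniteType k Q] in
theorem kd_adj (A B : IntermediateField k Q) : kodairaDim (adj A B) Q = kd (A ⊔ B) := by
  change kd ((adj A B).restrictScalars k) = kd (A ⊔ B)
  rw [adj_eq]

omit [CharZero k] [Algebra.EssFiniteType k Q] in
/-- the inclusion of `B` in a larger field -/
theorem exists_alg {A B : IntermediateField k Q} {W : IntermediateField A Q} (h : ∀ b ∈ B, b ∈ W) :
    ∃ (_ : Algebra B W), IsScalarTower k B W ∧ ∀ b : B, ((algebraMap B W b : W) : Q) = b := by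
  letI : Algebra B W := ((algebraMap B Q).codRestrict W.toSubring (fun b => h b b.2)).toAlgebra
  exact ⟨inferInstance, IsScalarTower.of_algebraMap_eq fun _ => rfl, fun _ => rfl⟩

omit [CharZero k] [Algebra.EssFiniteType k Q] in
theorem compositum_aux {A B : IntermediateField k Q} {W : IntermediateField A Q} [Algebra B W]
    (hc : ∀ b : B, ((algebraMap B W b : W) : Q) = b) (hW : W.restrictScalars k = A ⊔ B) :
    Twr.IsCompositum k A B W := by
  intro z
  have hz : (z : Q) ∈ A ⊔ B := by
    rw [← hW]
    exact z.2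
  have h1 : A ⊔ B ≤ (IntermediateField.adjoin k (Set.range (algebraMap A W) ∪
      Set.range (algebraMap B W))).map (W.restrictScalars k).val := by
    refine sup_le (fun y hy => ?_) (fun y hy => ?_)
    · exact ⟨algebraMap A W ⟨y, hy⟩, IntermediateField.subset_adjoin _ _
        (Or.inl ⟨_, rfl⟩), rfl⟩
    · exact ⟨algebraMap B W ⟨y, hy⟩, IntermediateField.subset_adjoin _ _
        (Or.inr ⟨_, rfl⟩), hc _⟩
  obtain ⟨y, hy, hyz⟩ := h1 hz
  have : y = z := Subtype.ext hyz
  rwa [← this]

omit [CharZero k] [Algebra.EssFiniteType k Q] in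
theorem tower_Q {A : IntermediateField k Q} (W : IntermediateField A Q) : IsScalarTower k W Q :=
  IsScalarTower.of_algebraMap_eq fun _ => rfl

omit [CharZero k] [Algebra.EssFiniteType k Q] in
theorem tower_W {A : IntermediateField k Q} (W : IntermediateField A Q) : IsScalarTower k A W :=
  IsScalarTower.of_algebraMap_eq fun _ => rfl

/-- constants may be extended: `κ(B/k) ≤ κ(A(B)/A)`, if `A` and `B` are independent over `k` -/
theorem kk_le_adj {A B : IntermediateField k Q} (h : dm (A ⊔ B) = dm A + dm B) :
    kk B ≤ kodairaDim A (adj A B) := by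
  obtain ⟨_, _, hcoe⟩ := exists_alg (A := A) (B := B) (W := adj A B) (fun b hb => mem_adj hb)
  haveI := tower_Q (adj A B)
  haveI : Algebra.EssFiniteType k (adj A B) := Red.essFiniteType_sub k (adj A B) Q
  obtain ⟨x, hx⟩ := exists_tb k B
  refine Red.kodairaDim_up k A B (adj A B) hx ?_
  refine Up.tb_over (k := k) (κ := A) (Y := B) (L := adj A B) ?_ (alg_of_compositum
    (compositum_aux hcoe (adj_eq A B))) hx
  rw [dim_adj]
  exact h.symm

theorem arith {x y : WithBot ℕ∞} {a b : ℕ} (hx : x ≤ ((a : ℕ∞) : WithBot ℕ∞))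
    (hy : y ≤ ((b : ℕ∞) : WithBot ℕ∞))
    (h : ((a : ℕ∞) : WithBot ℕ∞) + ((b : ℕ∞) : WithBot ℕ∞) ≤ x + y) :
    x = ((a : ℕ∞) : WithBot ℕ∞) := by
  induction x using WithBot.recBotCoe with
  | bot => simp at h
  | coe x =>
    induction y using WithBot.recBotCoe with
    | bot => simp at h
    | coe y =>
      have hx' : x ≤ a := by exact_mod_cast hx
      have hy' : y ≤ b := by exact_mod_cast hy
      have h' : (a : ℕ∞) + b ≤ x + y := by exact_mod_cast h
      lift x to ℕ using ne_top_of_le_ne_top (ENat.natCast_ne_top a) hx'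
      lift y to ℕ using ne_top_of_le_ne_top (ENat.natCast_ne_top b) hy'
      have h1 : x ≤ a := by exact_mod_cast hx'
      have h2 : y ≤ b := by exact_mod_cast hy'
      have h3 : a + b ≤ x + y := by exact_mod_cast h'
      obtain rfl : x = a := by omega
      rfl

theorem alg_of_dim_zero {F K : Type*} [Field F] [Field K] [Algebra F K] [FinTrdeg F K]
    (h : dimension F K = 0) : Algebra.IsAlgebraic F K := by
  have h1 : ((dimension F K : ℕ) : Cardinal) = Algebra.trdeg F K := trdeg_eq_dimension
  rw [h, Nat.cast_zero] at h1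
  haveI : FaithfulSMul F K :=
    (faithfulSMul_iff_algebraMap_injective F K).2 (algebraMap F K).injective
  exact trdeg_eq_zero_iff.1 h1.symm

theorem kod_le_zero {F K : Type*} [Field F] [Field K] [Algebra F K] [FinTrdeg F K]
    (h : dimension F K = 0) : kodairaDim F K ≤ 0 := by
  refine iSup₂_le fun c hc => ?_
  have h1 := hc.le_dimension
  obtain rfl : c = 0 := by omega
  simp

/-- `κ(A(B)/A) ≤ κ(Q/A)` if `Q` is algebraic over `A(B)` -/
theorem kod_adj_le {A B : IntermediateField k Q} (h : dm (A ⊔ B) = dimension k Q) :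
    kodairaDim A (adj A B) ≤ kodairaDim A Q := by
  haveI := tower_Q (adj A B)
  haveI := tower_W (adj A B)
  haveI : CharZero A := charZero_of_injective_algebraMap (algebraMap k A).injective
  haveI : Algebra.EssFiniteType k (adj A B) := Red.essFiniteType_sub k (adj A B) Q
  haveI : Algebra.EssFiniteType A (adj A B) := Algebra.EssFiniteType.of_comp k A (adj A B)
  haveI : Algebra.EssFiniteType (adj A B) Q := Algebra.EssFiniteType.of_comp k (adj A B) Q
  have e2 := Fib.ResAux.dim_add k (adj A B) Q
  rw [dim_adj] at e2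
  have h1 : dimension (adj A B) Q = 0 := by
    change dm (A ⊔ B) + _ = _ at e2
    omega
  haveI := alg_of_dim_zero h1
  haveI : FiniteDimensional (adj A B) Q := Algebra.finite_of_essFiniteType_of_isAlgebraic
  exact iSup₂_le fun c hc => le_iSup₂_of_le c (Can.kodairaGE_pull (L := Q) hc) le_rfl

/-- Iitaka's inequality over `A`, for a base which is algebraic over `A` or over which `Q` is algebraic -/
theorem trivial_ineq {A B : IntermediateField k Q} (hAB : dm (A ⊔ B) = dm A + dm B)
    (h : dm B = 0 ∨ dm (A ⊔ B) = dimension k Q) :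
    kodairaDim A (adj A B) + kodairaDim (adj A B) Q ≤ kodairaDim A Q := by
  haveI := tower_Q (adj A B)
  haveI := tower_W (adj A B)
  haveI : CharZero A := charZero_of_injective_algebraMap (algebraMap k A).injective
  haveI : CharZero (adj A B) :=
    charZero_of_injective_algebraMap (algebraMap k (adj A B)).injective
  haveI : Algebra.EssFiniteType k (adj A B) := Red.essFiniteType_sub k (adj A B) Q
  haveI : Algebra.EssFiniteType A (adj A B) := Algebra.EssFiniteType.of_comp k A (adj A B)
  haveI : Algebra.EssFiniteType A Q := Algebra.EssFiniteType.of_comp k A Q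
  haveI : Algebra.EssFiniteType (adj A B) Q := Algebra.EssFiniteType.of_comp k (adj A B) Q
  have e1 := Fib.ResAux.dim_add k A (adj A B)
  have e2 := Fib.ResAux.dim_add k (adj A B) Q
  rw [dim_adj] at e1 e2
  rcases h with h | h
  · have h1 : dimension A (adj A B) = 0 := by
      change dm A + _ = dm (A ⊔ B) at e1
      omega
    haveI := alg_of_dim_zero h1
    rw [Dq.kodairaDim_closure (B := A) (B' := adj A B) (P := Q)]
    calc kodairaDim A (adj A B) + kodairaDim A Q ≤ 0 + kodairaDim A Q :=
          add_le_add (kod_le_zero h1) le_rfl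
      _ = _ := zero_add _
  · have h1 : dimension (adj A B) Q = 0 := by
      change dm (A ⊔ B) + _ = _ at e2
      omega
    calc kodairaDim A (adj A B) + kodairaDim (adj A B) Q ≤ kodairaDim A (adj A B) + 0 :=
          add_le_add le_rfl (kod_le_zero h1)
      _ = kodairaDim A (adj A B) := add_zero _
      _ ≤ _ := kod_adj_le h

end two

section fam

variable {k Q : Type*} [Field k] [CharZero k] [IsAlgClosed k] [Field Q] [Algebra k Q]
  [Algebra.EssFiniteType k Q] {ι : Type} [Fintype ι] {Y T : ι → IntermediateField k Q}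

omit [CharZero k] [IsAlgClosed k] [Algebra.EssFiniteType k Q] in
theorem sum_mix_bot [DecidableEq ι] (s : Finset ι) :
    ∑ j, dm (mix (fun _ => ⊥) T s j) = ∑ j ∈ s, dm (T j) := by
  rw [← Finset.sum_subset (Finset.subset_univ s)]
  · exact Finset.sum_congr rfl fun j hj => by rw [mix_mem hj]
  · intro j _ hj
    rw [mix_not hj, dm_bot]

/-- `κ(∏ Tᵢ) ≤ ∑ κ(Tᵢ)` -/
theorem kk_total_le (hdim : ∑ i, dm (T i) = dm (total T)) : kk (total T) ≤ ∑ i, kk (T i) := by
  classical
  have hle : ∀ (s : Finset ι) (j : ι), mix (fun _ => (⊥ : IntermediateField k Q)) T s j ≤ T j := by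
    intro s j
    by_cases h : j ∈ s
    · rw [mix_mem h]
    · rw [mix_not h]
      exact bot_le
  have key : ∀ s : Finset ι, kk (total (mix (fun _ => ⊥) T s)) ≤ ∑ j ∈ s, kk (T j) := by
    intro s
    induction s using Finset.induction_on with
    | empty =>
      have h : total (mix (fun _ => (⊥ : IntermediateField k Q)) T ∅) = ⊥ := by
        rw [mix_empty, eq_bot_iff]
        exact total_le fun _ => le_rfl
      rw [h]
      exact kk_bot
    | insert a s ha ih =>
      have h1 : total (mix (fun _ => ⊥) T (insert a s)) =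
          T a ⊔ total (mix (fun _ => ⊥) T s) := by
        rw [total_mix_insert, total_mix ha, bot_sup_eq]
      have h2 : dm (T a ⊔ total (mix (fun _ => ⊥) T s)) =
          dm (T a) + dm (total (mix (fun _ => ⊥) T s)) := by
        rw [← h1, ← dm_mono hdim (hle (insert a s)), ← dm_mono hdim (hle s), sum_mix_bot,
          sum_mix_bot, Finset.sum_insert ha]
      rw [h1, Finset.sum_insert ha]
      exact (kk_sup_le h2).trans (add_le_add le_rfl ih)
  have h := key Finset.univ
  rwa [mix_univ] at h

omit [CharZero k] [IsAlgClosed k] in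
/-- the rest is independent of a subfield of the `i`-th member -/
theorem dm_others_sup (hdim : ∑ i, dm (Y i) = dm (total Y)) (hT : ∀ i, T i ≤ Y i) (i : ι) :
    dm (others Y i ⊔ T i) = dm (others Y i) + dm (T i) := by
  have h1 := dm_submod (others Y i) (hT i)
  rw [← total_eq, ← dm_others hdim i] at h1
  have h2 := dm_sup_le (others Y i) (T i)
  rw [sup_comm] at h2 ⊢
  omega

/-- **Iitaka's inequality for a Galois cover of a product follows from Iitaka's inequalities over the other factors.** -/
theorem iitaka_of_factors [Nonempty ι] (M : ∀ i, SmoothModel k (Y i))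
    [FiniteDimensional (total Y) Q] [IsGalois (total Y) Q]
    (hdim : ∑ i, dimension k (Y i) = dimension k (total Y))
    (hY : ∀ i, kodairaDim k (Y i) ≠ ⊥) (hmv : NMoves M Q (isComp_total Y) hdim)
    (hT : ∀ i, T i ≤ Y i)
    (h : ∀ i, kodairaDim (others Y i) (adj (others Y i) (T i)) +
      kodairaDim (adj (others Y i) (T i)) Q ≤ kodairaDim (others Y i) Q) :
    kodairaDim k (total T) + kodairaDim (total T) Q ≤ kodairaDim k Q := by
  have h1 := reduction M hdim hY hmv hT (fun i => kk (T i)) fun i => by
    rw [add_comm]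
    refine le_trans (add_le_add (kk_le_adj (dm_others_sup hdim hT i)) (le_of_eq ?_)) (h i)
    exact (kd_adj _ _).symm
  rw [add_comm]
  exact (add_le_add le_rfl (kk_total_le (dm_mono hdim hT))).trans h1

/-- **Iitaka's inequality over a product of some of the factors.** -/
theorem iitaka_trivial [Nonempty ι] (M : ∀ i, SmoothModel k (Y i))
    [FiniteDimensional (total Y) Q] [IsGalois (total Y) Q]
    (hdim : ∑ i, dimension k (Y i) = dimension k (total Y))
    (hY : ∀ i, kodairaDim k (Y i) ≠ ⊥) (hmv : NMoves M Q (isComp_total Y) hdim)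
    (hT : ∀ i, T i ≤ Y i)
    (h : ∀ i, dimension k (T i) = 0 ∨ dimension k (T i) = dimension k (Y i)) :
    kodairaDim k (total T) + kodairaDim (total T) Q ≤ kodairaDim k Q := by
  refine iitaka_of_factors M hdim hY hmv hT fun i => ?_
  have h1 := dm_others_sup hdim hT i
  refine trivial_ineq h1 ((h i).imp id fun h2 => ?_)
  change dm (T i) = dm (Y i) at h2
  rw [h1, h2, dm_others hdim i]
  exact (Twr.dimension_eq_of_algebraic (k := k) (K := total Y) (L := Q)).symm

omit [IsAlgClosed k] [Fintype ι] in
theorem kod_le_bot : kodairaDim k Q ≤ kd (⊥ : IntermediateField k Q) := by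
  have h3 := Red.easy_addition k (⊥ : IntermediateField k Q) Q
  rw [Tow.dim_bot] at h3
  refine h3.trans (le_of_eq ?_)
  rw [Nat.cast_zero, WithBot.coe_zero, zero_add]
  rfl

/-- the compositum of the `Y i`, `i ∈ s` -/
def part (Y : ι → IntermediateField k Q) (s : Finset ι) : IntermediateField k Q :=
  ⨆ i ∈ s, Y i

omit [CharZero k] [IsAlgClosed k] [Algebra.EssFiniteType k Q] [Fintype ι] in
theorem part_eq [DecidableEq ι] (Y : ι → IntermediateField k Q) (s : Finset ι) :
    part Y s = total (mix (fun _ => ⊥) Y s) := by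
  refine le_antisymm (iSup₂_le fun i hi => ?_) (total_le fun i => ?_)
  · refine le_trans ?_ (le_total _ i)
    rw [mix_mem hi]
  · by_cases hi : i ∈ s
    · rw [mix_mem hi]
      exact le_iSup₂_of_le i hi le_rfl
    · rw [mix_not hi]
      exact bot_le

omit [CharZero k] [IsAlgClosed k] [Algebra.EssFiniteType k Q] [Fintype ι] in
theorem part_empty (Y : ι → IntermediateField k Q) : part Y ∅ = ⊥ := by
  simp [part]

omit [CharZero k] [IsAlgClosed k] [Algebra.EssFiniteType k Q] in
theorem part_univ (Y : ι → IntermediateField k Q) : part Y Finset.univ = total Y := by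
  classical
  rw [part_eq, mix_univ]

omit [IsAlgClosed k] [Fintype ι] in
theorem kd_total [FiniteDimensional (total Y) Q] : kd (total Y) ≤ 0 := by
  haveI : Algebra.EssFiniteType (total Y) Q := Algebra.EssFiniteType.of_comp k (total Y) Q
  exact kod_le_zero (Pow.RegOnPAux.dim_zero _ _)

omit [IsAlgClosed k] in
/-- the upper bound over the product of some of the factors -/
theorem kd_part_le [Nonempty ι] [DecidableEq ι] [FiniteDimensional (total Y) Q]
    (hdim : ∑ i, dm (Y i) = dm (total Y)) (s : Finset ι) :
    kd (part Y s) ≤ ∑ i ∈ sᶜ, kd (others Y i) := by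
  rw [part_eq]
  refine (kd_sum hdim fun i => ?_).trans ?_
  · by_cases hi : i ∈ s
    · rw [mix_mem hi]
    · rw [mix_not hi]
      exact bot_le
  · rw [← Finset.sum_add_sum_compl s]
    have h1 : ∑ i ∈ s, kd (others Y i ⊔ mix (fun _ => ⊥) Y s i) ≤ 0 := by
      refine Finset.sum_nonpos fun i hi => ?_
      rw [mix_mem hi, sup_comm, ← total_eq]
      exact kd_total
    have h2 : ∑ i ∈ sᶜ, kd (others Y i ⊔ mix (fun _ => ⊥) Y s i) =
        ∑ i ∈ sᶜ, kd (others Y i) := by
      refine Finset.sum_congr rfl fun i hi => ?_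
      rw [mix_not (by simpa using hi), sup_bot_eq]
    rw [h2]
    calc _ ≤ 0 + ∑ i ∈ sᶜ, kd (others Y i) := add_le_add h1 le_rfl
      _ = _ := zero_add _

omit [CharZero k] [IsAlgClosed k] in
theorem dm_part [DecidableEq ι] (hdim : ∑ i, dm (Y i) = dm (total Y)) (s : Finset ι) :
    dm (part Y s) = ∑ i ∈ s, dm (Y i) := by
  rw [part_eq, ← dm_mono hdim, sum_mix_bot]
  intro i
  by_cases hi : i ∈ s
  · rw [mix_mem hi]
  · rw [mix_not hi]
    exact bot_le

omit [IsAlgClosed k] in
theorem kod_le_parts [DecidableEq ι] (hdim : ∑ i, dm (Y i) = dm (total Y)) (s : Finset ι) :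
    kodairaDim k Q ≤ kd (part Y s) + kd (part Y sᶜ) := by
  refine kod_le_bot.trans (kod_sub bot_le bot_le ?_)
  have h1 : part Y s ⊔ part Y sᶜ = total Y := by
    refine le_antisymm (sup_le (iSup₂_le fun i _ => le_total Y i) (iSup₂_le fun i _ => le_total Y i))
      (total_le fun i => ?_)
    by_cases hi : i ∈ s
    · exact (le_iSup₂_of_le i hi le_rfl : Y i ≤ part Y s).trans le_sup_left
    · exact (le_iSup₂_of_le i (Finset.mem_compl.2 hi) le_rfl : Y i ≤ part Y sᶜ).trans le_sup_right
  change dm (part Y s) + dm (part Y sᶜ) = dm (part Y s ⊔ part Y sᶜ) + dm ⊥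
  rw [h1, dm_bot, dm_part hdim, dm_part hdim, add_zero, Finset.sum_add_sum_compl, hdim]

/-- **The product formula over a product of some of the factors.** -/
theorem partial_product [Nonempty ι] (M : ∀ i, SmoothModel k (Y i))
    [FiniteDimensional (total Y) Q] [IsGalois (total Y) Q]
    (hdim : ∑ i, dimension k (Y i) = dimension k (total Y))
    (hY : ∀ i, kodairaDim k (Y i) ≠ ⊥) (hmv : NMoves M Q (isComp_total Y) hdim)
    (s : Finset ι) [DecidableEq ι] :
    kodairaDim (part Y s) Q = ∑ i ∈ sᶜ, kodairaDim (others Y i) Q := by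
  have h1 := kd_part_le hdim s
  have h2 := kd_part_le hdim sᶜ
  rw [compl_compl] at h2
  have h3 := kod_le_parts hdim s
  rw [product_formula M hdim hY hmv] at h3
  change ∑ i, kd (others Y i) ≤ _ at h3
  -- the numbers are finite and non-negative
  have h4 : ∀ i, ∃ a : ℕ, kd (others Y i) = ((a : ℕ∞) : WithBot ℕ∞) := by
    intro i
    haveI : CharZero (others Y i) :=
      charZero_of_injective_algebraMap (algebraMap k (others Y i)).injective
    haveI : Algebra.EssFiniteType (others Y i) Q := Algebra.EssFiniteType.of_comp k (others Y i) Q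
    have h5 : kk (Y i) ≤ kd (others Y i) :=
      (kk_le_adj (dm_others_sup hdim (fun i => le_rfl) i)).trans (kod_adj_le (by
        rw [sup_comm, ← total_eq]
        exact (Twr.dimension_eq_of_algebraic (k := k) (K := total Y) (L := Q)).symm))
    rcases kodairaDim_eq (k := others Y i) (K := Q) with h6 | ⟨a, -, h6⟩
    · exact absurd (le_antisymm (h5.trans (le_of_eq h6)) bot_le) (hY i)
    · exact ⟨a, h6⟩
  choose a ha using h4
  have h5 : ∀ t : Finset ι, ∑ i ∈ t, kd (others Y i) =
      (((∑ i ∈ t, a i : ℕ) : ℕ∞) : WithBot ℕ∞) := by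
    intro t
    induction t using Finset.induction_on with
    | empty => simp
    | insert i t hi ih =>
      rw [Finset.sum_insert hi, Finset.sum_insert hi, ih, ha]
      push_cast
      rfl
  have h6 : ∑ i, kd (others Y i) = (((∑ i ∈ sᶜ, a i : ℕ) : ℕ∞) : WithBot ℕ∞) +
      (((∑ i ∈ s, a i : ℕ) : ℕ∞) : WithBot ℕ∞) := by
    rw [← h5, ← h5, add_comm, Finset.sum_add_sum_compl]
  rw [h6] at h3
  rw [h5] at h1 h2
  change kd (part Y s) = ∑ i ∈ sᶜ, kd (others Y i)
  rw [h5]
  exact arith h1 h2 h3

end fam

end Pf72953.PF
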