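import Mathlib
import Pool.Agent.Lib.Pf72953k.NFin

/-!
The product formula under a positivity condition weaker than `κ(M i) ≥ 0`.
-/

set_option autoImplicit false
set_option linter.style.haveILetI false

open scoped WithZero
open Pf72953 Pf72953.Mov Pf72953.Up Pf72953.Br

namespace Pf72953.PF

section lower

variable {k Z Q : Type*} [Field k] [CharZero k] [IsAlgClosed k] [Field Z] [Field Q]
  [Algebra k Z] [Algebra k Q] [Algebra Z Q] [IsScalarTower k Z Q] [Algebra.EssFiniteType k Z]
  [FiniteDimensional Z Q] [IsGalois Z Q]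

theorem lower_cover' {J : Type*} [Fintype J] {X : SmoothModel k Z} (D : J → MovingDivisor X k Q)
    (hD : ∀ j, IsBranch k Z (D j))
    (hpos : ∃ (m : ℕ) (q C : J → ℕ), 2 * ∑ j, C j * q j < m ∧
      (∀ j, q j ≠ 0 → (D j).MultLE (C j)) ∧
      ∃ ω ∈ pluriSections X (fun j => (D j).S) m q, ω ≠ 0) :
    logKodairaDim X (fun j => (D j).S) ≤ kodairaDim k Q := by
  classical
  haveI : Algebra.EssFiniteType k Q := Algebra.EssFiniteType.comp k Z Q
  have hram : ∀ j, Twr.RamifiedOn k Q k (mapD Q (D j)) := fun j =>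
    ramifiedOn_of_branch (B := k) (Y := Z) (Z := Z) (P := Q) (L := Q) (G := k) (N := Q) X
      (fun i => X.tb i) (fun σ g => ⟨g, σ.commutes _⟩)
      (fun σ _ => by ext z; exact σ.commutes z) (hD j)
  obtain ⟨m, q, C, hm, hC, ω, hω, hω0⟩ := hpos
  have hp : Twr.PositiveOn Q (fun j => mapD Q (D j)) := by
    refine ⟨m, q, C, ?_, fun j hj => hC j hj, ω, hω, hω0⟩
    rw [Module.finrank_self]
    exact hm
  have hdim : dimension k k + dimension k Z + dimension k k = dimension k Q := by
    rw [dim_self, zero_add, add_zero]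
    exact (Twr.dimension_eq_of_algebraic (k := k) (K := Z) (L := Q)).symm
  have h := (Twr.lower (k := k) (B := k) (Y := Z) (G := k) (Z := Z) (E := Q) (L := Q) (N := Q)
    (M := X) (fun z => IntermediateField.subset_adjoin k _ (Or.inr ⟨z, rfl⟩)) hdim
    (alg_adjoin fun z => IntermediateField.subset_adjoin k _ (Or.inl (Or.inr ⟨z, rfl⟩)))
    (fun w _ _ z hz => ⟨z, hz, le_rfl⟩) (fun w _ _ z hz => ⟨z, hz, le_rfl⟩)
    (fun j => mapD Q (D j)) hram hp).1
  rw [kodairaDim_self, zero_add, add_zero] at h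
  exact h

end lower

section defs

variable {k Z : Type*} {ι : Type} {Y : ι → Type*} [Field k] [CharZero k] [∀ i, Field (Y i)]
  [Field Z] [∀ i, Algebra k (Y i)] [Algebra k Z] [∀ i, Algebra (Y i) Z]
  [∀ i, IsScalarTower k (Y i) Z] [Algebra.EssFiniteType k Z] [Fintype ι]
  {M : ∀ i, SmoothModel k (Y i)} {hcomp : IsComp k Y Z}
  {hdim : ∑ i, dimension k (Y i) = dimension k Z}

/-- the divisor of the section has multiplicity at most `C` at all points of the product: some iterated derivative of order at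
most `C` of a local equation does not vanish -/
def BoxSection.MultLE (D : BoxSection M hcomp hdim) (C : ℕ) : Prop :=
  ∀ (c : ∀ i, (M i).I) (P : Ideal ((prodN M hcomp hdim).A c)), P.IsMaximal →
    ∃ Ds : List (Derivation k Z Z), Ds.length ≤ C ∧
      (∀ d ∈ Ds, ∀ f ∈ (prodN M hcomp hdim).A c, d f ∈ (prodN M hcomp hdim).A c) ∧
      ∃ f : (prodN M hcomp hdim).A c, f ∉ P ∧
        (f : Z) = iter Ds (D.σ / (boxN D.S hcomp hdim).gen c)

/-- The divisors of the sections `D j` of line bundles of the form `S₁ ⊠ ⋯ ⊠ Sₙ` are supported on the prime divisors of the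
product over which `Q` is ramified, one for each of them. -/
structure IsBranchSystem {J : Type} (D : J → BoxSection M hcomp hdim) (Q : Type*) [Field Q]
    [Algebra k Q] [Algebra Z Q] : Prop where
  /-- each divisor is supported on a single branch prime divisor -/
  branch : ∀ j, ∃ (c : ∀ i, (M i).I) (w : Valuation Q ℤᵐ⁰), Bad k (prodN M hcomp hdim) k Z c w ∧
    w (algebraMap Z Q (D j).σ) < w (algebraMap Z Q ((boxN (D j).S hcomp hdim).gen c)) ∧
    ∀ (w' : Valuation Q ℤᵐ⁰) (c' : ∀ i, (M i).I), IsDivisorial k Q w' →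
      PrimeAt (prodN M hcomp hdim) k Z c' w' →
      w' (algebraMap Z Q (D j).σ) < w' (algebraMap Z Q ((boxN (D j).S hcomp hdim).gen c')) →
      ∀ z : Z, w' (algebraMap Z Q z) ≤ 1 ↔ w (algebraMap Z Q z) ≤ 1
  /-- each branch prime divisor is contained in one of the divisors -/
  cover : ∀ (c : ∀ i, (M i).I) (w : Valuation Q ℤᵐ⁰), Bad k (prodN M hcomp hdim) k Z c w →
    ∃ j, w (algebraMap Z Q (D j).σ) < w (algebraMap Z Q ((boxN (D j).S hcomp hdim).gen c))

/-- `K + ∑ c_j S_{ij}` is `ℚ`-effective on `M i` for all `i`, for some rational numbers `c_j ≥ 0` with `2 ∑ c_j C_j < 1`, `C_j ≥ 1` a bound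
for the multiplicities of `D j`; for instance `κ(M i) ≥ 0` for all `i` (`c_j = 0`). -/
def BoxPositive {J : Type} [Fintype J] (D : J → BoxSection M hcomp hdim) : Prop :=
  ∃ (m : ℕ) (q C : J → ℕ), 2 * ∑ j, C j * q j < m ∧ (∀ j, 1 ≤ C j) ∧
    (∀ j, q j ≠ 0 → (D j).MultLE (C j)) ∧
    ∀ i, ∃ ω ∈ pluriSections (M i) (fun j => (D j).S i) m q, ω ≠ 0

end defs

section pos

variable {k Z : Type*} {ι J : Type} {Y : ι → Type*} [Field k] [CharZero k] [∀ i, Field (Y i)]
  [Field Z] [∀ i, Algebra k (Y i)] [Algebra k Z] [∀ i, Algebra (Y i) Z]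
  [∀ i, IsScalarTower k (Y i) Z] [Algebra.EssFiniteType k Z] [Fintype ι] [Fintype J]
  [∀ i, Algebra.EssFiniteType k (Y i)]
  {M : ∀ i, SmoothModel k (Y i)} {hcomp : IsComp k Y Z}
  {hdim : ∑ i, dimension k (Y i) = dimension k Z}

/-- a product of forms -/
theorem pluri_N (D : J → BoxSection M hcomp hdim) {m : ℕ} {q : J → ℕ}
    (h : ∀ i, ∃ ω ∈ pluriSections (M i) (fun j => (D j).S i) m q, ω ≠ 0) :
    ∃ ω ∈ pluriSections (prodN M hcomp hdim) (fun j => boxN (D j).S hcomp hdim) m q, ω ≠ 0 := by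
  choose y hy using fun i => exists_tb k (Y i)
  choose ω hω hω0 using h
  have hX := tb_nX hcomp hdim hy
  have hg0 : ∀ i, coef (hy i) m (ω i) ≠ 0 := fun i h0 => hω0 i (by
    rw [eq_coef_smul (hy i) m (ω i), h0, zero_smul])
  have hgm : ∀ i, coef (hy i) m (ω i) ∈ CoefSec (M i) (fun j => (D j).S i) (y i) m q :=
    fun i => (mem_pluriSections_iff (hy i) _).1 (hω i)
  have hvm := coefSec_N (Z := Z) hcomp hdim (S := fun j => (D j).S) hgm
  refine ⟨(∏ i, algebraMap (Y i) Z (coef (hy i) m (ω i))) • pureForm k (fun _ => nX hdim y),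
    ?_, ?_⟩
  · rw [mem_pluriSections_iff hX, map_smul, coef_self, smul_eq_mul, mul_one]
    exact hvm
  · intro h0
    have := congrArg (coef hX _) h0
    rw [map_smul, coef_self, smul_eq_mul, mul_one, map_zero] at this
    refine absurd this (Finset.prod_ne_zero_iff.2 fun i _ => ?_)
    rw [Ne, map_eq_zero]
    exact hg0 i

omit [∀ i, Algebra.EssFiniteType k (Y i)] [CharZero k] [Algebra.EssFiniteType k Z] in
/-- multiply by sections: `κ(K + ∑ S_j) ≥ 0` -/
theorem log_ge_zero {X : SmoothModel k Z} {S : J → LineBundle X} {σ : J → Z}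
    (hσ : ∀ j, σ j ∈ (S j).sections) (hσ0 : ∀ j, σ j ≠ 0) {m : ℕ} (hm : 1 ≤ m) {q : J → ℕ}
    (hq : ∀ j, q j ≤ m) (h : ∃ ω ∈ pluriSections X S m q, ω ≠ 0) : LogKodairaGE X S 0 := by
  obtain ⟨ω, hω, hω0⟩ := h
  refine ⟨m, hm, (∏ j, σ j ^ (m - q j)) • ω, ?_, ?_, fun i => i.elim0, ?_, fun i => i.elim0⟩
  · intro c
    obtain ⟨f, hf, rfl⟩ := hω c
    choose φ hφ hφσ using fun j => hσ j c
    refine ⟨(∏ j, φ j ^ (m - q j)) * f, (X.A c).mul_mem
      (Subalgebra.prod_mem _ fun j _ => (X.A c).pow_mem (hφ j) _) hf, ?_⟩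
    rw [smul_smul]
    congr 1
    have e1 : ∏ j, σ j ^ (m - q j) =
        (∏ j, φ j ^ (m - q j)) * ∏ j, (S j).gen c ^ (m - q j) := by
      rw [← Finset.prod_mul_distrib]
      exact Finset.prod_congr rfl fun j _ => by rw [hφσ j, mul_pow]
    have e2 : (∏ j, (S j).gen c ^ (m - q j)) * ∏ j, (S j).gen c ^ q j =
        ∏ j, (S j).gen c ^ m := by
      rw [← Finset.prod_mul_distrib]
      exact Finset.prod_congr rfl fun j _ => by rw [← pow_add, Nat.sub_add_cancel (hq j)]
    rw [e1, ← e2]
    ring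
  · exact smul_ne_zero (Finset.prod_ne_zero_iff.2 fun j _ => pow_ne_zero _ (hσ0 j)) hω0
  · exact (algebraicIndependent_empty_type_iff (R := k)).mpr (algebraMap k Z).injective

end pos

section main

variable {k Z Q : Type*} {ι J : Type} {Y V : ι → Type*} [Field k] [CharZero k] [IsAlgClosed k]
  [∀ i, Field (Y i)] [∀ i, Field (V i)] [Field Z] [Field Q]
  [∀ i, Algebra k (V i)] [∀ i, Algebra k (Y i)] [Algebra k Z]
  [Algebra k Q] [∀ i, Algebra (V i) Z] [∀ i, Algebra (V i) Q] [∀ i, Algebra (Y i) Z]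
  [∀ i, Algebra (Y i) Q]
  [Algebra Z Q] [∀ i, IsScalarTower k (V i) Z] [∀ i, IsScalarTower k (V i) Q]
  [∀ i, IsScalarTower k (Y i) Z]
  [∀ i, IsScalarTower k (Y i) Q] [IsScalarTower k Z Q] [∀ i, IsScalarTower (V i) Z Q]
  [∀ i, IsScalarTower (Y i) Z Q] [∀ i, Algebra.EssFiniteType k (V i)]
  [∀ i, Algebra.EssFiniteType k (Y i)] [Algebra.EssFiniteType k Z]
  [FiniteDimensional Z Q] [Fintype ι] [Fintype J] {M : ∀ i, SmoothModel k (Y i)}

/-- the lower bound, for a system of branch divisors -/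
theorem main_sys [IsGalois Z Q] (hcomp : IsComp k Y Z)
    (hdim : ∑ i, dimension k (Y i) = dimension k Z) (hV : ∀ i, IsRest k Z Y (V i) i)
    {D : J → BoxSection M hcomp hdim} (hD : IsBranchSystem D Q)
    (hpos : BoxPositive D ∨ ∀ i, kodairaDim k (Y i) ≠ ⊥) :
    ∑ i, kodairaDim (V i) Q ≤ kodairaDim k Q ∧ 0 ≤ kodairaDim k Q := by
  classical
  have hbr := hD.branch
  have hcov := hD.cover
  have hex : ∀ j, ∃ _ : (M j).I, True := fun j => by
    obtain ⟨i, -⟩ := (M j).cover 1
      (fun c hc => Valuation.one_apply_of_ne_zero (by simpa using hc))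
    exact ⟨i, trivial⟩
  choose c₀ _ using hex
  -- over `V i`
  have hup : ∀ i, kodairaDim (V i) Q ≤ logKodairaDim (M i) (fun j => (D j).S i) := by
    intro i
    choose E hES hE using fun j => exists_factor (Q := Q) hcomp hdim (D j) i (hV i)
    have h1 : (fun j => (D j).S i) = fun j => (E j).S := funext fun j => (hES j).symm
    rw [h1]
    refine upper_cover (hV i).comp (hV i).dim E fun c w hw => ?_
    set c' : ∀ j, (M j).I := Function.update c₀ i c with hc'
    have hci : c' i = c := by rw [hc', Function.update_self]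
    obtain ⟨j, hj⟩ := hcov c' w (bad_N M hcomp hdim i (hV i).comp (hV i).dim (hV i).left
      (hV i).mem (hV i).gen (by rw [hci]; exact hw))
    refine ⟨j, ?_⟩
    rw [hE j]
    refine hj.trans_le (le_of_eq ?_)
    change w (algebraMap Z Q (∏ l, algebraMap (Y l) Z (((D j).S l).gen (c' l)))) = _
    rw [map_prod, map_prod, ← Finset.mul_prod_erase _ _ (Finset.mem_univ i),
      Finset.prod_eq_one, mul_one, hci, ← IsScalarTower.algebraMap_apply (Y i) Z Q, hES j]
    intro l hl
    obtain ⟨v, hv⟩ := (hV i).left l (Finset.ne_of_mem_erase hl) (((D j).S l).gen (c' l))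
    rw [← hv, ← IsScalarTower.algebraMap_apply (V i) Z Q]
    refine hw.triv v ?_
    rintro rfl
    rw [map_zero] at hv
    have h2 := ((D j).S l).ne (c' l)
    exact h2 ((map_eq_zero (algebraMap (Y l) Z)).1 hv.symm)
  -- positivity
  have hpos' : ∃ (m : ℕ) (q C : J → ℕ), 2 * ∑ j, C j * q j < m ∧ (∀ j, q j ≤ m) ∧
      (∀ j, q j ≠ 0 → (D j).MultLE (C j)) ∧
      ∃ ω ∈ pluriSections (prodN M hcomp hdim) (fun j => boxN (D j).S hcomp hdim) m q,
        ω ≠ 0 := by
    rcases hpos with ⟨m, q, C, hm, hC1, hC, hω⟩ | hY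
    · refine ⟨m, q, C, hm, fun j => ?_, hC, pluri_N D hω⟩
      have h1 : C j * q j ≤ ∑ j, C j * q j :=
        Finset.single_le_sum (f := fun j => C j * q j) (fun _ _ => Nat.zero_le _)
          (Finset.mem_univ j)
      have h2 := hC1 j
      nlinarith
    · obtain ⟨m, hm, hω⟩ := pos_N hcomp hdim (fun j => (D j).S) (fun i => ge_zero (hY i))
      exact ⟨m, fun _ => 0, fun _ => 0, by simp; omega, fun j => Nat.zero_le _,
        fun j hj => absurd rfl hj, hω⟩
  obtain ⟨m, q, C, hm, hqm, hC, hω⟩ := hpos'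
  -- over `k`
  have hk : logKodairaDim (prodN M hcomp hdim)
      (fun j => boxN (D j).S hcomp hdim) ≤ kodairaDim k Q := by
    let E : J → MovingDivisor (prodN M hcomp hdim) k Q := fun j =>
      { S := boxN (D j).S hcomp hdim
        r := 0
        s := fun _ => (D j).σ
        a := fun _ => 1
        s_mem := fun _ => (D j).mem
        s_indep := by
          haveI : Subsingleton (Fin (0 + 1)) := inferInstanceAs (Subsingleton (Fin 1))
          exact LinearIndependent.of_subsingleton (0 : Fin 1) (D j).ne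
        a_alg := fun _ => isAlgebraic_one
        a_ne := ⟨0, one_ne_zero⟩ }
    have hsec : ∀ j, (E j).sec = algebraMap Z Q (D j).σ := fun j => by
      change ∑ _l : Fin (0 + 1), (1 : Q) * algebraMap Z Q (D j).σ = _
      rw [Finset.sum_const, Finset.card_univ, Fintype.card_fin, one_mul, zero_add, one_smul]
    refine lower_cover' E (fun j => ?_) ⟨m, q, C, hm, fun j hj => ?_, hω⟩
    · obtain ⟨i, w, hw, hlt, hsupp⟩ := hbr j
      refine ⟨i, w, hw, ?_, fun w' i' hw' _ hp hlt' z => ?_⟩
      · rw [hsec]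
        exact hlt
      · rw [hsec] at hlt'
        exact hsupp w' i' hw' hp hlt' z
    · -- multiplicities
      intro i P hP c hc
      obtain ⟨Ds, hDs, hDA, f, hfP, hf⟩ := hC j hj i P hP
      have hc0 : c 0 ≠ 0 := by
        intro h0
        apply hc
        funext l
        have hl : l = 0 := Subsingleton.elim (α := Fin 1) l 0
        rw [hl, h0]
        rfl
      refine ⟨Ds, hDs, hDA, algebraMap k _ (c 0) * f, ?_, ?_⟩
      · intro hmem
        rcases (hP.isPrime.mem_or_mem hmem) with h | h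
        · exact hP.ne_top ((Ideal.eq_top_iff_one P).2 (by
            have := P.mul_mem_left (algebraMap k _ (c 0)⁻¹) h
            rwa [← map_mul, inv_mul_cancel₀ hc0, map_one] at this))
        · exact hfP h
      · have h1 : (∑ l, c l • (E j).s l) / (E j).S.gen i =
            c 0 • ((D j).σ / (boxN (D j).S hcomp hdim).gen i) := by
          change (∑ l : Fin (0 + 1), c l • (D j).σ) / (boxN (D j).S hcomp hdim).gen i = _
          rw [Fin.sum_univ_one, smul_div_assoc]
        rw [h1]
        have h2 : ∀ (Ds : List (Derivation k Z Z)) (x : Z), iter Ds (c 0 • x) = c 0 • iter Ds x := by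
          intro Ds x
          induction Ds with
          | nil => rfl
          | cons d Ds ih =>
            change d (iter Ds (c 0 • x)) = c 0 • d (iter Ds x)
            rw [ih]
            exact d.map_smul _ _
        rw [h2, ← hf, Algebra.smul_def]
        rfl
  refine ⟨?_, ?_⟩
  · calc ∑ i, kodairaDim (V i) Q
        ≤ ∑ i, logKodairaDim (M i) (fun j => (D j).S i) := Finset.sum_le_sum fun i _ => hup i
      _ ≤ _ := logKodairaDim_N hcomp hdim (fun j => (D j).S)
      _ ≤ kodairaDim k Q := hk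
  · refine le_trans ?_ hk
    have h0 := log_ge_zero (fun j => (D j).mem) (fun j => (D j).ne) (by omega) hqm hω
    refine le_trans ?_ (le_iSup₂_of_le 0 h0 le_rfl)
    simp

end main

section fields

variable {k Q : Type*} [Field k] [CharZero k] [IsAlgClosed k] [Field Q] [Algebra k Q]
  [Algebra.EssFiniteType k Q] {ι : Type} [Fintype ι] [Nonempty ι] {Y T : ι → IntermediateField k Q}

omit [IsAlgClosed k] in
theorem formula_of (hdim : ∑ i, dm (Y i) = dm (total Y))
    (h : ∑ i, kodairaDim (others Y i) Q ≤ kodairaDim k Q) :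
    kodairaDim k Q = ∑ i, kodairaDim (others Y i) Q :=
  le_antisymm (kodairaDim_le_others hdim) h

omit [IsAlgClosed k] in
theorem partial_of [DecidableEq ι] [FiniteDimensional (total Y) Q]
    (hdim : ∑ i, dm (Y i) = dm (total Y))
    (h : ∑ i, kodairaDim (others Y i) Q ≤ kodairaDim k Q) (h0 : 0 ≤ kodairaDim k Q)
    (s : Finset ι) : kodairaDim (part Y s) Q = ∑ i ∈ sᶜ, kodairaDim (others Y i) Q := by
  have h1 := kd_part_le hdim s
  have h2 := kd_part_le hdim sᶜ
  rw [compl_compl] at h2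
  have h3 := kod_le_parts hdim s
  have hf := formula_of hdim h
  rw [hf] at h3 h0
  change ∑ i, kd (others Y i) ≤ _ at h3
  -- the numbers are finite and non-negative
  have h4 : ∀ i, ∃ a : ℕ, kd (others Y i) = ((a : ℕ∞) : WithBot ℕ∞) := by
    intro i
    haveI : CharZero (others Y i) :=
      charZero_of_injective_algebraMap (algebraMap k (others Y i)).injective
    haveI : Algebra.EssFiniteType (others Y i) Q := Algebra.EssFiniteType.of_comp k (others Y i) Q
    rcases kodairaDim_eq (k := others Y i) (K := Q) with h6 | ⟨a, -, h6⟩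
    · exfalso
      rw [← Finset.add_sum_erase _ _ (Finset.mem_univ i), h6, WithBot.bot_add] at h0
      simp at h0
    · exact ⟨a, h6⟩
  choose a ha using h4
  have h5 : ∀ t : Finset ι, ∑ i ∈ t, kd (others Y i) =
      (((∑ i ∈ t, a i : ℕ) : ℕ∞) : WithBot ℕ∞) := by
    intro t
    induction t using Finset.induction_on with
    | empty => simp
    | insert i t hi ih =>
      rw [Finset.sum_insert hi, Finset.sum_insert hi, ih, ha]
      push_cast
      rfl
  have h6 : ∑ i, kd (others Y i) = (((∑ i ∈ sᶜ, a i : ℕ) : ℕ∞) : WithBot ℕ∞) +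
      (((∑ i ∈ s, a i : ℕ) : ℕ∞) : WithBot ℕ∞) := by
    rw [← h5, ← h5, add_comm, Finset.sum_add_sum_compl]
  rw [h6] at h3
  rw [h5] at h1 h2
  change kd (part Y s) = ∑ i ∈ sᶜ, kd (others Y i)
  rw [h5]
  exact arith h1 h2 h3

omit [IsAlgClosed k] in
theorem reduction_of (hdim : ∑ i, dm (Y i) = dm (total Y))
    (h : ∑ i, kodairaDim (others Y i) Q ≤ kodairaDim k Q)
    (hT : ∀ i, T i ≤ Y i) (c : ι → WithBot ℕ∞)
    (hc : ∀ i, kodairaDim (adj (others Y i) (T i)) Q + c i ≤ kodairaDim (others Y i) Q) :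
    kodairaDim (total T) Q + ∑ i, c i ≤ kodairaDim k Q := by
  refine le_trans ?_ h
  calc kodairaDim (total T) Q + ∑ i, c i
      ≤ ∑ i, kd (others Y i ⊔ T i) + ∑ i, c i := by
        gcongr
        exact kd_sum hdim hT
    _ = ∑ i, (kd (others Y i ⊔ T i) + c i) := Finset.sum_add_distrib.symm
    _ ≤ _ := Finset.sum_le_sum fun i _ => by
        have h1 := hc i
        rw [kd_adj] at h1
        exact h1

theorem iitaka_of (hdim : ∑ i, dm (Y i) = dm (total Y))
    (h : ∑ i, kodairaDim (others Y i) Q ≤ kodairaDim k Q) (hT : ∀ i, T i ≤ Y i)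
    (hc : ∀ i, kodairaDim (others Y i) (adj (others Y i) (T i)) +
      kodairaDim (adj (others Y i) (T i)) Q ≤ kodairaDim (others Y i) Q) :
    kodairaDim k (total T) + kodairaDim (total T) Q ≤ kodairaDim k Q := by
  have h1 := reduction_of hdim h hT (fun i => kk (T i)) fun i => by
    rw [add_comm]
    exact (add_le_add (kk_le_adj (dm_others_sup hdim hT i)) le_rfl).trans (hc i)
  rw [add_comm]
  exact (add_le_add le_rfl (kk_total_le (dm_mono hdim hT))).trans h1

theorem trivial_of [FiniteDimensional (total Y) Q] (hdim : ∑ i, dm (Y i) = dm (total Y))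
    (h : ∑ i, kodairaDim (others Y i) Q ≤ kodairaDim k Q) (hT : ∀ i, T i ≤ Y i)
    (hd : ∀ i, dimension k (T i) = 0 ∨ dimension k (T i) = dimension k (Y i)) :
    kodairaDim k (total T) + kodairaDim (total T) Q ≤ kodairaDim k Q := by
  refine iitaka_of hdim h hT fun i => ?_
  have h1 := dm_others_sup hdim hT i
  refine trivial_ineq h1 ((hd i).imp id fun h2 => ?_)
  change dm (T i) = dm (Y i) at h2
  rw [h1, h2, dm_others hdim i]
  exact (Twr.dimension_eq_of_algebraic (k := k) (K := total Y) (L := Q)).symm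

end fields

end Pf72953.PF
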