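import Mathlib
import Pool.Agent.Lib.Pf72953k.Sub

/-!
Easy addition for several fibrations: `κ(E/k) ≤ ∑ κ(E/Uᵢ)`.
-/

set_option autoImplicit false
set_option linter.style.haveILetI false

open scoped WithZero
open Pf72953

namespace Pf72953.Bi

section

variable {k E ι : Type*} {U : ι → Type*} [Field k] [Field E] [∀ i, Field (U i)] [Algebra k E]
  [∀ i, Algebra k (U i)] [∀ i, Algebra (U i) E] [∀ i, IsScalarTower k (U i) E]
  [Fintype ι] [DecidableEq ι] {σ : ι → Type*} [∀ i, Fintype (σ i)]

/-- Submodularity: `x` is a family of elements of `E`, algebraically independent over `k` and divided into blocks; for every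
`i` the elements which are not in the `i`-th block are a transcendence basis of `U i`.  Then a family of `c` elements of
`E`, algebraically independent over `k`, contains families, algebraically independent over the `U i`, which have together at
least `c` elements. -/
theorem exists_finsets_N [Nonempty ι] {x : (Σ i, σ i) → E} (hx : AlgebraicIndependent k x)
    {u : ∀ i, {p : Σ i, σ i // p.1 ≠ i} → U i} (hu : ∀ i, IsTranscendenceBasis k (u i))
    (hux : ∀ i p, algebraMap (U i) E (u i p) = x p) {N c : ℕ} (f : Fin N → E)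
    (e : Fin c → Fin N) (he : AlgebraicIndependent k (fun i => f (e i))) :
    ∃ T : ι → Finset (Fin N), c ≤ ∑ i, (T i).card ∧
      ∀ i, AlgebraicIndependent (U i) (fun a : T i => f a) := by
  classical
  choose T hT hTi using fun i => exists_finset_over (L := E) f (hu i)
  refine ⟨T, ?_, hTi⟩
  set M := AlgebraicIndependent.matroid k E with hM
  set R := Set.range f with hR
  set n := Fintype.card (Σ i, σ i) with hn
  -- the blocks outside of `s`
  let X : Finset ι → Set E := fun s => x '' {p | p.1 ∉ s}
  have hXi : ∀ i, Set.range (fun p => algebraMap (U i) E (u i p)) = X {i} := by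
    intro i
    ext z
    constructor
    · rintro ⟨p, rfl⟩
      exact ⟨p.1, by simpa using p.2, (hux i p).symm⟩
    · rintro ⟨p, hp, rfl⟩
      exact ⟨⟨p, by simpa using hp⟩, hux i _⟩
  have hcard : ∀ i, (Fintype.card {p : Σ i, σ i // p.1 ≠ i} : ℕ) + Fintype.card (σ i) = n := by
    intro i
    have h1 : Fintype.card {p : Σ i, σ i // p.1 = i} = Fintype.card (σ i) :=
      Fintype.card_congr (Equiv.sigmaSubtype i)
    have h2 : Fintype.card {p : Σ i, σ i // p.1 ≠ i} =
        Fintype.card (Σ i, σ i) - Fintype.card {p : Σ i, σ i // p.1 = i} := by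
      rw [← Fintype.card_subtype_compl]
    have h3 := Fintype.card_subtype_le (fun p : Σ i, σ i => p.1 = i)
    rw [← h1]
    omega
  have key : ∀ s : Finset ι, s.Nonempty → M.eRk (X s ∪ R) + ((s.card * n : ℕ) : ℕ∞) ≤
      ((n + ∑ i ∈ s, (Fintype.card {p : Σ i, σ i // p.1 ≠ i} + (T i).card) : ℕ) : ℕ∞) := by
    intro s hs
    induction hs using Finset.Nonempty.cons_induction with
    | singleton i =>
      rw [Finset.card_singleton, one_mul, Finset.sum_singleton, ← hXi]
      push_cast
      rw [add_comm]
      exact add_le_add le_rfl (hT i)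
    | cons a s ha hs ih =>
      have h1 := M.eRk_inter_add_eRk_union_le (X s ∪ R) (X {a} ∪ R)
      have h2 : M.eRk (X (Finset.cons a s ha) ∪ R) ≤ M.eRk ((X s ∪ R) ∩ (X {a} ∪ R)) := by
        refine M.eRk_mono ?_
        rintro z (⟨p, hp, rfl⟩ | hz)
        · simp only [Finset.mem_cons, Set.mem_setOf_eq, not_or] at hp
          exact ⟨Or.inl ⟨p, hp.2, rfl⟩, Or.inl ⟨p, by simpa using hp.1, rfl⟩⟩
        · exact ⟨Or.inr hz, Or.inr hz⟩
      have h3 : (n : ℕ∞) ≤ M.eRk ((X s ∪ R) ∪ (X {a} ∪ R)) := by
        have h4 : M.Indep (Set.range x) := by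
          rw [hM, AlgebraicIndependent.matroid_indep_iff]
          exact hx.to_subtype_range
        have h5 : (Set.range x).encard = n := by
          rw [← Set.image_univ, hx.injective.encard_image, Set.encard_univ,
            ENat.card_eq_coe_natCard]
          simp [hn]
        rw [← h5]
        refine h4.encard_le_eRk_of_subset ?_
        rintro _ ⟨p, rfl⟩
        by_cases hp : p.1 = a
        · refine Or.inl (Or.inl ⟨p, ?_, rfl⟩)
          change p.1 ∉ s
          rw [hp]
          exact ha
        · exact Or.inr (Or.inl ⟨p, by simpa using hp, rfl⟩)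
      have h6 := hT a
      rw [hXi] at h6
      rw [Finset.sum_cons, Finset.card_cons]
      calc M.eRk (X (Finset.cons a s ha) ∪ R) + (((s.card + 1) * n : ℕ) : ℕ∞)
          = (M.eRk (X (Finset.cons a s ha) ∪ R) + n) + ((s.card * n : ℕ) : ℕ∞) := by
            push_cast
            ring
        _ ≤ (M.eRk (X s ∪ R) + M.eRk (X {a} ∪ R)) + ((s.card * n : ℕ) : ℕ∞) := by
            exact add_le_add ((add_le_add h2 h3).trans h1) le_rfl
        _ = (M.eRk (X s ∪ R) + ((s.card * n : ℕ) : ℕ∞)) + M.eRk (X {a} ∪ R) := by ring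
        _ ≤ _ := by
            refine (add_le_add ih h6).trans (le_of_eq ?_)
            push_cast
            ring
  have h1 := key Finset.univ Finset.univ_nonempty
  have h2 : (c : ℕ∞) ≤ M.eRk (X Finset.univ ∪ R) := by
    have h3 : M.Indep (Set.range (fun i => f (e i))) := by
      rw [hM, AlgebraicIndependent.matroid_indep_iff]
      exact he.to_subtype_range
    have h4 : (Set.range (fun i => f (e i))).encard = c := by
      rw [← Set.image_univ, he.injective.encard_image, Set.encard_univ, ENat.card_eq_coe_natCard]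
      simp
    rw [← h4]
    refine h3.encard_le_eRk_of_subset ?_
    rintro _ ⟨i, rfl⟩
    exact Or.inr ⟨_, rfl⟩
  have h3 : (c : ℕ∞) + (((Finset.univ : Finset ι).card * n : ℕ) : ℕ∞) ≤
      ((n + ∑ i, (Fintype.card {p : Σ i, σ i // p.1 ≠ i} + (T i).card) : ℕ) : ℕ∞) :=
    (add_le_add h2 le_rfl).trans h1
  have h4 : c + (Finset.univ : Finset ι).card * n ≤
      n + ∑ i, (Fintype.card {p : Σ i, σ i // p.1 ≠ i} + (T i).card) := by exact_mod_cast h3
  have h5 : ∑ i : ι, (Fintype.card {p : Σ i, σ i // p.1 ≠ i} + Fintype.card (σ i)) =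
      (Finset.univ : Finset ι).card * n := by
    rw [Finset.sum_congr rfl fun i _ => hcard i, Finset.sum_const, smul_eq_mul]
  have h6 : ∑ i, Fintype.card (σ i) = n := by rw [hn, Fintype.card_sigma]
  rw [Finset.sum_add_distrib] at h4 h5
  omega

end

section kod

variable {k E ι : Type*} {U : ι → Type*} [Field k] [CharZero k] [Field E] [∀ i, Field (U i)]
  [Algebra k E] [∀ i, Algebra k (U i)] [∀ i, Algebra (U i) E] [∀ i, IsScalarTower k (U i) E]
  [Fintype ι] [DecidableEq ι] {σ : ι → Type*} [∀ i, Fintype (σ i)] [Algebra.EssFiniteType k E]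

/-- **Easy addition for several fibrations.** -/
theorem kodairaDim_le_sum [Nonempty ι] {x : (Σ i, σ i) → E} (hx : AlgebraicIndependent k x)
    {u : ∀ i, {p : Σ i, σ i // p.1 ≠ i} → U i} (hu : ∀ i, IsTranscendenceBasis k (u i))
    (hux : ∀ i p, algebraMap (U i) E (u i p) = x p) :
    kodairaDim k E ≤ ∑ i, kodairaDim (U i) E := by
  classical
  refine iSup₂_le fun c hc => ?_
  obtain ⟨z, hz⟩ := exists_tb k E
  obtain ⟨m, hm, f₀, hf₀, hne, f, hf, hff⟩ := hc.exists_coord hz
  obtain ⟨T, hT, hTi⟩ := exists_finsets_N hx hu hux f (fun i => i) hf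
  have h1 : ∀ i, (((T i).card : ℕ∞) : WithBot ℕ∞) ≤ kodairaDim (U i) E := fun i =>
    le_iSup₂_of_le _ (kodairaGE_of_family hz hm hf₀ hne hff (T i) (hTi i)) le_rfl
  calc ((c : ℕ∞) : WithBot ℕ∞) ≤ (((∑ i, (T i).card : ℕ) : ℕ∞) : WithBot ℕ∞) := by
        exact_mod_cast hT
    _ = ∑ i, (((T i).card : ℕ∞) : WithBot ℕ∞) := by
        induction (Finset.univ : Finset ι) using Finset.induction_on with
        | empty => simp
        | insert i s hi ih =>
          rw [Finset.sum_insert hi, Finset.sum_insert hi, ← ih]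
          push_cast
          rfl
    _ ≤ _ := Finset.sum_le_sum fun i _ => h1 i

end kod

end Pf72953.Bi
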